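import Mathlib

/-! A Borel-Cantelli lemma for well spaced label sets. -/

open MeasureTheory Set Filter

namespace Pool.Agent.H98.Fib

namespace BC

/-- a real number between `0` and `1` with `q^2 = 1 - q` -/
theorem exists_q : ∃ q : ℝ, 1 / 2 < q ∧ q < 1 ∧ q ^ 2 = 1 - q := by
  have h : Real.sqrt 5 ^ 2 = 5 := Real.sq_sqrt (by norm_num)
  have h1 : (2 : ℝ) < Real.sqrt 5 := Real.lt_sqrt_of_sq_lt (by norm_num)
  have h2 : Real.sqrt 5 < 3 := (Real.sqrt_lt' (by norm_num)).2 (by norm_num)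
  exact ⟨(Real.sqrt 5 - 1) / 2, by linarith, by linarith, by nlinarith⟩

theorem fib_lower {q : ℝ} (h0 : 1 / 2 < q) (h1 : q < 1) (h2 : q ^ 2 = 1 - q) (k : ℕ) :
    q ^ 2 ≤ (Nat.fib (k + 1) : ℝ) * q ^ (k + 1) := by
  have hq : 0 < q := by linarith
  induction k using Nat.twoStepInduction with
  | zero =>
    norm_num
    nlinarith
  | one =>
    norm_num
  | more k ih1 ih2 =>
    have h3 : (Nat.fib (k + 2 + 1) : ℝ) = Nat.fib (k + 1) + Nat.fib (k + 1 + 1) := by
      rw [Nat.fib_add_two (n := k + 1)]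
      push_cast
      ring
    have h6 : (Nat.fib (k + 2 + 1) : ℝ) * q ^ (k + 2 + 1) =
        q ^ 2 * ((Nat.fib (k + 1) : ℝ) * q ^ (k + 1)) +
        q * ((Nat.fib (k + 1 + 1) : ℝ) * q ^ (k + 1 + 1)) := by
      rw [h3]
      ring
    rw [h6]
    have hsq : 0 < q ^ 2 := by positivity
    nlinarith [mul_le_mul_of_nonneg_left ih1 hsq.le, mul_le_mul_of_nonneg_left ih2 hq.le]

theorem fib_mul_le (a b : ℕ) : Nat.fib a * Nat.fib b ≤ Nat.fib (a + b) := by
  rcases Nat.eq_zero_or_pos a with rfl | ha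
  · simp
  rcases Nat.eq_zero_or_pos b with rfl | hb
  · simp
  obtain ⟨a, rfl⟩ : ∃ a', a = a' + 1 := ⟨a - 1, by omega⟩
  obtain ⟨b, rfl⟩ : ∃ b', b = b' + 1 := ⟨b - 1, by omega⟩
  have h := Nat.fib_add a b
  calc Nat.fib (a + 1) * Nat.fib (b + 1) ≤ Nat.fib (a + b + 1) := by omega
    _ ≤ Nat.fib (a + 1 + (b + 1)) := Nat.fib_mono (by omega)

theorem sep_finite {S : Set ℝ} {δ : ℝ} (hδ : 0 < δ) (hS : S ⊆ Icc 0 1)
    (hsep : ∀ x ∈ S, ∀ y ∈ S, x ≠ y → δ ≤ |x - y|) :
    ∃ T : Finset ℝ, (T : Set ℝ) = S ∧ (T.card : ℝ) ≤ 1 / δ + 1 := by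
  have hmaps : MapsTo (fun x : ℝ => ⌊x / δ⌋₊) S (Finset.range (⌊1 / δ⌋₊ + 1) : Set ℕ) := by
    intro x hx
    rw [Finset.coe_range, mem_Iio]
    exact Nat.lt_succ_of_le (Nat.floor_mono (div_le_div_of_nonneg_right (hS hx).2 hδ.le))
  have hinj : InjOn (fun x : ℝ => ⌊x / δ⌋₊) S := by
    intro x hx y hy hxy
    by_contra hne
    have h1 := hsep x hx y hy hne
    have hx0 : 0 ≤ x / δ := div_nonneg (hS hx).1 hδ.le
    have hy0 : 0 ≤ y / δ := div_nonneg (hS hy).1 hδ.le
    have a1 := Nat.floor_le hx0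
    have a2 := Nat.lt_floor_add_one (x / δ)
    have b1 := Nat.floor_le hy0
    have b2 := Nat.lt_floor_add_one (y / δ)
    simp only at hxy
    rw [hxy] at a1 a2
    have h2 : |x / δ - y / δ| < 1 := by
      rw [abs_lt]
      constructor <;> linarith
    rw [← sub_div, abs_div, abs_of_pos hδ, div_lt_one hδ] at h2
    linarith
  have hfin : S.Finite := Set.Finite.of_injOn hmaps hinj (Finset.finite_toSet _)
  refine ⟨hfin.toFinset, hfin.coe_toFinset, ?_⟩
  have h3 : hfin.toFinset.card ≤ (Finset.range (⌊1 / δ⌋₊ + 1)).card := by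
    refine Finset.card_le_card_of_injOn (fun x : ℝ => ⌊x / δ⌋₊) ?_ ?_
    · rw [hfin.coe_toFinset]
      exact hmaps
    · rw [hfin.coe_toFinset]
      exact hinj
  rw [Finset.card_range] at h3
  have h4 : (hfin.toFinset.card : ℝ) ≤ ((⌊1 / δ⌋₊ + 1 : ℕ) : ℝ) := by exact_mod_cast h3
  refine h4.trans ?_
  push_cast
  have := Nat.floor_le (a := 1 / δ) (by positivity)
  linarith

end BC

open BC

theorem bc_good (D : ℕ → Set ℝ) (c C' : ℝ) (hc : 0 < c) (hC' : 0 < C') (m : ℕ)
    (hmono : ∀ l, D l ⊆ D (l+1)) (hsub : ∀ l, D l ⊆ Icc 0 1)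
    (hsep : ∀ l, ∀ x ∈ D l, ∀ y ∈ D l, x ≠ y → c / (Nat.fib l : ℝ) ≤ |x - y|)
    (hm : ∀ j, m ≤ j → 2 * C' * (Nat.fib (j + 1 - m) : ℝ) < c * (Nat.fib j : ℝ))
    (bad : ℕ → Set ℝ)
    (hbad : ∀ j, m ≤ j → ∀ t ∈ bad j, ∃ y ∈ D (j - m), |t - y| ≤ C' / (Nat.fib j : ℝ)) :
    ∀ ε : ℝ, 0 < ε → ∀ᵐ t ∂(volume.restrict (Ioo (0:ℝ) 1)), ∀ᶠ j : ℕ in atTop,
      ∃ j' : ℕ, j ≤ j' ∧ (j' : ℝ) ≤ (1 + ε) * j ∧ t ∉ bad j' := by
  intro ε hε
  have hmono' : Monotone D := monotone_nat_of_le_succ hmono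
  have hm1 : 1 ≤ m := by
    by_contra h
    have h0 : m = 0 := by omega
    subst h0
    have := hm 0 le_rfl
    simp at this
    linarith
  have hfp : ∀ j, m ≤ j → (0 : ℝ) < Nat.fib j := fun j hj => by
    exact_mod_cast Nat.fib_pos.2 (by omega)
  -- chains of bad levels
  have hchain : ∀ (t : ℝ) (j n : ℕ), m ≤ j → (∀ j', j ≤ j' → j' ≤ j + n → t ∈ bad j') →
      ∃ y ∈ D (j - m), |t - y| ≤ C' / (Nat.fib (j + n) : ℝ) := by
    intro t j n hj
    induction n with
    | zero => intro h; exact hbad j hj t (h j le_rfl (by omega))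
    | succ n ih =>
      intro h
      obtain ⟨y, hy, hty⟩ := ih fun j' h1 h2 => h j' h1 (by omega)
      obtain ⟨y', hy', hty'⟩ := hbad (j + n + 1) (by omega) t (h _ (by omega) (by omega))
      have hyD : y ∈ D (j + n + 1 - m) := hmono' (by omega) hy
      have hf1 := hfp (j + n) (by omega)
      have hf2 : (Nat.fib (j + n) : ℝ) ≤ Nat.fib (j + n + 1) := by
        exact_mod_cast Nat.fib_le_fib_succ
      have hf3 : (0 : ℝ) < Nat.fib (j + n + 1 - m) := by
        exact_mod_cast Nat.fib_pos.2 (by omega)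
      have heq : y = y' := by
        by_contra hne
        have h1 := hsep _ y hyD y' hy' hne
        have h2 : |y - y'| ≤ 2 * C' / (Nat.fib (j + n) : ℝ) := by
          have h3 : |y - y'| ≤ |t - y'| + |t - y| := by
            have : y - y' = (t - y') - (t - y) := by ring
            rw [this]
            exact abs_sub _ _
          have h4 : C' / (Nat.fib (j + n + 1) : ℝ) ≤ C' / (Nat.fib (j + n) : ℝ) :=
            div_le_div_of_nonneg_left hC'.le hf1 hf2
          have h5 : 2 * C' / (Nat.fib (j + n) : ℝ) = C' / (Nat.fib (j + n) : ℝ) +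
            C' / (Nat.fib (j + n) : ℝ) := by ring
          rw [h5]
          linarith
        have h6 := hm (j + n) (by omega)
        have h7 : 2 * C' / (Nat.fib (j + n) : ℝ) < c / (Nat.fib (j + n + 1 - m) : ℝ) := by
          rw [div_lt_div_iff₀ hf1 hf3]
          exact h6
        linarith
      refine ⟨y, hy, ?_⟩
      rw [heq]
      exact hty'
  -- the exceptional sets
  obtain ⟨q, hq0, hq1, hq2⟩ := exists_q
  have hqp : 0 < q := by linarith
  obtain ⟨j₀, hj₀⟩ := exists_nat_gt (1 / ε)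
  set N := max j₀ m with hN
  set s : ℕ → Set ℝ := fun j => if N ≤ j then
    {t | ∀ j', j ≤ j' → j' ≤ j + ⌊ε * j⌋₊ → t ∈ bad j'} else ∅ with hs
  set K : ℝ := (1 / c + 1) * (2 * C') / q ^ 2 / q with hK
  set Q : ℝ := q ^ ε with hQ
  have hQ0 : 0 < Q := Real.rpow_pos_of_pos hqp _
  have hQ1 : Q < 1 := Real.rpow_lt_one hqp.le hq1 hε
  have hbound : ∀ j, (volume.restrict (Ioo (0:ℝ) 1)) (s j) ≤ ENNReal.ofReal (K * Q ^ j) := by
    intro j
    by_cases hj : N ≤ j
    · have hjm : m ≤ j := (le_max_right _ _).trans hj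
      have hjj : j₀ ≤ j := (le_max_left _ _).trans hj
      set n := ⌊ε * j⌋₊ with hn
      have hn1 : 1 ≤ n := by
        rw [hn, Nat.one_le_floor_iff]
        have h1 : (j₀ : ℝ) ≤ j := by exact_mod_cast hjj
        have h2 : 1 / ε < j := lt_of_lt_of_le hj₀ h1
        rw [div_lt_iff₀ hε] at h2
        linarith
      have hl1 : 1 ≤ j - m + 1 := by omega
      have hfl : (0 : ℝ) < Nat.fib (j - m + 1) := by exact_mod_cast Nat.fib_pos.2 (by omega)
      obtain ⟨T, hT, hTc⟩ := sep_finite (S := D (j - m + 1))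
        (δ := c / (Nat.fib (j - m + 1) : ℝ)) (by positivity) (hsub _) (hsep _)
      have hfj : (0 : ℝ) < Nat.fib j := hfp j hjm
      have hfj1 : (1 : ℝ) ≤ Nat.fib j := by exact_mod_cast Nat.fib_pos.2 (by omega)
      have hfn : (0 : ℝ) < Nat.fib n := by exact_mod_cast Nat.fib_pos.2 (by omega)
      have hfJ : (Nat.fib j : ℝ) * Nat.fib n ≤ Nat.fib (j + n) := by
        exact_mod_cast fib_mul_le j n
      have hfJ0 : (0 : ℝ) < Nat.fib (j + n) := by exact_mod_cast Nat.fib_pos.2 (by omega)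
      set ρ := C' / (Nat.fib (j + n) : ℝ) with hρ
      have hρ0 : 0 ≤ ρ := by positivity
      have hsubs : s j ⊆ ⋃ y ∈ T, Icc (y - ρ) (y + ρ) := by
        intro t ht
        rw [hs] at ht
        simp only [hj, if_true, mem_ofPred_eq] at ht
        obtain ⟨y, hy, hty⟩ := hchain t j n hjm ht
        have hyT : y ∈ T := by
          have : y ∈ (T : Set ℝ) := by
            rw [hT]
            exact hmono _ hy
          exact_mod_cast this
        rw [mem_iUnion₂]
        refine ⟨y, hyT, ?_⟩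
        have := abs_le.1 hty
        constructor <;> linarith
      calc (volume.restrict (Ioo (0:ℝ) 1)) (s j) ≤ volume (s j) := Measure.restrict_apply_le _ _
        _ ≤ volume (⋃ y ∈ T, Icc (y - ρ) (y + ρ)) := measure_mono hsubs
        _ ≤ ∑ y ∈ T, volume (Icc (y - ρ) (y + ρ)) := measure_biUnion_finset_le _ _
        _ = ∑ y ∈ T, ENNReal.ofReal (2 * ρ) := by
          refine Finset.sum_congr rfl fun y _ => ?_
          rw [Real.volume_Icc]
          congr 1
          ring
        _ = ENNReal.ofReal (T.card * (2 * ρ)) := by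
          rw [Finset.sum_const, nsmul_eq_mul, ENNReal.ofReal_mul (Nat.cast_nonneg _),
            ENNReal.ofReal_natCast]
        _ ≤ ENNReal.ofReal (K * Q ^ j) := by
          apply ENNReal.ofReal_le_ofReal
          have h1 : (T.card : ℝ) ≤ (1 / c + 1) * Nat.fib j := by
            refine hTc.trans ?_
            rw [one_div_div]
            have h2 : (Nat.fib (j - m + 1) : ℝ) ≤ Nat.fib j := by
              exact_mod_cast Nat.fib_mono (by omega)
            have h3 : (Nat.fib (j - m + 1) : ℝ) / c ≤ Nat.fib j / c :=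
              div_le_div_of_nonneg_right h2 hc.le
            have h4 : (1 / c + 1) * (Nat.fib j : ℝ) = Nat.fib j / c + Nat.fib j := by ring
            rw [h4]
            linarith
          have h5 : (T.card : ℝ) * (2 * ρ) ≤ (1 / c + 1) * (2 * C') / Nat.fib n := by
            calc (T.card : ℝ) * (2 * ρ) ≤ ((1 / c + 1) * Nat.fib j) * (2 * ρ) := by
                  apply mul_le_mul_of_nonneg_right h1 (by positivity)
              _ = ((1 / c + 1) * (2 * C')) * (Nat.fib j / Nat.fib (j + n)) := by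
                  rw [hρ]; ring
              _ ≤ ((1 / c + 1) * (2 * C')) * (1 / Nat.fib n) := by
                  apply mul_le_mul_of_nonneg_left _ (by positivity)
                  rw [div_le_div_iff₀ hfJ0 hfn]
                  linarith
              _ = (1 / c + 1) * (2 * C') / Nat.fib n := by ring
          refine h5.trans ?_
          obtain ⟨k, hk⟩ : ∃ k, n = k + 1 := ⟨n - 1, by omega⟩
          have h6 := fib_lower hq0 hq1 hq2 k
          rw [← hk] at h6
          have h7 : 1 / (Nat.fib n : ℝ) ≤ q ^ n / q ^ 2 := by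
            rw [div_le_div_iff₀ hfn (by positivity)]
            linarith
          have h8 : q ^ n ≤ Q ^ j / q := by
            rw [le_div_iff₀ hqp, hQ, ← Real.rpow_natCast (q ^ ε) j, ← Real.rpow_mul hqp.le,
              ← pow_succ, ← Real.rpow_natCast q (n + 1)]
            apply Real.rpow_le_rpow_of_exponent_ge hqp hq1.le
            have := Nat.lt_floor_add_one (ε * j)
            push_cast
            linarith
          calc (1 / c + 1) * (2 * C') / Nat.fib n = (1 / c + 1) * (2 * C') * (1 / Nat.fib n) := by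
                ring
            _ ≤ (1 / c + 1) * (2 * C') * ((Q ^ j / q) / q ^ 2) := by
                apply mul_le_mul_of_nonneg_left _ (by positivity)
                refine h7.trans ?_
                exact div_le_div_of_nonneg_right h8 (by positivity)
            _ = K * Q ^ j := by
                rw [hK]; ring
    · have : s j = ∅ := by rw [hs]; simp only [hj, if_false]
      rw [this]
      simp
  have hsum : ∑' j, (volume.restrict (Ioo (0:ℝ) 1)) (s j) ≠ ⊤ := by
    have h1 : Summable fun j : ℕ => K * Q ^ j :=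
      (summable_geometric_of_lt_one hQ0.le hQ1).mul_left K
    exact ne_top_of_le_ne_top h1.tsum_ofReal_ne_top (ENNReal.tsum_le_tsum hbound)
  filter_upwards [ae_eventually_notMem hsum] with t ht
  filter_upwards [ht, eventually_ge_atTop N] with j hj hjN
  rw [hs] at hj
  simp only [hjN, if_true, mem_ofPred_eq] at hj
  push Not at hj
  obtain ⟨j', h1, h2, h3⟩ := hj
  refine ⟨j', h1, ?_, h3⟩
  have h4 : (j' : ℝ) ≤ j + ⌊ε * j⌋₊ := by exact_mod_cast h2
  have h5 := Nat.floor_le (a := ε * j) (by positivity)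
  linarith

end Pool.Agent.H98.Fib
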