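import Mathlib

/-! Counting eigenvalues of Hermitian matrices. -/

open Matrix Polynomial

namespace Pool.Agent.H98.Fib

/-- number of eigenvalues (roots of the characteristic polynomial, with multiplicity) of real part
at most `E` -/
noncomputable def cnt {n : Type*} [Fintype n] [DecidableEq n] (A : Matrix n n ℂ) (E : ℝ) : ℕ :=
  (A.charpoly.roots.filter (fun z => z.re ≤ E)).card

variable {m n : Type*} [Fintype n] [DecidableEq n] [Fintype m] [DecidableEq m]

theorem cnt_le_card (A : Matrix n n ℂ) (E : ℝ) : cnt A E ≤ Fintype.card n := by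
  unfold cnt
  refine (Multiset.card_le_card (Multiset.filter_le _ _)).trans ?_
  refine (Polynomial.card_roots' _).trans ?_
  rw [Matrix.charpoly_natDegree_eq_dim]

theorem cnt_eq_card_filter {A : Matrix n n ℂ} (hA : A.IsHermitian) (E : ℝ) :
    cnt A E = (Finset.univ.filter fun i => hA.eigenvalues i ≤ E).card := by
  unfold cnt
  rw [hA.roots_charpoly_eq_eigenvalues, Multiset.filter_map, Multiset.card_map]
  rfl

/-- the spectral coordinates -/
lemma exists_spec {A : Matrix n n ℂ} (hA : A.IsHermitian) :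
    ∃ T : (n → ℂ) →ₗ[ℂ] (n → ℂ),
      (∀ x, (star x ⬝ᵥ (A *ᵥ x)).re = ∑ i, hA.eigenvalues i * ‖T x i‖ ^ 2) ∧
      (∀ x, (star x ⬝ᵥ x).re = ∑ i, ‖T x i‖ ^ 2) := by
  set U : Matrix n n ℂ := (hA.eigenvectorUnitary : Matrix n n ℂ) with hU
  have hUU : U * star U = 1 := Unitary.coe_mul_star_self hA.eigenvectorUnitary
  have hspec : A = U * diagonal (RCLike.ofReal ∘ hA.eigenvalues) * star U := by
    have := hA.spectral_theorem
    rwa [Unitary.conjStarAlgAut_apply] at this
  have hstar : ∀ x : n → ℂ, star x ᵥ* U = star (star U *ᵥ x) := by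
    intro x
    rw [Matrix.star_mulVec, Matrix.star_eq_conjTranspose, Matrix.conjTranspose_conjTranspose]
  have hnorm : ∀ z : ℂ, (star z * z).re = ‖z‖ ^ 2 := by
    intro z
    rw [Complex.star_def, ← Complex.normSq_eq_conj_mul_self, Complex.ofReal_re,
      Complex.normSq_eq_norm_sq]
  refine ⟨Matrix.mulVecLin (star U), fun x => ?_, fun x => ?_⟩
  · conv_lhs => rw [hspec]
    rw [← Matrix.mulVec_mulVec, ← Matrix.mulVec_mulVec, Matrix.dotProduct_mulVec, hstar]
    simp only [Matrix.mulVecLin_apply]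
    set y := star U *ᵥ x
    rw [dotProduct, Complex.re_sum]
    refine Finset.sum_congr rfl fun i _ => ?_
    rw [Matrix.mulVec_diagonal, Pi.star_apply]
    have : star (y i) * ((RCLike.ofReal ∘ hA.eigenvalues) i * y i) =
        ((hA.eigenvalues i : ℝ) : ℂ) * (star (y i) * y i) := by
      simp only [Function.comp_apply]
      rw [show (RCLike.ofReal (hA.eigenvalues i) : ℂ) = ((hA.eigenvalues i : ℝ) : ℂ) from rfl]
      ring
    rw [this, Complex.re_ofReal_mul, hnorm]
  · have h1 : star x ⬝ᵥ x = star (star U *ᵥ x) ⬝ᵥ (star U *ᵥ x) := by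
      rw [← hstar, ← Matrix.dotProduct_mulVec, Matrix.mulVec_mulVec, hUU, Matrix.one_mulVec]
    rw [h1]
    simp only [Matrix.mulVecLin_apply]
    set y := star U *ᵥ x
    rw [dotProduct, Complex.re_sum]
    refine Finset.sum_congr rfl fun i _ => ?_
    rw [Pi.star_apply, hnorm]

/-- The variational comparison. -/
theorem cnt_le_cnt_add {A B : Matrix n n ℂ} (hA : A.IsHermitian) (hB : B.IsHermitian)
    (K : Submodule ℂ (n → ℂ)) (r : ℕ) (δ E : ℝ)
    (hK : Fintype.card n ≤ Module.finrank ℂ K + r)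
    (h : ∀ x ∈ K, (star x ⬝ᵥ (B *ᵥ x)).re ≤ (star x ⬝ᵥ (A *ᵥ x)).re + δ * (star x ⬝ᵥ x).re) :
    cnt A E ≤ cnt B (E + δ) + r := by
  obtain ⟨S, hS1, hS2⟩ := exists_spec hA
  obtain ⟨T, hT1, hT2⟩ := exists_spec hB
  by_contra hcon
  push Not at hcon
  rw [cnt_eq_card_filter hA, cnt_eq_card_filter hB] at hcon
  -- the three conditions as one linear map
  let Ss : K →ₗ[ℂ] ({i // ¬ hA.eigenvalues i ≤ E} → ℂ) :=
    (LinearMap.funLeft ℂ ℂ (fun i : {i // ¬ hA.eigenvalues i ≤ E} => (i : n))) ∘ₗ S ∘ₗ K.subtype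
  let Ts : K →ₗ[ℂ] ({i // hB.eigenvalues i ≤ E + δ} → ℂ) :=
    (LinearMap.funLeft ℂ ℂ (fun i : {i // hB.eigenvalues i ≤ E + δ} => (i : n))) ∘ₗ T ∘ₗ K.subtype
  have hlt : Module.finrank ℂ (({i // ¬ hA.eigenvalues i ≤ E} → ℂ) ×
      ({i // hB.eigenvalues i ≤ E + δ} → ℂ)) < Module.finrank ℂ K := by
    rw [Module.finrank_prod, Module.finrank_fintype_fun_eq_card, Module.finrank_fintype_fun_eq_card,
      Fintype.card_subtype_compl, Fintype.card_subtype, Fintype.card_subtype]
    have := Finset.card_le_univ (Finset.univ.filter fun i => hA.eigenvalues i ≤ E)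
    omega
  have hne := LinearMap.ker_ne_bot_of_finrank_lt (f := Ss.prod Ts) hlt
  obtain ⟨x, hx, hx0⟩ := (Submodule.ne_bot_iff _).1 hne
  rw [LinearMap.mem_ker, LinearMap.prod_apply, Prod.mk_eq_zero] at hx
  have hS0 : ∀ i, ¬ hA.eigenvalues i ≤ E → S (x : n → ℂ) i = 0 := fun i hi =>
    congrFun hx.1 ⟨i, hi⟩
  have hT0 : ∀ i, hB.eigenvalues i ≤ E + δ → T (x : n → ℂ) i = 0 := fun i hi =>
    congrFun hx.2 ⟨i, hi⟩
  have hpos : 0 < (star (x : n → ℂ) ⬝ᵥ (x : n → ℂ)).re := by
    have hx0' : (x : n → ℂ) ≠ 0 := fun h0 => hx0 (Subtype.ext h0)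
    obtain ⟨i, hi⟩ := Function.ne_iff.1 hx0'
    have hterm : ∀ i, (star (x : n → ℂ) i * (x : n → ℂ) i).re = ‖(x : n → ℂ) i‖ ^ 2 := by
      intro i
      rw [Pi.star_apply, Complex.star_def, ← Complex.normSq_eq_conj_mul_self, Complex.ofReal_re,
        Complex.normSq_eq_norm_sq]
    rw [dotProduct, Complex.re_sum]
    refine Finset.sum_pos' (fun i _ => by rw [hterm]; positivity) ⟨i, Finset.mem_univ i, ?_⟩
    rw [hterm]
    have : 0 < ‖(x : n → ℂ) i‖ := norm_pos_iff.2 hi
    positivity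
  have h1 : (star (x : n → ℂ) ⬝ᵥ (A *ᵥ (x : n → ℂ))).re ≤
      E * (star (x : n → ℂ) ⬝ᵥ (x : n → ℂ)).re := by
    rw [hS1, hS2, Finset.mul_sum]
    refine Finset.sum_le_sum fun i _ => ?_
    by_cases hi : hA.eigenvalues i ≤ E
    · exact mul_le_mul_of_nonneg_right hi (sq_nonneg _)
    · rw [hS0 i hi]; simp
  have h2 : (E + δ) * (star (x : n → ℂ) ⬝ᵥ (x : n → ℂ)).re <
      (star (x : n → ℂ) ⬝ᵥ (B *ᵥ (x : n → ℂ))).re := by
    rw [hT2] at hpos
    rw [hT1, hT2, Finset.mul_sum]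
    obtain ⟨i, -, hi⟩ := Finset.exists_ne_zero_of_sum_ne_zero hpos.ne'
    refine Finset.sum_lt_sum (fun i _ => ?_) ⟨i, Finset.mem_univ i, ?_⟩
    · by_cases hi : hB.eigenvalues i ≤ E + δ
      · rw [hT0 i hi]; simp
      · push Not at hi
        exact mul_le_mul_of_nonneg_right hi.le (sq_nonneg _)
    · by_cases hi' : hB.eigenvalues i ≤ E + δ
      · rw [hT0 i hi'] at hi; simp at hi
      · push Not at hi'
        refine mul_lt_mul_of_pos_right hi' ?_
        exact lt_of_le_of_ne (sq_nonneg _) (Ne.symm hi)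
  have h3 := h x x.2
  linarith

/-- The subspace on which the coordinates in `s` vanish has codimension at most `card s`. -/
theorem cnt_le_cnt_add_of_coords {A B : Matrix n n ℂ} (hA : A.IsHermitian) (hB : B.IsHermitian)
    (s : Finset n) (E : ℝ)
    (h : ∀ x : n → ℂ, (∀ i ∈ s, x i = 0) → (star x ⬝ᵥ (B *ᵥ x)).re = (star x ⬝ᵥ (A *ᵥ x)).re) :
    cnt A E ≤ cnt B E + s.card := by
  let R : (n → ℂ) →ₗ[ℂ] (s → ℂ) := LinearMap.funLeft ℂ ℂ (fun i : s => (i : n))
  have := cnt_le_cnt_add hA hB (LinearMap.ker R) s.card 0 E ?_ ?_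
  · simpa using this
  · have h1 := LinearMap.finrank_range_add_finrank_ker R
    have h2 : Module.finrank ℂ (LinearMap.range R) ≤ s.card := by
      refine (Submodule.finrank_le _).trans ?_
      rw [Module.finrank_fintype_fun_eq_card, Fintype.card_coe]
    rw [Module.finrank_fintype_fun_eq_card] at h1
    omega
  · intro x hx
    rw [LinearMap.mem_ker] at hx
    rw [h x fun i hi => congrFun hx ⟨i, hi⟩]
    simp

theorem cnt_fromBlocks (A : Matrix m m ℂ) (B : Matrix n n ℂ) (E : ℝ) :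
    cnt (Matrix.fromBlocks A 0 0 B) E = cnt A E + cnt B E := by
  unfold cnt
  rw [Matrix.charpoly_fromBlocks_zero₁₂, Polynomial.roots_mul, Multiset.filter_add,
    Multiset.card_add]
  exact mul_ne_zero (Matrix.charpoly_monic _).ne_zero (Matrix.charpoly_monic _).ne_zero

theorem cnt_submatrix_equiv (e : m ≃ n) (A : Matrix n n ℂ) (E : ℝ) :
    cnt (A.submatrix e e) E = cnt A E := by
  unfold cnt
  have := Matrix.charpoly_reindex e.symm A
  rw [Matrix.reindex_apply, Equiv.symm_symm] at this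
  rw [this]

theorem cnt_ofReal (A : Matrix n n ℝ) (hA : A.IsHermitian) (E : ℝ) :
    (A.charpoly.roots.filter (· ≤ E)).card = cnt (A.map (algebraMap ℝ ℂ)) E := by
  unfold cnt
  rw [Matrix.charpoly_map, hA.splits_charpoly.roots_map, Multiset.filter_map, Multiset.card_map]
  rfl

/-- eigenvectors exist for each `hA.eigenvalues i` -/
theorem exists_eigenvector {A : Matrix n n ℂ} (hA : A.IsHermitian) (i : n) :
    ∃ x : n → ℂ, x ≠ 0 ∧ A *ᵥ x = ((hA.eigenvalues i : ℝ) : ℂ) • x := by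
  refine ⟨⇑(hA.eigenvectorBasis i), ?_, ?_⟩
  · intro h0
    have h1 := hA.eigenvectorBasis.orthonormal.ne_zero i
    apply h1
    ext j
    exact congrFun h0 j
  · rw [hA.mulVec_eigenvectorBasis]
    rfl

/-- one dimensional eigenspaces: the eigenvalues are distinct -/
theorem eigenvalues_injective {A : Matrix n n ℂ} (hA : A.IsHermitian)
    (h : ∀ (E : ℝ) (x y : n → ℂ), A *ᵥ x = (E : ℂ) • x → A *ᵥ y = (E : ℂ) • y → x ≠ 0 →
      ∃ c : ℂ, y = c • x) : Function.Injective hA.eigenvalues := by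
  intro i j hij
  by_contra hne
  have hi : A *ᵥ ⇑(hA.eigenvectorBasis i) = ((hA.eigenvalues i : ℝ) : ℂ) •
      ⇑(hA.eigenvectorBasis i) := by
    rw [hA.mulVec_eigenvectorBasis]; rfl
  have hj : A *ᵥ ⇑(hA.eigenvectorBasis j) = ((hA.eigenvalues i : ℝ) : ℂ) •
      ⇑(hA.eigenvectorBasis j) := by
    rw [hA.mulVec_eigenvectorBasis, hij]; rfl
  have h0 : (⇑(hA.eigenvectorBasis i) : n → ℂ) ≠ 0 := by
    intro h0
    apply hA.eigenvectorBasis.orthonormal.ne_zero i
    ext k
    exact congrFun h0 k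
  obtain ⟨c, hc⟩ := h _ _ _ hi hj h0
  have h1 : inner ℂ (hA.eigenvectorBasis i) (hA.eigenvectorBasis j) = 0 :=
    hA.eigenvectorBasis.orthonormal.2 hne
  have h2 : hA.eigenvectorBasis j = c • hA.eigenvectorBasis i := by
    ext k; exact congrFun hc k
  rw [h2, inner_smul_right] at h1
  have h3 : inner ℂ (hA.eigenvectorBasis i) (hA.eigenvectorBasis i) ≠ (0 : ℂ) :=
    inner_self_ne_zero.2 (hA.eigenvectorBasis.orthonormal.ne_zero i)
  rcases mul_eq_zero.1 h1 with h4 | h4
  · rw [h4, zero_smul] at h2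
    exact hA.eigenvectorBasis.orthonormal.ne_zero j h2
  · exact h3 h4

/-- a real polynomial of degree `card n` vanishing at all the (distinct) eigenvalues -/
theorem roots_of_injective {A : Matrix n n ℂ} (hA : A.IsHermitian)
    (hinj : Function.Injective hA.eigenvalues) (p : ℝ[X]) (hp : p ≠ 0)
    (hdeg : p.natDegree = Fintype.card n)
    (hroot : ∀ i, p.eval (hA.eigenvalues i) = 0) :
    p.roots = Multiset.map hA.eigenvalues Finset.univ.val ∧ p.roots.Nodup ∧
      ∀ E : ℝ, (p.roots.filter (· ≤ E)).card = cnt A E := by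
  have hnd : (Multiset.map hA.eigenvalues Finset.univ.val).Nodup :=
    Finset.univ.nodup.map hinj
  have h1 : Multiset.map hA.eigenvalues Finset.univ.val = p.roots := by
    refine Multiset.eq_of_le_of_card_le ?_ ?_
    · rw [Multiset.le_iff_subset hnd]
      intro z hz
      obtain ⟨i, -, rfl⟩ := Multiset.mem_map.1 hz
      rw [Polynomial.mem_roots hp]
      exact hroot i
    · refine (Polynomial.card_roots' p).trans ?_
      rw [hdeg, Multiset.card_map]
      exact le_of_eq rfl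
  refine ⟨h1.symm, h1 ▸ hnd, fun E => ?_⟩
  rw [← h1, cnt_eq_card_filter hA, Multiset.filter_map, Multiset.card_map]
  rfl

end Pool.Agent.H98.Fib
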