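import Mathlib

/-! Basic definitions for MP_24b761_mp. -/

open Polynomial

namespace Pool.Agent.H98.Fib

/-- the inverse golden ratio `(√5 - 1)/2` -/
noncomputable def al : ℝ := (Real.sqrt 5 - 1) / 2

/-- the Fibonacci (Sturmian) potential with phase `ω`, coupling one, at the site `n` -/
noncomputable def pot (ω : ℝ) (n : ℕ) : ℝ :=
  if 1 - al ≤ Int.fract ((n : ℝ) * al + ω) then 1 else 0

/-- The transfer matrices: `M 0 = [[1,-l],[0,1]]`, `M 1 = [[E,-1],[1,0]]`, `M (j+2) = M j * M (j+1)`.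
`M 2 = [[E-l,-1],[1,0]]`. -/
noncomputable def Mf (l E : ℝ) : ℕ → Matrix (Fin 2) (Fin 2) ℝ
  | 0 => !![1, -l; 0, 1]
  | 1 => !![E, -1; 1, 0]
  | (j+2) => Mf l E j * Mf l E (j+1)

/-- The half traces as polynomials in `E`; `xq l j` has degree `Nat.fib j`. -/
noncomputable def xq (l : ℝ) : ℕ → ℝ[X]
  | 0 => 1
  | 1 => C (1/2) * X
  | 2 => C (1/2) * (X - C l)
  | (j+3) => 2 * xq l (j+2) * xq l (j+1) - xq l j

/-- The derivative of `xq l j` with respect to `l`. -/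
noncomputable def yq (l : ℝ) : ℕ → ℝ[X]
  | 0 => 0
  | 1 => 0
  | 2 => C (-1/2)
  | (j+3) => 2 * (yq l (j+2) * xq l (j+1) + xq l (j+2) * yq l (j+1)) - yq l j

end Pool.Agent.H98.Fib
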