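import Pool.Agent.H98.Fib.DimC

/-! The comparison theorem for the Hausdorff dimension of two measures. -/

open MeasureTheory Set Filter Metric
open scoped ENNReal NNReal Topology

set_option linter.unusedSectionVars false

namespace Pool.Agent.H98.Fib

namespace DimAux

theorem fib_le_pow (j : ℕ) : (Nat.fib j : ℝ) ≤ Real.goldenRatio ^ j := by
  induction j using Nat.twoStepInduction with
  | zero => simp
  | one => simpa using Real.one_lt_goldenRatio.le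
  | more j h1 h2 =>
    rw [Nat.fib_add_two, pow_succ, pow_succ, mul_assoc, ← sq, Real.goldenRatio_sq]
    push_cast
    rw [pow_succ] at h2
    nlinarith

theorem pow_le_fib (j : ℕ) : Real.goldenRatio ^ j ≤ (Nat.fib (j + 2) : ℝ) := by
  induction j using Nat.twoStepInduction with
  | zero => simp
  | one =>
    have : Nat.fib 3 = 2 := rfl
    rw [this, pow_one]
    exact Real.goldenRatio_lt_two.le
  | more j h1 h2 =>
    rw [show j + 2 + 2 = (j + 2) + 2 from rfl, Nat.fib_add_two (n := j + 2), pow_succ, pow_succ,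
      mul_assoc, ← sq, Real.goldenRatio_sq]
    push_cast
    rw [pow_succ] at h2
    rw [show j + 1 + 2 = j + 2 + 1 from by ring] at h2
    nlinarith

/-- growth comparison -/
theorem growth {K s ε : ℝ} (hs : 1 + ε < s) (hε : 0 < ε) :
    ∀ᶠ j : ℕ in atTop, ∀ j' : ℕ, (j' : ℝ) ≤ (1 + ε) * ((j + 1 : ℕ) : ℝ) →
      K * Nat.fib j' ≤ (Nat.fib j : ℝ) ^ s := by
  have hφ : 1 < Real.goldenRatio := Real.one_lt_goldenRatio
  have hφ0 : 0 < Real.goldenRatio := Real.goldenRatio_pos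
  -- linear inequality eventually
  have h1 : Tendsto (fun j : ℕ => (s - (1 + ε)) * (j : ℝ)) atTop atTop :=
    tendsto_natCast_atTop_atTop.const_mul_atTop (by linarith)
  have h2 : Tendsto (fun j : ℕ => Real.goldenRatio ^ ((s - (1 + ε)) * (j : ℝ))) atTop atTop :=
    (tendsto_rpow_atTop_of_base_gt_one _ hφ).comp h1
  filter_upwards [h2.eventually_ge_atTop (K * Real.goldenRatio ^ (1 + ε + 2 * s)),
    eventually_ge_atTop 2] with j hj hj2 j' hj'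
  have hs0 : 0 < s := by linarith
  obtain ⟨k, rfl⟩ := Nat.exists_eq_add_of_le' hj2
  have h3 : (Nat.fib j' : ℝ) ≤ Real.goldenRatio ^ ((1 + ε) * (((k + 2) + 1 : ℕ) : ℝ)) := by
    refine (fib_le_pow j').trans ?_
    rw [← Real.rpow_natCast]
    exact Real.rpow_le_rpow_of_exponent_le hφ.le hj'
  have h4 : Real.goldenRatio ^ ((k : ℝ) * s) ≤ (Nat.fib (k + 2) : ℝ) ^ s := by
    rw [Real.rpow_mul hφ0.le, Real.rpow_natCast]
    exact Real.rpow_le_rpow (by positivity) (pow_le_fib k) hs0.le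
  rcases le_or_gt K 0 with hK | hK
  · have : K * (Nat.fib j' : ℝ) ≤ 0 := mul_nonpos_of_nonpos_of_nonneg hK (Nat.cast_nonneg _)
    exact this.trans (by positivity)
  · refine le_trans ?_ h4
    refine (mul_le_mul_of_nonneg_left h3 hK.le).trans ?_
    have h5 : (1 + ε) * (((k + 2) + 1 : ℕ) : ℝ) + 2 * s =
        (1 + ε + 2 * s) + (1 + ε) * ((k + 2 : ℕ) : ℝ) := by push_cast; ring
    have h6 : Real.goldenRatio ^ ((1 + ε) * (((k + 2) + 1 : ℕ) : ℝ)) =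
        Real.goldenRatio ^ (1 + ε + 2 * s) * Real.goldenRatio ^ ((1 + ε) * ((k + 2 : ℕ) : ℝ)) *
          Real.goldenRatio ^ (-(2 * s)) := by
      rw [← Real.rpow_add hφ0, ← Real.rpow_add hφ0]
      congr 1
      linarith
    have h7 : Real.goldenRatio ^ ((k : ℝ) * s) =
        Real.goldenRatio ^ ((s - (1 + ε)) * ((k + 2 : ℕ) : ℝ)) *
          Real.goldenRatio ^ ((1 + ε) * ((k + 2 : ℕ) : ℝ)) * Real.goldenRatio ^ (-(2 * s)) := by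
      rw [← Real.rpow_add hφ0, ← Real.rpow_add hφ0]
      congr 1
      push_cast
      ring
    rw [h6, h7, ← mul_assoc, ← mul_assoc]
    gcongr

section Main

variable {ν₁ ν₂ : Measure ℝ} [IsProbabilityMeasure ν₁] [IsProbabilityMeasure ν₂]
    {e₁ e₂ r₁ r₂ : ℕ → ℕ → ℝ} {C₀ J : ℕ} {A : ℝ}

theorem window_exists (hJ : 4 * C₀ + 10 ≤ J) {t : ℝ} (ht0 : 0 < t) (ht1 : t < 1) {q : ℕ}
    (hq : 0 < q) : ∃ i < q, |(i : ℝ) - q * t| ≤ (J : ℝ) - 2 := by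
  have hJ' : 4 * (C₀ : ℝ) + 10 ≤ J := by exact_mod_cast hJ
  have hC : (0 : ℝ) ≤ C₀ := Nat.cast_nonneg _
  have hq' : (0 : ℝ) < q := by exact_mod_cast hq
  have h0 : 0 ≤ q * t := by positivity
  have h1 := Nat.floor_le h0
  have h2 := Nat.lt_floor_add_one (q * t)
  refine ⟨⌊(q : ℝ) * t⌋₊, ?_, ?_⟩
  · have h3 : ((⌊(q : ℝ) * t⌋₊ : ℕ) : ℝ) < q := by nlinarith
    exact_mod_cast h3
  · rw [abs_le]
    constructor <;> linarith

theorem exists_min (r : ℕ → ℝ) (hJ : 4 * C₀ + 10 ≤ J) {t : ℝ} (ht0 : 0 < t) (ht1 : t < 1) {q : ℕ}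
    (hq : 0 < q) : ∃ i < q, |(i : ℝ) - q * t| ≤ (J : ℝ) - 2 ∧
      ∀ i' < q, |(i' : ℝ) - q * t| ≤ (J : ℝ) - 2 → r i ≤ r i' := by
  classical
  obtain ⟨i₀, hi₀, hi₀'⟩ := window_exists hJ ht0 ht1 hq
  have hne : ((Finset.range q).filter (fun i : ℕ => |(i : ℝ) - q * t| ≤ (J : ℝ) - 2)).Nonempty :=
    ⟨i₀, Finset.mem_filter.2 ⟨Finset.mem_range.2 hi₀, hi₀'⟩⟩
  obtain ⟨i, hi, hmin⟩ := Finset.exists_min_image _ r hne
  rw [Finset.mem_filter, Finset.mem_range] at hi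
  exact ⟨i, hi.1, hi.2, fun i' h1 h2 => hmin i' (Finset.mem_filter.2 ⟨Finset.mem_range.2 h1, h2⟩)⟩

theorem pointwise [NullSingletonClass ν₁] [NullSingletonClass ν₂]
    (hJ : 4 * C₀ + 10 ≤ J) (hA : 1 ≤ A)
    (he₁ : ∀ j i i', i < i' → i' < Nat.fib j → e₁ j i < e₁ j i')
    (he₂ : ∀ j i i', i < i' → i' < Nat.fib j → e₂ j i < e₂ j i')
    (hcnt₁ : ∀ j E, |(cN (e₁ j) (Nat.fib j) E : ℝ) - (Nat.fib j : ℝ) * F ν₁ E| ≤ C₀)
    (hcnt₂ : ∀ j E, |(cN (e₂ j) (Nat.fib j) E : ℝ) - (Nat.fib j : ℝ) * F ν₂ E| ≤ C₀)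
    (hr₁ : ∀ j i, i < Nat.fib j → 0 < r₁ j i)
    (hr₂ : ∀ j i, i < Nat.fib j → 0 < r₂ j i)
    (hgap₁ : ∀ j i, i + 1 < Nat.fib j →
      r₁ j i / 2 ≤ e₁ j (i+1) - e₁ j i ∧ r₁ j (i+1) / 2 ≤ e₁ j (i+1) - e₁ j i)
    (hmono : ∀ j i, i < Nat.fib j → r₂ j i ≤ r₁ j i)
    (good : ℕ → Set ℝ)
    (hgood : ∀ j, ∀ t ∈ good j, ∀ i, i + 1 < Nat.fib j → |(i : ℝ) - Nat.fib j * t| ≤ J →
      e₂ j (i+1) - e₂ j i ≤ A * r₂ j i ∧ r₂ j i ≤ A * r₂ j (i+1) ∧ r₂ j (i+1) ≤ A * r₂ j i)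
    {t x y : ℝ} (ht0 : 0 < t) (ht1 : t < 1) (hx : F ν₁ x = t) (hxl : ∀ E < x, F ν₁ E < t)
    (hy : F ν₂ y = t) {D D' ε : ℝ} (hD : 0 < D) (hε : 0 < ε) (hDD' : 1 + ε < D' / D)
    (hB1 : ∀ δ : ℝ, 0 < δ → ∃ ρ : ℝ, 0 < ρ ∧ ρ < δ ∧ ρ ^ D ≤ (ν₁ (closedBall x ρ)).toReal)
    (hBC : ∀ᶠ j : ℕ in atTop, ∃ j' : ℕ, j ≤ j' ∧ (j' : ℝ) ≤ (1 + ε) * j ∧ t ∈ good j') :
    ∀ δ : ℝ, 0 < δ → ∃ ρ : ℝ, 0 < ρ ∧ ρ < δ ∧ ρ ^ D' ≤ (ν₂ (closedBall y ρ)).toReal := by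
  classical
  have hC : (0 : ℝ) ≤ C₀ := Nat.cast_nonneg _
  have hfpos : ∀ j, 1 ≤ j → 0 < Nat.fib j := fun j hj => Nat.fib_pos.2 hj
  -- minimal radii
  have hm1 : ∀ j, ∃ i, 1 ≤ j → i < Nat.fib j ∧ |(i : ℝ) - Nat.fib j * t| ≤ (J : ℝ) - 2 ∧
      ∀ i' < Nat.fib j, |(i' : ℝ) - Nat.fib j * t| ≤ (J : ℝ) - 2 → r₁ j i ≤ r₁ j i' := by
    intro j
    by_cases hj : 1 ≤ j
    · obtain ⟨i, h1, h2, h3⟩ := exists_min (r₁ j) hJ ht0 ht1 (hfpos j hj)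
      exact ⟨i, fun _ => ⟨h1, h2, h3⟩⟩
    · exact ⟨0, fun h => absurd h hj⟩
  have hm2 : ∀ j, ∃ i, 1 ≤ j → i < Nat.fib j ∧ |(i : ℝ) - Nat.fib j * t| ≤ (J : ℝ) - 2 ∧
      ∀ i' < Nat.fib j, |(i' : ℝ) - Nat.fib j * t| ≤ (J : ℝ) - 2 → r₂ j i ≤ r₂ j i' := by
    intro j
    by_cases hj : 1 ≤ j
    · obtain ⟨i, h1, h2, h3⟩ := exists_min (r₂ j) hJ ht0 ht1 (hfpos j hj)
      exact ⟨i, fun _ => ⟨h1, h2, h3⟩⟩
    · exact ⟨0, fun h => absurd h hj⟩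
  choose i1 hi1 using hm1
  choose i2 hi2 using hm2
  set R1 : ℕ → ℝ := fun j => r₁ j (i1 j) with hR1
  set R2 : ℕ → ℝ := fun j => r₂ j (i2 j) with hR2
  have hR1pos : ∀ j, 1 ≤ j → 0 < R1 j := fun j hj => hr₁ j _ (hi1 j hj).1
  have hR2pos : ∀ j, 1 ≤ j → 0 < R2 j := fun j hj => hr₂ j _ (hi2 j hj).1
  have hR21 : ∀ j, 1 ≤ j → R2 j ≤ R1 j := fun j hj =>
    ((hi2 j hj).2.2 _ (hi1 j hj).1 (hi1 j hj).2.1).trans (hmono j _ (hi1 j hj).1)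
  -- upper bound (G2)
  have G2 : ∀ j, 1 ≤ j → (Nat.fib j : ℝ) * (ν₁ (closedBall x (R1 j / 4))).toReal ≤ 2 * C₀ + 2 := by
    intro j hj
    have h1 := hcnt₁ j x
    rw [hx] at h1
    obtain ⟨h2, h3⟩ := window_upper (he₁ j) (hgap₁ j) hJ h1 (hR1pos j hj) (hi1 j hj).2.2
    have h4 := abs_le.1 (hcnt₁ j (x + R1 j / 4))
    have h5 := abs_le.1 (hcnt₁ j (x - R1 j / 4))
    rw [F_closedBall ν₁ (by linarith [hR1pos j hj])]
    have h6 : (cN (e₁ j) (Nat.fib j) (x + R1 j / 4) : ℝ) ≤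
        cN (e₁ j) (Nat.fib j) (x - R1 j / 4) + 2 := by exact_mod_cast (by omega)
    rw [mul_sub]
    linarith [h4.1, h5.2]
  -- `R1` tends to zero
  have hR1zero : ∀ δ : ℝ, 0 < δ → ∀ᶠ j in atTop, R1 j / 4 < δ := by
    intro δ hδ
    have hc : 0 < (ν₁ (closedBall x δ)).toReal := by
      rw [F_closedBall ν₁ hδ.le]
      have h1 : F ν₁ x ≤ F ν₁ (x + δ) := F_mono ν₁ (by linarith)
      have h2 := hxl (x - δ) (by linarith)
      rw [hx] at h1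
      linarith
    have h1 := (tendsto_fib.atTop_mul_const hc).eventually_gt_atTop (2 * (C₀ : ℝ) + 2)
    filter_upwards [h1, eventually_ge_atTop 1] with j hj hj1
    by_contra hcon
    push Not at hcon
    have h2 : (ν₁ (closedBall x δ)).toReal ≤ (ν₁ (closedBall x (R1 j / 4))).toReal :=
      ENNReal.toReal_mono (measure_ne_top _ _) (measure_mono (closedBall_subset_closedBall hcon))
    have h3 := mul_le_mul_of_nonneg_left h2 (Nat.cast_nonneg (α := ℝ) (Nat.fib j))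
    linarith [G2 j hj1]
  -- lower bound (G1)
  set A' : ℝ := (2 * C₀ + 1) * A ^ (2 * J + 1) with hA'
  have hA'pos : 0 < A' := by positivity
  have G1 : ∀ᶠ j : ℕ in atTop, t ∈ good j →
      1 ≤ (Nat.fib j : ℝ) * (ν₂ (closedBall y (A' * R2 j))).toReal := by
    have h1 := (tendsto_fib.atTop_mul_const ht0).eventually_ge_atTop ((C₀ : ℝ) + 1)
    have h2 := (tendsto_fib.atTop_mul_const (sub_pos.2 ht1)).eventually_ge_atTop
      (3 * (C₀ : ℝ) + 1)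
    filter_upwards [h1, h2, eventually_ge_atTop 1] with j hj hj' hj1 hgj
    have h3 := hcnt₂ j y
    rw [hy] at h3
    have h4 := window_lower (he₂ j) hA (hr₂ j) (hgood j t hgj) hJ h3 hj (by linarith)
      (hi2 j hj1).1 (hi2 j hj1).2.1
    change cN (e₂ j) (Nat.fib j) y + 2 * C₀ + 1 ≤ cN (e₂ j) (Nat.fib j) (y + A' * R2 j) at h4
    have hpos : 0 < A' * R2 j := mul_pos hA'pos (hR2pos j hj1)
    rw [F_closedBall ν₂ hpos.le]
    have h5 : F ν₂ (y - A' * R2 j) ≤ F ν₂ y := F_mono ν₂ (by linarith)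
    have h6 := abs_le.1 (hcnt₂ j (y + A' * R2 j))
    have h7 := abs_le.1 (hcnt₂ j y)
    have h8 : (cN (e₂ j) (Nat.fib j) y : ℝ) + 2 * C₀ + 1 ≤
        cN (e₂ j) (Nat.fib j) (y + A' * R2 j) := by exact_mod_cast h4
    have h9 : (Nat.fib j : ℝ) * (F ν₂ (y + A' * R2 j) - F ν₂ y) ≤
        (Nat.fib j : ℝ) * (F ν₂ (y + A' * R2 j) - F ν₂ (y - A' * R2 j)) :=
      mul_le_mul_of_nonneg_left (by linarith) (Nat.cast_nonneg _)
    rw [mul_sub] at h9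
    linarith [h6.2, h7.1]
  -- main argument
  intro δ hδ
  set s := D' / D with hs
  set K : ℝ := (4 * A') ^ D' * (2 * C₀ + 2) ^ s with hK
  have hgr := growth (K := K) hDD' hε
  have hBC' : ∀ᶠ j : ℕ in atTop, ∃ j' : ℕ, j + 1 ≤ j' ∧
      (j' : ℝ) ≤ (1 + ε) * ((j + 1 : ℕ) : ℝ) ∧ t ∈ good j' :=
    (tendsto_add_atTop_nat 1).eventually hBC
  obtain ⟨j₀, hj₀⟩ := eventually_atTop.1 (hgr.and (hBC'.and (G1.and (eventually_ge_atTop 1))))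
  obtain ⟨j₁, hj₁, -, hgood₁⟩ := (hj₀ j₀ le_rfl).2.1
  have hj₁' : j₀ ≤ j₁ := by omega
  have hj₁1 : 1 ≤ j₁ := (hj₀ j₁ hj₁').2.2.2
  obtain ⟨ρ, hρ0, hρδ, hρ⟩ := hB1 (min (δ / (4 * A')) (R1 j₁ / 4))
    (lt_min (by positivity) (by linarith [hR1pos j₁ hj₁1]))
  set S : Set ℕ := {j | j₁ ≤ j ∧ t ∈ good j ∧ ρ ≤ R1 j / 4} with hS
  have hSne : S.Nonempty := ⟨j₁, le_rfl, hgood₁, (hρδ.trans_le (min_le_right _ _)).le⟩
  have hSbdd : BddAbove S := by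
    obtain ⟨M, hM⟩ := eventually_atTop.1 (hR1zero ρ hρ0)
    refine ⟨M, fun j hj => ?_⟩
    by_contra hc
    push Not at hc
    have h1 := hM j hc.le
    have h2 := hj.2.2
    linarith
  set j := sSup S with hjdef
  have hjS : j ∈ S := Nat.sSup_mem hSne hSbdd
  have hj0 : j₀ ≤ j := hj₁'.trans hjS.1
  have hj1 : 1 ≤ j := hj₁1.trans hjS.1
  obtain ⟨j', hjj', hj'ε, hgood'⟩ := (hj₀ j hj0).2.1
  have hj'0 : j₀ ≤ j' := by omega
  have hj'1 : 1 ≤ j' := by omega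
  have hR1' : R1 j' / 4 < ρ := by
    by_contra hc
    push Not at hc
    have h1 : j' ∈ S := ⟨by have := hjS.1; omega, hgood', hc⟩
    have h2 := le_csSup hSbdd h1
    omega
  have hgr' := (hj₀ j hj0).1 j' hj'ε
  have hG1' := (hj₀ j' hj'0).2.2.1 hgood'
  have hG2' := G2 j hj1
  have hfj : (0 : ℝ) < Nat.fib j := by exact_mod_cast hfpos j hj1
  have hfj' : (0 : ℝ) < Nat.fib j' := by exact_mod_cast hfpos j' hj'1
  have hρ1 : ρ ^ D ≤ (2 * C₀ + 2) / Nat.fib j := by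
    rw [le_div_iff₀ hfj, mul_comm]
    refine le_trans (mul_le_mul_of_nonneg_left (hρ.trans ?_) hfj.le) hG2'
    exact ENNReal.toReal_mono (measure_ne_top _ _)
      (measure_mono (closedBall_subset_closedBall hjS.2.2))
  have hs0 : 0 < s := by linarith
  have hDs : D * s = D' := by rw [hs]; field_simp
  refine ⟨4 * A' * ρ, by positivity, ?_, ?_⟩
  · have h1 := hρδ.trans_le (min_le_left _ _)
    rw [lt_div_iff₀ (by positivity)] at h1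
    linarith
  · calc (4 * A' * ρ) ^ D' = (4 * A') ^ D' * (ρ ^ D) ^ s := by
          rw [Real.mul_rpow (by positivity) hρ0.le, ← Real.rpow_mul hρ0.le, hDs]
      _ ≤ (4 * A') ^ D' * ((2 * C₀ + 2) / Nat.fib j) ^ s := by
          gcongr
      _ = K / (Nat.fib j : ℝ) ^ s := by
          rw [Real.div_rpow (by positivity) hfj.le, hK]
          ring
      _ ≤ 1 / Nat.fib j' := by
          rw [div_le_div_iff₀ (by positivity) hfj']
          linarith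
      _ ≤ (ν₂ (closedBall y (A' * R2 j'))).toReal := by
          rw [div_le_iff₀ hfj']
          linarith
      _ ≤ (ν₂ (closedBall y (4 * A' * ρ))).toReal := by
          refine ENNReal.toReal_mono (measure_ne_top _ _)
            (measure_mono (closedBall_subset_closedBall ?_))
          have h1 := hR21 j' hj'1
          calc A' * R2 j' ≤ A' * (4 * ρ) := by
                apply mul_le_mul_of_nonneg_left _ hA'pos.le
                linarith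
            _ = 4 * A' * ρ := by ring

end Main

end DimAux

theorem dim_comparison (ν₁ ν₂ : Measure ℝ) [IsProbabilityMeasure ν₁] [IsProbabilityMeasure ν₂]
    (e₁ e₂ r₁ r₂ : ℕ → ℕ → ℝ) (C₀ J : ℕ) (A : ℝ) (hJ : 4 * C₀ + 10 ≤ J) (hA : 1 ≤ A)
    (he₁ : ∀ j i i', i < i' → i' < Nat.fib j → e₁ j i < e₁ j i')
    (he₂ : ∀ j i i', i < i' → i' < Nat.fib j → e₂ j i < e₂ j i')
    (hcnt₁ : ∀ j E, |(((Finset.range (Nat.fib j)).filter (fun i => e₁ j i ≤ E)).card : ℝ)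
      - (Nat.fib j : ℝ) * (ν₁ (Iic E)).toReal| ≤ C₀)
    (hcnt₂ : ∀ j E, |(((Finset.range (Nat.fib j)).filter (fun i => e₂ j i ≤ E)).card : ℝ)
      - (Nat.fib j : ℝ) * (ν₂ (Iic E)).toReal| ≤ C₀)
    (hr₁ : ∀ j i, i < Nat.fib j → 0 < r₁ j i)
    (hr₂ : ∀ j i, i < Nat.fib j → 0 < r₂ j i)
    (hgap₁ : ∀ j i, i + 1 < Nat.fib j →
      r₁ j i / 2 ≤ e₁ j (i+1) - e₁ j i ∧ r₁ j (i+1) / 2 ≤ e₁ j (i+1) - e₁ j i)
    (hmono : ∀ j i, i < Nat.fib j → r₂ j i ≤ r₁ j i)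
    (good : ℕ → Set ℝ)
    (hgood : ∀ j, ∀ t ∈ good j, ∀ i, i + 1 < Nat.fib j → |(i : ℝ) - Nat.fib j * t| ≤ J →
      e₂ j (i+1) - e₂ j i ≤ A * r₂ j i ∧ r₂ j i ≤ A * r₂ j (i+1) ∧ r₂ j (i+1) ≤ A * r₂ j i)
    (hBC : ∀ ε : ℝ, 0 < ε → ∀ᵐ t ∂(volume.restrict (Ioo (0:ℝ) 1)), ∀ᶠ j : ℕ in atTop,
      ∃ j' : ℕ, j ≤ j' ∧ (j' : ℝ) ≤ (1 + ε) * j ∧ t ∈ good j') :
    dimMeasure ν₂ ≤ dimMeasure ν₁ := by
  have : NullSingletonClass ν₁ := DimAux.noAtoms he₁ hcnt₁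
  have : NullSingletonClass ν₂ := DimAux.noAtoms he₂ hcnt₂
  refine le_of_forall_gt_imp_ge_of_dense fun c hc => ?_
  obtain ⟨D, hD1, hD2⟩ := ENNReal.lt_iff_exists_nnreal_btwn.1 hc
  obtain ⟨D', hD1', hD2'⟩ := ENNReal.lt_iff_exists_nnreal_btwn.1 hD2
  refine le_trans ?_ hD2'.le
  have hD0 : (0 : ℝ) < D := by
    have : (0 : ℝ≥0∞) < D := lt_of_le_of_lt zero_le hD1
    exact_mod_cast this
  have hDD' : (D : ℝ) < D' := by exact_mod_cast hD1'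
  have hs1 : 1 < (D' : ℝ) / D := (one_lt_div hD0).2 hDD'
  set ε : ℝ := ((D' : ℝ) / D - 1) / 2 with hε
  have hε0 : 0 < ε := by rw [hε]; linarith
  have hε1 : 1 + ε < (D' : ℝ) / D := by rw [hε]; linarith
  apply DimAux.dimMeasure_le_of_ae
  have h1 := DimAux.ae_Q ν₁ (DimAux.lower_ae ν₁ hD1)
  have h2 := DimAux.ae_F ν₂ (h1.and ((hBC ε hε0).and (ae_restrict_mem measurableSet_Ioo)))
  filter_upwards [h2] with y hy
  obtain ⟨hy1, hy2, hy3⟩ := hy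
  exact DimAux.pointwise hJ hA he₁ he₂ hcnt₁ hcnt₂ hr₁ hr₂ hgap₁ hmono good hgood hy3.1 hy3.2
    (DimAux.F_Q ν₁ hy3.1 hy3.2) (fun E hE => DimAux.lt_of_lt_Q ν₁ hy3.1 hE) rfl hD0 hε0 hε1 hy1 hy2

end Pool.Agent.H98.Fib
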