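import Mathlib

/-! Distribution functions, quantiles, absence of atoms. -/

open MeasureTheory Set Filter ProbabilityTheory
open scoped ENNReal Topology

set_option linter.unusedSectionVars false

namespace Pool.Agent.H98.Fib

namespace DimAux

/-- counting function -/
noncomputable def cN (e : ℕ → ℝ) (q : ℕ) (E : ℝ) : ℕ :=
  ((Finset.range q).filter (fun i => e i ≤ E)).card

theorem cN_mono (e : ℕ → ℝ) (q : ℕ) : Monotone (cN e q) := by
  intro a b hab
  apply Finset.card_le_card
  intro i hi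
  rw [Finset.mem_filter] at hi ⊢
  exact ⟨hi.1, hi.2.trans hab⟩

theorem cN_le (e : ℕ → ℝ) (q : ℕ) (E : ℝ) : cN e q E ≤ q := by
  have := Finset.card_filter_le (Finset.range q) (fun i => e i ≤ E)
  rwa [Finset.card_range] at this

/-- If `e` is strictly increasing on `range q` then the counted indices are an initial segment. -/
theorem le_iff_lt_cN {e : ℕ → ℝ} {q : ℕ} (he : ∀ i i', i < i' → i' < q → e i < e i') {i : ℕ}
    (hi : i < q) (E : ℝ) : e i ≤ E ↔ i < cN e q E := by
  have hmono : ∀ i i', i ≤ i' → i' < q → e i ≤ e i' := by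
    intro i i' h h'
    rcases h.eq_or_lt with rfl | h
    · exact le_rfl
    · exact (he i i' h h').le
  constructor
  · intro h
    have h1 : Finset.range (i + 1) ⊆ (Finset.range q).filter (fun i => e i ≤ E) := by
      intro k hk
      rw [Finset.mem_range] at hk
      rw [Finset.mem_filter, Finset.mem_range]
      exact ⟨by omega, (hmono k i (by omega) hi).trans h⟩
    have h2 := Finset.card_le_card h1
    rw [Finset.card_range] at h2
    exact h2
  · intro h
    by_contra hc
    have h1 : (Finset.range q).filter (fun i => e i ≤ E) ⊆ Finset.range i := by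
      intro k hk
      rw [Finset.mem_filter, Finset.mem_range] at hk
      rw [Finset.mem_range]
      by_contra hki
      exact hc ((hmono i k (by omega) hk.1).trans hk.2)
    have h2 := Finset.card_le_card h1
    rw [Finset.card_range] at h2
    have : cN e q E ≤ i := h2
    omega

theorem tendsto_fib : Tendsto (fun j => (Nat.fib j : ℝ)) atTop atTop := by
  have h : Tendsto Nat.fib atTop atTop := by
    refine tendsto_atTop_mono' atTop ?_ (tendsto_id)
    filter_upwards [eventually_ge_atTop 5] with j hj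
    exact Nat.le_fib_self hj
  exact tendsto_natCast_atTop_atTop.comp h

section NoAtoms

variable {ν : Measure ℝ} [IsProbabilityMeasure ν] {e : ℕ → ℕ → ℝ} {C₀ : ℕ}

theorem noAtoms (he : ∀ j i i', i < i' → i' < Nat.fib j → e j i < e j i')
    (hcnt : ∀ j E, |(((Finset.range (Nat.fib j)).filter (fun i => e j i ≤ E)).card : ℝ)
      - (Nat.fib j : ℝ) * (ν (Iic E)).toReal| ≤ C₀) : NullSingletonClass ν := by
  refine ⟨fun E => ?_⟩
  have key : ∀ j, (Nat.fib j : ℝ) * (ν {E}).toReal ≤ 1 + 2 * C₀ := by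
    intro j
    set q := Nat.fib j with hq
    have he' : ∀ i i', i < i' → i' < q → e j i < e j i' := he j
    -- a point just below `E`
    have hE' : ∃ E' < E, ∀ i < q, e j i < E → e j i ≤ E' := by
      have hfin : (Finset.image (e j) ((Finset.range q).filter (fun i => e j i < E)) ∪
        {E - 1}).Nonempty := ⟨E - 1, by simp⟩
      refine ⟨Finset.max' _ hfin, ?_, ?_⟩
      · rw [Finset.max'_lt_iff]
        intro x hx
        rw [Finset.mem_union, Finset.mem_image, Finset.mem_singleton] at hx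
        rcases hx with ⟨i, hi, rfl⟩ | rfl
        · exact (Finset.mem_filter.1 hi).2
        · linarith
      · intro i hi hlt
        apply Finset.le_max'
        rw [Finset.mem_union]
        left
        exact Finset.mem_image_of_mem _ (Finset.mem_filter.2 ⟨Finset.mem_range.2 hi, hlt⟩)
    obtain ⟨E', hE'E, hE'⟩ := hE'
    have h1 : cN (e j) q E ≤ cN (e j) q E' + 1 := by
      by_contra hc
      push Not at hc
      set k := cN (e j) q E' with hk
      have hkq : k + 1 < q := by
        have := cN_le (e j) q E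
        omega
      have a1 : e j k ≤ E := (le_iff_lt_cN he' (by omega) E).2 (by omega)
      have a2 : e j (k + 1) ≤ E := (le_iff_lt_cN he' hkq E).2 (by omega)
      have a3 : e j k < e j (k + 1) := he j k (k + 1) (by omega) hkq
      have a4 : e j k ≤ E' := hE' k (by omega) (lt_of_lt_of_le a3 a2)
      have a5 := (le_iff_lt_cN he' (by omega) E').1 a4
      omega
    have h2 := abs_le.1 (hcnt j E)
    have h3 := abs_le.1 (hcnt j E')
    have h4 : ν (Iic E') + ν {E} ≤ ν (Iic E) := by
      rw [← measure_union _ (measurableSet_singleton E)]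
      · apply measure_mono
        rintro x (hx | hx)
        · exact le_trans hx hE'E.le
        · exact le_of_eq hx
      · rw [Set.disjoint_singleton_right]
        exact fun h => absurd h (not_le.2 hE'E)
    have h5 : (ν (Iic E')).toReal + (ν {E}).toReal ≤ (ν (Iic E)).toReal := by
      rw [← ENNReal.toReal_add (measure_ne_top _ _) (measure_ne_top _ _)]
      exact ENNReal.toReal_mono (measure_ne_top _ _) h4
    have h6 : ((cN (e j) q E : ℕ) : ℝ) ≤ cN (e j) q E' + 1 := by exact_mod_cast h1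
    have h7 : (0 : ℝ) ≤ q := Nat.cast_nonneg q
    change -(C₀ : ℝ) ≤ (cN (e j) q E : ℝ) - _ ∧ (cN (e j) q E : ℝ) - _ ≤ (C₀ : ℝ) at h2
    change -(C₀ : ℝ) ≤ (cN (e j) q E' : ℝ) - _ ∧ (cN (e j) q E' : ℝ) - _ ≤ (C₀ : ℝ) at h3
    have h8 := mul_le_mul_of_nonneg_left h5 h7
    rw [mul_add] at h8
    rw [← hq] at h2 h3
    linarith [h2.1, h3.2]
  by_contra hne
  have hpos : 0 < (ν {E}).toReal := ENNReal.toReal_pos hne (measure_ne_top _ _)
  have h1 := tendsto_fib.atTop_mul_const hpos
  obtain ⟨j, hj⟩ := (h1.eventually_gt_atTop (1 + 2 * (C₀ : ℝ))).exists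
  linarith [key j]

end NoAtoms

section Quantile

variable (ν : Measure ℝ) [IsProbabilityMeasure ν]

/-- distribution function -/
noncomputable def F (E : ℝ) : ℝ := (ν (Iic E)).toReal

theorem F_mono : Monotone (F ν) := by
  intro a b hab
  exact ENNReal.toReal_mono (measure_ne_top _ _) (measure_mono (Iic_subset_Iic.2 hab))

theorem F_eq_cdf (E : ℝ) : F ν E = cdf ν E := by
  rw [cdf_eq_real]
  rfl

theorem F_continuous [NullSingletonClass ν] : Continuous (F ν) := by
  have h : F ν = cdf ν := funext (F_eq_cdf ν)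
  rw [h, continuous_iff_continuousAt]
  intro a
  rw [continuousAt_iff_continuous_left_right]
  refine ⟨?_, (cdf ν).right_continuous a⟩
  have h1 : (cdf ν).measure {a} = 0 := by rw [measure_cdf]; exact measure_singleton a
  rw [StieltjesFunction.measure_singleton, ENNReal.ofReal_eq_zero] at h1
  have h2 : Function.leftLim (cdf ν) a = cdf ν a :=
    le_antisymm ((cdf ν).mono.leftLim_le le_rfl) (by linarith)
  have h3 := (cdf ν).mono.tendsto_leftLim a
  rw [h2] at h3
  exact continuousWithinAt_Iio_iff_Iic.1 h3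

theorem F_Icc [NullSingletonClass ν] {a b : ℝ} (hab : a ≤ b) : (ν (Icc a b)).toReal = F ν b - F ν a := by
  have h1 : ν (Icc a b) = ν (Ioc a b) := (measure_congr Ioc_ae_eq_Icc).symm
  have h2 : ν (Ioc a b) = ν (Iic b) - ν (Iic a) := by
    have h0 : Ioc a b = Iic b \ Iic a := by
      ext x
      rw [Set.mem_sdiff, mem_Ioc, mem_Iic, mem_Iic, not_le]
      exact and_comm
    rw [h0, measure_sdiff (Iic_subset_Iic.2 hab) measurableSet_Iic.nullMeasurableSet
      (measure_ne_top _ _)]
  rw [h1, h2, ENNReal.toReal_sub_of_le (measure_mono (Iic_subset_Iic.2 hab)) (measure_ne_top _ _)]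
  rfl

theorem F_closedBall [NullSingletonClass ν] {x ρ : ℝ} (hρ : 0 ≤ ρ) :
    (ν (Metric.closedBall x ρ)).toReal = F ν (x + ρ) - F ν (x - ρ) := by
  rw [Real.closedBall_eq_Icc, F_Icc ν (by linarith)]

/-- quantile -/
noncomputable def Q (t : ℝ) : ℝ := sInf {E | t ≤ F ν E}

theorem set_nonempty {t : ℝ} (ht : t < 1) : {E | t ≤ F ν E}.Nonempty := by
  obtain ⟨E, hE⟩ := ((tendsto_order.1 (tendsto_cdf_atTop ν)).1 t ht).exists
  refine ⟨E, ?_⟩
  change t ≤ F ν E
  rw [F_eq_cdf]
  exact hE.le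

theorem set_bddBelow {t : ℝ} (ht : 0 < t) : BddBelow {E | t ≤ F ν E} := by
  obtain ⟨E, hE⟩ := ((tendsto_order.1 (tendsto_cdf_atBot ν)).2 t ht).exists
  refine ⟨E, fun x hx => ?_⟩
  by_contra hc
  push Not at hc
  have h1 : F ν x ≤ F ν E := F_mono ν hc.le
  rw [F_eq_cdf ν E] at h1
  have h2 : t ≤ F ν x := hx
  linarith

theorem F_Q [NullSingletonClass ν] {t : ℝ} (ht0 : 0 < t) (ht1 : t < 1) : F ν (Q ν t) = t := by
  have hcl : IsClosed {E | t ≤ F ν E} := isClosed_le continuous_const (F_continuous ν)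
  have hmem : Q ν t ∈ {E | t ≤ F ν E} :=
    hcl.csInf_mem (set_nonempty ν ht1) (set_bddBelow ν ht0)
  refine le_antisymm ?_ hmem
  -- left limits
  have h1 : ∀ E < Q ν t, F ν E ≤ t := by
    intro E hE
    by_contra hc
    push Not at hc
    exact absurd (csInf_le (set_bddBelow ν ht0) (show E ∈ {E | t ≤ F ν E} from hc.le)) (not_le.2 hE)
  have h2 : Tendsto (F ν) (𝓝[<] (Q ν t)) (𝓝 (F ν (Q ν t))) :=
    ((F_continuous ν).tendsto _).mono_left nhdsWithin_le_nhds
  exact le_of_tendsto h2 (eventually_nhdsWithin_of_forall h1)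

theorem lt_of_lt_Q {t : ℝ} (ht0 : 0 < t) {E : ℝ} (hE : E < Q ν t) :
    F ν E < t := by
  by_contra hc
  push Not at hc
  exact absurd (csInf_le (set_bddBelow ν ht0) (show E ∈ {E | t ≤ F ν E} from hc)) (not_le.2 hE)

theorem Q_le_iff [NullSingletonClass ν] {t : ℝ} (ht0 : 0 < t) (ht1 : t < 1) (E : ℝ) :
    Q ν t ≤ E ↔ t ≤ F ν E := by
  constructor
  · intro h
    calc t = F ν (Q ν t) := (F_Q ν ht0 ht1).symm
      _ ≤ F ν E := F_mono ν h
  · intro h
    exact csInf_le (set_bddBelow ν ht0) h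

theorem Q_monotoneOn : MonotoneOn (Q ν) (Ioo 0 1) := by
  intro s hs t ht hst
  refine csInf_le_csInf (set_bddBelow ν hs.1) (set_nonempty ν ht.2) ?_
  intro E hE
  exact le_trans hst hE

theorem Q_aemeasurable : AEMeasurable (Q ν) (volume.restrict (Ioo (0 : ℝ) 1)) :=
  aemeasurable_restrict_of_monotoneOn measurableSet_Ioo (Q_monotoneOn ν)

theorem F_nonneg (E : ℝ) : 0 ≤ F ν E := ENNReal.toReal_nonneg

theorem F_le_one (E : ℝ) : F ν E ≤ 1 := by
  rw [F_eq_cdf]
  exact cdf_le_one ν E

theorem map_Q [NullSingletonClass ν] : (volume.restrict (Ioo (0 : ℝ) 1)).map (Q ν) = ν := by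
  have : IsProbabilityMeasure (volume.restrict (Ioo (0 : ℝ) 1)) := ⟨by simp⟩
  have : IsProbabilityMeasure ((volume.restrict (Ioo (0 : ℝ) 1)).map (Q ν)) :=
    Measure.isProbabilityMeasure_map (Q_aemeasurable ν)
  refine Measure.ext_of_Iic _ _ fun E => ?_
  rw [Measure.map_apply_of_aemeasurable (Q_aemeasurable ν) measurableSet_Iic,
    Measure.restrict_apply' measurableSet_Ioo]
  have h1 : Q ν ⁻¹' Iic E ∩ Ioo 0 1 = Ioc 0 (F ν E) ∩ Ioo 0 1 := by
    ext t
    simp only [mem_inter_iff, mem_preimage, mem_Iic, mem_Ioc, mem_Ioo]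
    constructor
    · rintro ⟨h, h0, h1⟩
      exact ⟨⟨h0, (Q_le_iff ν h0 h1 E).1 h⟩, h0, h1⟩
    · rintro ⟨⟨_, h⟩, h0, h1⟩
      exact ⟨(Q_le_iff ν h0 h1 E).2 h, h0, h1⟩
  rw [h1]
  have h2 : volume (Ioc 0 (F ν E) ∩ Ioo 0 1) = volume (Ioc 0 (F ν E) ∩ Icc 0 1) :=
    measure_congr (ae_eq_set_inter (ae_eq_refl _) Ioo_ae_eq_Icc)
  rw [h2]
  have h3 : Ioc 0 (F ν E) ∩ Icc 0 1 = Ioc 0 (F ν E) := by
    ext t
    simp only [mem_inter_iff, mem_Ioc, mem_Icc]
    constructor
    · exact fun h => h.1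
    · exact fun h => ⟨h, h.1.le, h.2.trans (F_le_one ν E)⟩
  rw [h3, Real.volume_Ioc, sub_zero]
  exact ENNReal.ofReal_toReal (measure_ne_top _ _)

theorem map_F [NullSingletonClass ν] : ν.map (F ν) = volume.restrict (Ioo (0 : ℝ) 1) := by
  have hF : AEMeasurable (F ν) ((volume.restrict (Ioo (0 : ℝ) 1)).map (Q ν)) :=
    (F_mono ν).measurable.aemeasurable
  have h1 : ν.map (F ν) = ((volume.restrict (Ioo (0 : ℝ) 1)).map (Q ν)).map (F ν) :=
    congrArg (fun m : Measure ℝ => m.map (F ν)) (map_Q ν).symm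
  rw [h1, AEMeasurable.map_map_of_aemeasurable hF (Q_aemeasurable ν)]
  have h2 : (F ν ∘ Q ν) =ᵐ[volume.restrict (Ioo (0 : ℝ) 1)] id := by
    filter_upwards [ae_restrict_mem measurableSet_Ioo] with t ht
    exact F_Q ν ht.1 ht.2
  rw [Measure.map_congr h2, Measure.map_id]

/-- transfer of almost everywhere statements -/
theorem ae_F [NullSingletonClass ν] {p : ℝ → Prop} (h : ∀ᵐ t ∂(volume.restrict (Ioo (0 : ℝ) 1)), p t) :
    ∀ᵐ y ∂ν, p (F ν y) := by
  rw [← map_F ν] at h
  exact ae_of_ae_map (F_mono ν).measurable.aemeasurable h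

theorem ae_Q [NullSingletonClass ν] {p : ℝ → Prop} (h : ∀ᵐ x ∂ν, p x) :
    ∀ᵐ t ∂(volume.restrict (Ioo (0 : ℝ) 1)), p (Q ν t) := by
  rw [← map_Q ν] at h
  exact ae_of_ae_map (Q_aemeasurable ν) h

end Quantile

end DimAux

end Pool.Agent.H98.Fib
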