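import Pool.Agent.H98.Fib.DimA

/-! Density theorems for the Hausdorff dimension of a measure. -/

open MeasureTheory Set Filter Metric
open scoped ENNReal NNReal Topology

set_option linter.unusedSectionVars false

namespace Pool.Agent.H98.Fib

/-- Hausdorff dimension of a measure on the real line: the infimum of the Hausdorff dimensions of
the Borel sets of full measure (for a probability measure). -/
noncomputable def dimMeasure (ν : Measure ℝ) : ℝ≥0∞ :=
  ⨅ (s : Set ℝ) (_ : MeasurableSet s) (_ : ν s = 1), dimH s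

namespace DimAux

variable (ν : Measure ℝ) [IsProbabilityMeasure ν]

theorem lower_ae [NullSingletonClass ν] {D : ℝ≥0} (hD : dimMeasure ν < D) :
    ∀ᵐ x ∂ν, ∀ δ : ℝ, 0 < δ → ∃ ρ : ℝ, 0 < ρ ∧ ρ < δ ∧
      ρ ^ (D : ℝ) ≤ (ν (closedBall x ρ)).toReal := by
  obtain ⟨s, hs⟩ := iInf_lt_iff.1 hD
  obtain ⟨hsm, hs⟩ := iInf_lt_iff.1 hs
  obtain ⟨hs1, hsD⟩ := iInf_lt_iff.1 hs
  have hH : μH[(D : ℝ)] s = 0 := hausdorffMeasure_of_dimH_lt hsD
  let Bad : ℕ → Set ℝ := fun n => {x ∈ s | ∀ ρ : ℝ, 0 < ρ → ρ < 1 / ((n : ℝ) + 1) →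
    (ν (closedBall x ρ)).toReal < ρ ^ (D : ℝ)}
  have hBad : ∀ n, ν (Bad n) = 0 := by
    intro n
    have h1 : μH[(D : ℝ)] (Bad n) = 0 := measure_mono_null (fun x hx => hx.1) hH
    have hn : (0 : ℝ) < 1 / ((n : ℝ) + 1) := by positivity
    rw [Measure.hausdorffMeasure_apply] at h1
    set r : ℝ≥0∞ := ENNReal.ofReal (1 / ((n : ℝ) + 1) / 2) with hr
    have hr0 : 0 < r := ENNReal.ofReal_pos.2 (by positivity)
    have h2 : (⨅ (t : ℕ → Set ℝ) (_ : Bad n ⊆ ⋃ n, t n) (_ : ∀ n, ediam (t n) ≤ r),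
        ∑' n, ⨆ _ : (t n).Nonempty, ediam (t n) ^ (D : ℝ)) ≤ 0 := by
      rw [← h1]
      exact le_iSup₂ (f := fun (r : ℝ≥0∞) (_ : 0 < r) =>
        ⨅ (t : ℕ → Set ℝ) (_ : Bad n ⊆ ⋃ n, t n) (_ : ∀ n, ediam (t n) ≤ r),
          ∑' n, ⨆ _ : (t n).Nonempty, ediam (t n) ^ (D : ℝ)) r hr0
    refine le_antisymm (le_of_forall_gt fun η hη => ?_) zero_le
    have h3 := lt_of_le_of_lt h2 hη
    obtain ⟨t, h3⟩ := iInf_lt_iff.1 h3
    obtain ⟨ht, h3⟩ := iInf_lt_iff.1 h3
    obtain ⟨htr, h3⟩ := iInf_lt_iff.1 h3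
    refine lt_of_le_of_lt ?_ h3
    have h4 : Bad n ⊆ ⋃ m, (t m ∩ Bad n) := by
      intro x hx
      obtain ⟨m, hm⟩ := mem_iUnion.1 (ht hx)
      exact mem_iUnion.2 ⟨m, hm, hx⟩
    refine (measure_mono h4).trans ((measure_iUnion_le _).trans (ENNReal.tsum_le_tsum fun m => ?_))
    rcases (t m ∩ Bad n).eq_empty_or_nonempty with h | ⟨x, hxt, hx⟩
    · rw [h, measure_empty]
      exact zero_le
    have hne : (t m).Nonempty := ⟨x, hxt⟩
    rw [ciSup_pos hne]
    have hfin : ediam (t m) ≠ ∞ := ne_top_of_le_ne_top ENNReal.ofReal_ne_top (htr m)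
    have hsub : t m ⊆ closedBall x (ediam (t m)).toReal := by
      intro y hy
      rw [mem_closedBall, ← ENNReal.ofReal_le_ofReal_iff ENNReal.toReal_nonneg,
        ENNReal.ofReal_toReal hfin, ← edist_dist]
      exact edist_le_ediam_of_mem hy hxt
    rcases eq_or_ne (ediam (t m)) 0 with h0 | h0
    · have h5 : t m ∩ Bad n ⊆ {x} := by
        intro y hy
        have h6 := hsub hy.1
        rw [h0, ENNReal.toReal_zero, closedBall_zero] at h6
        exact h6
      rw [measure_mono_null h5 (measure_singleton x)]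
      exact zero_le
    · have hpos : 0 < (ediam (t m)).toReal := ENNReal.toReal_pos h0 hfin
      have hlt : (ediam (t m)).toReal < 1 / ((n : ℝ) + 1) := by
        have h6 := ENNReal.toReal_mono ENNReal.ofReal_ne_top (htr m)
        rw [ENNReal.toReal_ofReal (by positivity)] at h6
        linarith
      have h7 := hx.2 _ hpos hlt
      calc ν (t m ∩ Bad n) ≤ ν (closedBall x (ediam (t m)).toReal) :=
            measure_mono fun y hy => hsub hy.1
        _ = ENNReal.ofReal (ν (closedBall x (ediam (t m)).toReal)).toReal :=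
            (ENNReal.ofReal_toReal (measure_ne_top _ _)).symm
        _ ≤ ENNReal.ofReal ((ediam (t m)).toReal ^ (D : ℝ)) := ENNReal.ofReal_le_ofReal h7.le
        _ = ediam (t m) ^ (D : ℝ) := by
            rw [← ENNReal.ofReal_rpow_of_pos hpos, ENNReal.ofReal_toReal hfin]
  have hs0 : ν sᶜ = 0 := (prob_compl_eq_zero_iff hsm).2 hs1
  have hall : ∀ᵐ x ∂ν, x ∈ s ∧ ∀ n, x ∉ Bad n := by
    refine (show ∀ᵐ x ∂ν, x ∈ s from hs0).and (ae_all_iff.2 fun n => ?_)
    exact measure_eq_zero_iff_ae_notMem.1 (hBad n)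
  filter_upwards [hall] with x hx δ hδ
  obtain ⟨n, hn⟩ := exists_nat_one_div_lt hδ
  have h1 := hx.2 n
  by_contra hc
  push Not at hc
  exact h1 ⟨hx.1, fun ρ h0 h1 => hc ρ h0 (h1.trans hn)⟩

theorem dimMeasure_le_of_ae {D : ℝ≥0}
    (h : ∀ᵐ y ∂ν, ∀ δ : ℝ, 0 < δ → ∃ ρ : ℝ, 0 < ρ ∧ ρ < δ ∧
      ρ ^ (D : ℝ) ≤ (ν (closedBall y ρ)).toReal) : dimMeasure ν ≤ D := by
  set Y : Set ℝ := {y | ∀ δ : ℝ, 0 < δ → ∃ ρ : ℝ, 0 < ρ ∧ ρ < δ ∧
      ρ ^ (D : ℝ) ≤ (ν (closedBall y ρ)).toReal} with hY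
  have hY0 : ν Yᶜ = 0 := h
  have hS : ν (toMeasurable ν Yᶜ)ᶜ = 1 := by
    rw [prob_compl_eq_one_iff (measurableSet_toMeasurable _ _), measure_toMeasurable, hY0]
  have hSY : (toMeasurable ν Yᶜ)ᶜ ⊆ Y := compl_subset_comm.1 (subset_toMeasurable _ _)
  have hle : dimMeasure ν ≤ dimH (toMeasurable ν Yᶜ)ᶜ :=
    iInf_le_of_le _ (iInf_le_of_le (measurableSet_toMeasurable _ _).compl (iInf_le _ hS))
  refine hle.trans ?_
  refine dimH_le_of_hausdorffMeasure_ne_top (ne_top_of_le_ne_top ?_ (measure_mono hSY))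
  -- the Hausdorff measure of `Y` is finite
  have key : μH[(D : ℝ)] Y ≤ ENNReal.ofReal (10 ^ (D : ℝ)) := by
    have h1 : ∀ (n : ℕ) (y : ℝ), ∃ ρ : ℝ, 0 < ρ ∧ ρ < 1 / ((n : ℝ) + 1) ∧ (y ∈ Y →
        ρ ^ (D : ℝ) ≤ (ν (closedBall y ρ)).toReal) := by
      intro n y
      have hn : (0 : ℝ) < 1 / ((n : ℝ) + 1) := by positivity
      by_cases hy : y ∈ Y
      · obtain ⟨ρ, h0, h1, h2⟩ := hy _ hn
        exact ⟨ρ, h0, h1, fun _ => h2⟩
      · exact ⟨1 / ((n : ℝ) + 1) / 2, by positivity, by linarith, fun h => absurd h hy⟩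
    choose ρ hρ0 hρ1 hρ using h1
    have h2 : ∀ n : ℕ, ∃ u ⊆ Y, (u.PairwiseDisjoint fun a => closedBall a (ρ n a)) ∧
        ∀ a ∈ Y, ∃ b ∈ u, closedBall a (ρ n a) ⊆ closedBall b (5 * ρ n b) := fun n =>
      Vitali.exists_disjoint_subfamily_covering_enlargement_closedBall Y (fun a => a) (ρ n)
        (1 / ((n : ℝ) + 1)) (fun a _ => (hρ1 n a).le) 5 (by norm_num)
    choose u huY hdisj hcov using h2
    have hcount : ∀ n, (u n).Countable := fun n =>
      (hdisj n).countable_of_nonempty_interior fun a _ => by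
        refine ⟨a, ball_subset_interior_closedBall (mem_ball_self (hρ0 n a))⟩
    have : ∀ n, Countable (u n) := fun n => (hcount n).to_subtype
    have hed : ∀ n (i : ℝ), ediam (closedBall i (5 * ρ n i)) = ENNReal.ofReal (10 * ρ n i) := by
      intro n i
      rw [Real.closedBall_eq_Icc, Real.ediam_Icc]
      congr 1
      ring
    have h3 := Measure.hausdorffMeasure_le_liminf_tsum (D : ℝ) Y (l := atTop)
      (r := fun n : ℕ => ENNReal.ofReal (10 * (1 / ((n : ℝ) + 1))))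
      (by
        have h4 : Tendsto (fun n : ℕ => 10 * (1 / ((n : ℝ) + 1))) atTop (𝓝 (10 * 0)) :=
          tendsto_one_div_add_atTop_nhds_zero_nat.const_mul 10
        rw [mul_zero] at h4
        have h5 := ENNReal.tendsto_ofReal h4
        rwa [ENNReal.ofReal_zero] at h5)
      (fun n (i : u n) => closedBall (i : ℝ) (5 * ρ n i))
      (Eventually.of_forall fun n i => by
        rw [hed n i]
        exact ENNReal.ofReal_le_ofReal (by linarith [hρ1 n i]))
      (Eventually.of_forall fun n y hy => by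
        obtain ⟨b, hb, hsub⟩ := hcov n y hy
        exact mem_iUnion.2 ⟨⟨b, hb⟩, hsub (mem_closedBall_self (hρ0 n y).le)⟩)
    refine h3.trans ?_
    have h6 : ∀ n : ℕ, ∑' i : u n, ediam (closedBall (i : ℝ) (5 * ρ n i)) ^ (D : ℝ) ≤
        ENNReal.ofReal (10 ^ (D : ℝ)) := by
      intro n
      have h7 : ∀ i : u n, ediam (closedBall (i : ℝ) (5 * ρ n i)) ^ (D : ℝ) ≤
          ENNReal.ofReal (10 ^ (D : ℝ)) * ν (closedBall (i : ℝ) (ρ n i)) := by
        intro i
        rw [hed n i, ENNReal.ofReal_rpow_of_pos (by linarith [hρ0 n i]),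
          Real.mul_rpow (by norm_num) (hρ0 n i).le, ENNReal.ofReal_mul (by positivity)]
        refine mul_le_mul_right ?_ _
        rw [← ENNReal.ofReal_toReal (measure_ne_top ν (closedBall (i : ℝ) (ρ n i)))]
        exact ENNReal.ofReal_le_ofReal (hρ n i (huY n i.2))
      calc ∑' i : u n, ediam (closedBall (i : ℝ) (5 * ρ n i)) ^ (D : ℝ)
          ≤ ∑' i : u n, ENNReal.ofReal (10 ^ (D : ℝ)) * ν (closedBall (i : ℝ) (ρ n i)) :=
            ENNReal.tsum_le_tsum h7
        _ = ENNReal.ofReal (10 ^ (D : ℝ)) * ∑' i : u n, ν (closedBall (i : ℝ) (ρ n i)) :=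
            ENNReal.tsum_mul_left
        _ = ENNReal.ofReal (10 ^ (D : ℝ)) * ν (⋃ i : u n, closedBall (i : ℝ) (ρ n i)) := by
            rw [measure_iUnion]
            · intro i j hij
              exact hdisj n i.2 j.2 (fun h => hij (Subtype.ext h))
            · exact fun i => measurableSet_closedBall
        _ ≤ ENNReal.ofReal (10 ^ (D : ℝ)) * 1 := by
            gcongr
            exact prob_le_one
        _ = ENNReal.ofReal (10 ^ (D : ℝ)) := mul_one _
    refine (liminf_le_liminf (Eventually.of_forall h6)).trans ?_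
    rw [liminf_const]
  exact ne_top_of_le_ne_top ENNReal.ofReal_ne_top key

end DimAux

end Pool.Agent.H98.Fib
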