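import Pool.Agent.H98.Fib.DimB

/-! Window lemmas. -/

open Set Filter
open scoped Topology

set_option linter.unusedSectionVars false

namespace Pool.Agent.H98.Fib

namespace DimAux

section Upper

variable {e r : ℕ → ℝ} {q C₀ J : ℕ} {t x R : ℝ}

theorem window_upper (he : ∀ i i', i < i' → i' < q → e i < e i')
    (hgap : ∀ i, i + 1 < q → r i / 2 ≤ e (i+1) - e i ∧ r (i+1) / 2 ≤ e (i+1) - e i)
    (hJ : 4 * C₀ + 10 ≤ J) (hN : |(cN e q x : ℝ) - q * t| ≤ C₀) (hR0 : 0 < R)
    (hR : ∀ i, i < q → |(i : ℝ) - q * t| ≤ (J : ℝ) - 2 → R ≤ r i) :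
    cN e q (x + R / 4) ≤ cN e q x + 1 ∧ cN e q x ≤ cN e q (x - R / 4) + 1 := by
  have hJ' : 4 * (C₀ : ℝ) + 10 ≤ J := by exact_mod_cast hJ
  have hC : (0 : ℝ) ≤ C₀ := Nat.cast_nonneg _
  have hN' := abs_le.1 hN
  constructor
  · by_contra hc
    push Not at hc
    set N := cN e q x with hNdef
    have hq : N + 1 < q := by
      have := cN_le e q (x + R / 4)
      omega
    have a1 : e (N + 1) ≤ x + R / 4 := (le_iff_lt_cN he hq _).2 (by omega)
    have a2 : x < e N := by
      by_contra h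
      push Not at h
      have := (le_iff_lt_cN he (by omega : N < q) x).1 h
      omega
    have a3 := (hgap N hq).1
    have a4 := hR N (by omega) (by rw [abs_le]; constructor <;> linarith)
    linarith
  · by_contra hc
    push Not at hc
    set N := cN e q x with hNdef
    have hNq : N ≤ q := cN_le e q x
    obtain ⟨k, hk⟩ : ∃ k, N = k + 2 := ⟨N - 2, by omega⟩
    have a1 : e (k + 1) ≤ x := (le_iff_lt_cN he (by omega) _).2 (by omega)
    have a2 : x - R / 4 < e k := by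
      by_contra h
      push Not at h
      have := (le_iff_lt_cN he (by omega : k < q) _).1 h
      omega
    have a3 := (hgap k (by omega)).2
    have hk' : (N : ℝ) = k + 2 := by rw [hk]; push_cast; ring
    have a4 := hR (k + 1) (by omega) (by
      rw [abs_le]
      push_cast
      constructor <;> linarith)
    linarith

end Upper

section Lower

variable {e r : ℕ → ℝ} {q C₀ J : ℕ} {t y A : ℝ}

theorem compare (hA : 1 ≤ A)
    (hg : ∀ i, i + 1 < q → |(i : ℝ) - q * t| ≤ J →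
      e (i+1) - e i ≤ A * r i ∧ r i ≤ A * r (i+1) ∧ r (i+1) ≤ A * r i)
    (i : ℕ) (hi : |(i : ℝ) - q * t| ≤ J) : ∀ m : ℕ, i + m < q →
      |((i + m : ℕ) : ℝ) - q * t| ≤ J →
      r i ≤ A ^ m * r (i + m) ∧ r (i + m) ≤ A ^ m * r i := by
  intro m
  induction m with
  | zero => intro h _; simp
  | succ m ih =>
    intro h h2
    have hi' := abs_le.1 hi
    have h2' := abs_le.1 h2
    push_cast at h2'
    have hm : (0 : ℝ) ≤ m := Nat.cast_nonneg m
    have h3 : |((i + m : ℕ) : ℝ) - q * t| ≤ J := by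
      rw [abs_le]
      push_cast
      constructor <;> linarith
    obtain ⟨h4, h5⟩ := ih (by omega) h3
    obtain ⟨-, h6, h7⟩ := hg (i + m) (by omega) h3
    have hAm : 0 ≤ A ^ m := by positivity
    have hA0 : 0 ≤ A := by linarith
    constructor
    · calc r i ≤ A ^ m * r (i + m) := h4
        _ ≤ A ^ m * (A * r (i + m + 1)) := mul_le_mul_of_nonneg_left h6 hAm
        _ = A ^ (m + 1) * r (i + (m + 1)) := by rw [pow_succ, mul_assoc, add_assoc]
    · calc r (i + (m + 1)) = r (i + m + 1) := by rw [add_assoc]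
        _ ≤ A * r (i + m) := h7
        _ ≤ A * (A ^ m * r i) := mul_le_mul_of_nonneg_left h5 hA0
        _ = A ^ (m + 1) * r i := by ring

theorem compare' (hA : 1 ≤ A) (hr : ∀ i, i < q → 0 < r i)
    (hg : ∀ i, i + 1 < q → |(i : ℝ) - q * t| ≤ J →
      e (i+1) - e i ≤ A * r i ∧ r i ≤ A * r (i+1) ∧ r (i+1) ≤ A * r i)
    {i i' : ℕ} (hiq : i < q) (hiq' : i' < q) (hi : |(i : ℝ) - q * t| ≤ J)
    (hi' : |(i' : ℝ) - q * t| ≤ J) : r i ≤ A ^ (2 * J) * r i' := by
  have h1 := abs_le.1 hi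
  have h2 := abs_le.1 hi'
  rcases le_total i i' with h | h
  · obtain ⟨m, rfl⟩ := Nat.exists_eq_add_of_le h
    have h3 := (compare hA hg i hi m hiq' hi').1
    have hm : m ≤ 2 * J := by
      have : ((i + m : ℕ) : ℝ) = i + m := by push_cast; ring
      rw [this] at h2
      have : (m : ℝ) ≤ ((2 * J : ℕ) : ℝ) := by push_cast; linarith
      exact_mod_cast this
    refine h3.trans (mul_le_mul_of_nonneg_right (pow_le_pow_right₀ hA hm) (hr _ hiq').le)
  · obtain ⟨m, rfl⟩ := Nat.exists_eq_add_of_le h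
    have h3 := (compare hA hg i' hi' m hiq hi).2
    have hm : m ≤ 2 * J := by
      have : ((i' + m : ℕ) : ℝ) = i' + m := by push_cast; ring
      rw [this] at h1
      have : (m : ℝ) ≤ ((2 * J : ℕ) : ℝ) := by push_cast; linarith
      exact_mod_cast this
    refine h3.trans (mul_le_mul_of_nonneg_right (pow_le_pow_right₀ hA hm) (hr _ hiq').le)

theorem window_lower (he : ∀ i i', i < i' → i' < q → e i < e i') (hA : 1 ≤ A)
    (hr : ∀ i, i < q → 0 < r i)
    (hg : ∀ i, i + 1 < q → |(i : ℝ) - q * t| ≤ J →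
      e (i+1) - e i ≤ A * r i ∧ r i ≤ A * r (i+1) ∧ r (i+1) ≤ A * r i)
    (hJ : 4 * C₀ + 10 ≤ J) (hN : |(cN e q y : ℝ) - q * t| ≤ C₀)
    (h0 : (C₀ : ℝ) + 1 ≤ q * t) (h1 : (q : ℝ) * t + 3 * C₀ + 1 ≤ q)
    {i₀ : ℕ} (hi₀ : i₀ < q) (hi₀' : |(i₀ : ℝ) - q * t| ≤ (J : ℝ) - 2) :
    cN e q y + 2 * C₀ + 1 ≤ cN e q (y + (2 * C₀ + 1) * A ^ (2 * J + 1) * r i₀) := by
  have hJ' : 4 * (C₀ : ℝ) + 10 ≤ J := by exact_mod_cast hJ
  have hC : (0 : ℝ) ≤ C₀ := Nat.cast_nonneg _
  have hN' := abs_le.1 hN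
  set N := cN e q y with hNdef
  have hN1 : 1 ≤ N := by
    have : (1 : ℝ) ≤ N := by linarith
    exact_mod_cast this
  have hN2 : N + 2 * C₀ < q := by
    have : (N : ℝ) + 2 * C₀ < q := by linarith
    exact_mod_cast this
  obtain ⟨k, hk⟩ : ∃ k, N = k + 1 := ⟨N - 1, by omega⟩
  have hk' : (N : ℝ) = k + 1 := by rw [hk]; push_cast; ring
  have hek : e k ≤ y := (le_iff_lt_cN he (by omega) _).2 (by omega)
  have hi₀'' : |(i₀ : ℝ) - q * t| ≤ J := hi₀'.trans (by linarith)
  have hstep : ∀ m : ℕ, m ≤ 2 * C₀ + 1 → e (k + m) ≤ e k + m * (A ^ (2 * J + 1) * r i₀) := by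
    intro m
    induction m with
    | zero => intro _; simp
    | succ m ih =>
      intro hm
      have h2 := ih (by omega)
      have hmR : (m : ℝ) + 1 ≤ 2 * C₀ + 1 := by exact_mod_cast hm
      have hm0 : (0 : ℝ) ≤ m := Nat.cast_nonneg m
      have hwin : |((k + m : ℕ) : ℝ) - q * t| ≤ J := by
        rw [abs_le]
        push_cast
        constructor <;> linarith
      have h3 := (hg (k + m) (by omega) hwin).1
      have h4 := compare' hA hr hg (by omega : k + m < q) hi₀ hwin hi₀''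
      have hA0 : 0 ≤ A := by linarith
      have h5 : A * r (k + m) ≤ A ^ (2 * J + 1) * r i₀ := by
        calc A * r (k + m) ≤ A * (A ^ (2 * J) * r i₀) := mul_le_mul_of_nonneg_left h4 hA0
          _ = A ^ (2 * J + 1) * r i₀ := by ring
      have h6 : e (k + (m + 1)) = e (k + m + 1) := by rw [add_assoc]
      rw [h6]
      push_cast
      linarith
  have h7 := hstep (2 * C₀ + 1) le_rfl
  have h8 : e (k + (2 * C₀ + 1)) ≤ y + (2 * C₀ + 1) * A ^ (2 * J + 1) * r i₀ := by
    push_cast at h7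
    rw [mul_assoc]
    linarith
  have h9 := (le_iff_lt_cN he (by omega) _).1 h8
  omega

end Lower

end DimAux

end Pool.Agent.H98.Fib
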