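import Pool.Agent.H98.Fib.IDS

/-! The density of states measure. -/

open Matrix Polynomial Finset Filter Topology MeasureTheory

namespace Pool.Agent.H98.Fib

/-- The restriction of the Fibonacci Hamiltonian with coupling `l` and phase `ω` to the sites
`1, …, N`, as a matrix; the index `i : Fin N` stands for the site `i + 1`. -/
noncomputable def HN (l ω : ℝ) (N : ℕ) : Matrix (Fin N) (Fin N) ℝ :=
  Matrix.of fun i j => if i = j then l * pot ω (i + 1)
    else if (i:ℕ) + 1 = j ∨ (j:ℕ) + 1 = i then 1 else 0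

/-- The number of eigenvalues `≤ E` of the restriction to `{1, …, N}`, with multiplicity. -/
noncomputable def evCount (l ω : ℝ) (N : ℕ) (E : ℝ) : ℕ :=
  ((HN l ω N).charpoly.roots.filter (· ≤ E)).card

/-- `ν` is the density of states measure of the Fibonacci Hamiltonian with coupling `l`: a Borel
probability measure with `ν (-∞, E] = lim (1/N) #{eigenvalues ≤ E of the restriction to {1,…,N}}`
for all phases `ω` and all `E`. -/
def IsDOS (l : ℝ) (ν : Measure ℝ) : Prop :=
  IsProbabilityMeasure ν ∧ ∀ ω E : ℝ,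
    Tendsto (fun N : ℕ => (evCount l ω N E : ℝ) / N) atTop (𝓝 (ν (Set.Iic E)).toReal)

theorem HN_herm (l ω : ℝ) (N : ℕ) : (HN l ω N).IsHermitian := by
  ext i j
  rw [Matrix.conjTranspose_apply]
  simp only [HN, Matrix.of_apply, star_trivial]
  by_cases h : i = j
  · subst h; simp
  · rw [if_neg h, if_neg (Ne.symm h)]
    simp only [or_comm]

theorem HN_map (l ω : ℝ) (N : ℕ) : (HN l ω N).map (algebraMap ℝ ℂ) = Jc (vw l ω) N 0 := by
  ext i j
  rw [Matrix.map_apply, Jc_apply]
  simp only [HN, Matrix.of_apply, vw, star_zero, ite_self, add_zero]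
  by_cases h : i = j
  · subst h
    simp
  · rw [if_neg h, if_neg h]
    by_cases h1 : (i:ℕ) + 1 = j
    · have h2 : ¬ ((j:ℕ) + 1 = i) := by omega
      simp [h1, h2]
    · by_cases h2 : (j:ℕ) + 1 = i
      · simp [h1, h2]
      · simp [h1, h2]

theorem evCount_eq (l ω : ℝ) (N : ℕ) (E : ℝ) : evCount l ω N E = dc l ω N E := by
  unfold evCount dc
  rw [cnt_ofReal _ (HN_herm l ω N), HN_map]

theorem nz_mono (l : ℝ) (j : ℕ) {E E' : ℝ} (h : E ≤ E') : nz l j E ≤ nz l j E' := by
  unfold nz
  apply Multiset.card_le_card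
  apply Multiset.monotone_filter_right
  intro x hx
  exact le_trans hx h

theorem roots_mem_Icc {l : ℝ} (hl : 0 ≤ l) (j : ℕ) {z : ℝ} (hz : z ∈ (xq l j).roots) :
    -2 ≤ z ∧ z ≤ 2 + l := by
  have h1 : (xq l j).eval z = 0 := by
    have := (mem_roots (xq_ne_zero l j)).mp hz
    exact this
  rcases Nat.eq_zero_or_pos j with hj | hj
  · subst hj; simp [xq] at h1
  · by_contra hc
    have h2 := one_lt_abs_xv_of_out hl (E := z) (by
      rcases not_and_or.mp hc with h | h
      · left; exact not_le.mp h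
      · right; exact not_le.mp h) j hj
    unfold xv at h2
    rw [h1] at h2
    simp at h2
    linarith

theorem nz_eq_zero {l : ℝ} (hl : 0 ≤ l) (j : ℕ) {E : ℝ} (hE : E < -2) : nz l j E = 0 := by
  unfold nz
  rw [Multiset.card_eq_zero, Multiset.filter_eq_nil]
  intro z hz
  have := (roots_mem_Icc hl j hz).1
  linarith

theorem nz_eq_fib {l : ℝ} (hl : 0 ≤ l) (j : ℕ) {E : ℝ} (hE : 2 + l ≤ E) : nz l j E = Nat.fib j := by
  unfold nz
  rw [Multiset.filter_eq_self.mpr, card_roots_xq]
  intro z hz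
  have := (roots_mem_Icc hl j hz).2
  linarith

/-- right continuity of the zero count -/
theorem nz_right (l : ℝ) (j : ℕ) (E : ℝ) : ∃ δ > 0, ∀ E', E ≤ E' → E' < E + δ →
    nz l j E' = nz l j E := by
  classical
  set s := ((xq l j).roots.toFinset).filter (fun z => E < z) with hs
  by_cases hne : s.Nonempty
  · refine ⟨s.min' hne - E, ?_, ?_⟩
    · have h0 := s.min'_mem hne
      have h1 : ∀ z ∈ s, E < z := by
        intro z hz
        rw [hs, Finset.mem_filter] at hz
        exact hz.2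
      have := h1 _ h0
      linarith
    · intro E' h1 h2
      unfold nz
      congr 1
      apply Multiset.filter_congr
      intro z hz
      constructor
      · intro h
        by_contra hc
        have hz' : z ∈ s := by
          rw [hs, Finset.mem_filter, Multiset.mem_toFinset]
          exact ⟨hz, not_le.mp hc⟩
        have := s.min'_le z hz'
        linarith
      · intro h; exact h.trans h1
  · refine ⟨1, one_pos, ?_⟩
    intro E' h1 h2
    unfold nz
    congr 1
    apply Multiset.filter_congr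
    intro z hz
    constructor
    · intro h
      by_contra hc
      apply hne
      refine ⟨z, ?_⟩
      rw [hs, Finset.mem_filter, Multiset.mem_toFinset]
      exact ⟨hz, not_le.mp hc⟩
    · intro h; exact h.trans h1

theorem exists_large_fib (x : ℝ) : ∃ j, 2 ≤ j ∧ x < Nat.fib j := by
  have hj : ∀ᶠ j in atTop, (x : ℝ) < Nat.fib j := fib_tendsto.eventually_gt_atTop _
  obtain ⟨j, hj1, hj2⟩ := (hj.and (eventually_ge_atTop 2)).exists
  exact ⟨j, hj2, hj1⟩

section
variable {l : ℝ} {F : ℝ → ℝ} {K : ℕ}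
  (hF : ∀ j, 2 ≤ j → ∀ E, |(nz l j E : ℝ) - Nat.fib j * F E| ≤ K)
include hF

/-- two values of `F` with the same count at all levels... the general comparison -/
theorem F_sub_le {E E' : ℝ} (j : ℕ) (hj : 2 ≤ j) (h : nz l j E ≤ nz l j E') :
    Nat.fib j * (F E - F E') ≤ 2 * K := by
  have h1 := abs_le.mp (hF j hj E)
  have h2 := abs_le.mp (hF j hj E')
  have h3 : (nz l j E : ℝ) ≤ nz l j E' := by exact_mod_cast h
  linarith [h1.1, h2.2]

theorem F_mono : Monotone F := by
  intro E E' h
  by_contra hc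
  rw [not_le] at hc
  obtain ⟨j, hj, hjl⟩ := exists_large_fib (2 * K / (F E - F E'))
  have h1 := F_sub_le hF j hj (nz_mono l j h)
  have h2 : 0 < F E - F E' := by linarith
  rw [div_lt_iff₀ h2] at hjl
  linarith

theorem F_right (E : ℝ) : ContinuousWithinAt F (Set.Ici E) E := by
  rw [Metric.continuousWithinAt_iff]
  intro ε hε
  obtain ⟨j, hj, hjl⟩ := exists_large_fib (2 * K / ε)
  rw [div_lt_iff₀ hε] at hjl
  obtain ⟨δ, hδ, hd⟩ := nz_right l j E
  refine ⟨δ, hδ, fun {E'} hE' hdist => ?_⟩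
  rw [Real.dist_eq] at hdist ⊢
  have hE1 : E ≤ E' := hE'
  rw [abs_of_nonneg (by linarith)] at hdist
  have he := hd E' hE1 (by linarith)
  have h1 := F_sub_le hF (E := E') (E' := E) j hj he.le
  have h2 := F_mono hF hE1
  rw [abs_of_nonneg (by linarith)]
  have hq : (0:ℝ) < Nat.fib j := by exact_mod_cast Nat.fib_pos.mpr (by omega : 0 < j)
  by_contra hc
  rw [not_lt] at hc
  have : Nat.fib j * ε ≤ Nat.fib j * (F E' - F E) := mul_le_mul_of_nonneg_left hc hq.le
  linarith

theorem F_eq_zero (hl : 0 ≤ l) {E : ℝ} (hE : E < -2) : F E = 0 := by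
  by_contra hc
  have hpos : 0 < |F E| := abs_pos.mpr hc
  obtain ⟨j, hj, hjl⟩ := exists_large_fib (K / |F E|)
  rw [div_lt_iff₀ hpos] at hjl
  have := hF j hj E
  rw [nz_eq_zero hl j hE, Nat.cast_zero, zero_sub, abs_neg, abs_mul, Nat.abs_cast] at this
  linarith

theorem F_eq_one (hl : 0 ≤ l) {E : ℝ} (hE : 2 + l ≤ E) : F E = 1 := by
  by_contra hc
  have hpos : 0 < |1 - F E| := abs_pos.mpr (sub_ne_zero.mpr (Ne.symm hc))
  obtain ⟨j, hj, hjl⟩ := exists_large_fib (K / |1 - F E|)
  rw [div_lt_iff₀ hpos] at hjl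
  have := hF j hj E
  rw [nz_eq_fib hl j hE] at this
  have e : (Nat.fib j : ℝ) - Nat.fib j * F E = Nat.fib j * (1 - F E) := by ring
  rw [e, abs_mul, Nat.abs_cast] at this
  linarith

/-- the measure -/
theorem exists_measure (hl : 0 ≤ l) : ∃ ν : Measure ℝ, IsProbabilityMeasure ν ∧
    ∀ E, (ν (Set.Iic E)).toReal = F E := by
  let f : StieltjesFunction ℝ := ⟨F, F_mono hF, F_right hF⟩
  have hbot : Tendsto f atBot (𝓝 0) := by
    apply tendsto_const_nhds.congr'
    filter_upwards [eventually_lt_atBot (-2 : ℝ)] with E hE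
    exact (F_eq_zero hF hl hE).symm
  have htop : Tendsto f atTop (𝓝 1) := by
    apply tendsto_const_nhds.congr'
    filter_upwards [eventually_ge_atTop (2 + l)] with E hE
    exact (F_eq_one hF hl hE).symm
  refine ⟨f.measure, f.isProbabilityMeasure hbot htop, fun E => ?_⟩
  have hfE : f E = F E := rfl
  rw [f.measure_Iic hbot, sub_zero, hfE, ENNReal.toReal_ofReal]
  · have h1 : F (min E (-3)) = 0 := F_eq_zero hF hl (by
      have := min_le_right E (-3:ℝ); linarith)
    have h2 := F_mono hF (min_le_left E (-3:ℝ))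
    rw [h1] at h2
    exact h2

end

theorem IsDOS.unique {l : ℝ} {ν ν' : Measure ℝ} (h : IsDOS l ν) (h' : IsDOS l ν') : ν = ν' := by
  have := h.1
  have := h'.1
  apply Measure.ext_of_Iic
  intro E
  have := tendsto_nhds_unique (h.2 0 E) (h'.2 0 E)
  rwa [ENNReal.toReal_eq_toReal_iff' (measure_ne_top _ _) (measure_ne_top _ _)] at this

theorem exists_dos {l : ℝ} (hl : 0 ≤ l) : ∃ ν : Measure ℝ, IsDOS l ν := by
  obtain ⟨K, hK⟩ := exists_F
  obtain ⟨F, h1, h2⟩ := hK l
  obtain ⟨ν, hν, hI⟩ := exists_measure h2 hl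
  refine ⟨ν, hν, fun ω E => ?_⟩
  rw [hI]
  simp only [evCount_eq]
  exact h1 ω E

/-- the basic estimate -/
theorem dos_estimate : ∃ K : ℕ, ∀ (l : ℝ) (ν : Measure ℝ), IsDOS l ν → ∀ j E,
    |(nz l j E : ℝ) - Nat.fib j * (ν (Set.Iic E)).toReal| ≤ K := by
  obtain ⟨K, hK⟩ := exists_F
  refine ⟨K + 1, fun l ν h j E => ?_⟩
  obtain ⟨F, h1, h2⟩ := hK l
  have := h.1
  have hF : (ν (Set.Iic E)).toReal = F E := by
    have h3 := h.2 0 E
    simp only [evCount_eq] at h3
    exact tendsto_nhds_unique h3 (h1 0 E)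
  rcases Nat.lt_or_ge j 2 with hj | hj
  · have h01 : 0 ≤ (ν (Set.Iic E)).toReal := ENNReal.toReal_nonneg
    have h02 : (ν (Set.Iic E)).toReal ≤ 1 := by
      have := prob_le_one (μ := ν) (s := Set.Iic E)
      exact ENNReal.toReal_le_of_le_ofReal zero_le_one (by simpa using this)
    have h03 : nz l j E ≤ Nat.fib j := by
      unfold nz
      refine (Multiset.card_le_card (Multiset.filter_le _ _)).trans ?_
      rw [card_roots_xq]
    have h04 : Nat.fib j ≤ 1 := by interval_cases j <;> simp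
    have h05 : (nz l j E : ℝ) ≤ 1 := by exact_mod_cast h03.trans h04
    have h06 : (Nat.fib j : ℝ) ≤ 1 := by exact_mod_cast h04
    have h07 : (0:ℝ) ≤ Nat.fib j := Nat.cast_nonneg _
    have h08 : (0:ℝ) ≤ nz l j E := Nat.cast_nonneg _
    have h09 : (Nat.fib j : ℝ) * (ν (Set.Iic E)).toReal ≤ 1 := by nlinarith
    have h10 : 0 ≤ (Nat.fib j : ℝ) * (ν (Set.Iic E)).toReal := by positivity
    have hK0 : (0:ℝ) ≤ K := Nat.cast_nonneg _
    push_cast
    rw [abs_le]; constructor <;> linarith
  · rw [hF]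
    have := h2 j hj E
    push_cast
    linarith

end Pool.Agent.H98.Fib
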