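import Pool.Agent.H98.Fib.Roots

/-! Escape, bounds, additivity of the counting function in gaps. -/

open Matrix Polynomial Finset

namespace Pool.Agent.H98.Fib

/-- the value of the `j`-th half trace -/
noncomputable def xv (l E : ℝ) (j : ℕ) : ℝ := (xq l j).eval E

theorem xv_zero (l E : ℝ) : xv l E 0 = 1 := by simp [xv, xq]
theorem xv_one (l E : ℝ) : xv l E 1 = E / 2 := by simp [xv, xq]; ring
theorem xv_two (l E : ℝ) : xv l E 2 = (E - l) / 2 := by simp [xv, xq]; ring

theorem xv_rec (l E : ℝ) (j : ℕ) :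
    xv l E (j+3) = 2 * xv l E (j+2) * xv l E (j+1) - xv l E j := by
  simp [xv, xq]

theorem xv_inv (l E : ℝ) (j : ℕ) :
    (xv l E (j+2))^2 + (xv l E (j+1))^2 + (xv l E j)^2
      - 2 * xv l E (j+2) * xv l E (j+1) * xv l E j - 1 = l^2/4 := by
  induction j with
  | zero => rw [xv_zero, xv_one, xv_two]; ring
  | succ j ih =>
    have h := xv_rec l E j
    rw [show j + 1 + 2 = j + 3 by ring, show j + 1 + 1 = j + 2 by ring, h]
    linear_combination ih

/-- the escape condition -/
def Esc (l E : ℝ) (j : ℕ) : Prop :=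
  1 < |xv l E (j+1)| ∧ 1 < |xv l E (j+2)| ∧ |xv l E j| < |xv l E (j+1) * xv l E (j+2)|

theorem Esc.succ' {l E : ℝ} {j : ℕ} (h : Esc l E j) :
    Esc l E (j+1) ∧ 0 < xv l E (j+1) * xv l E (j+2) * xv l E (j+3) := by
  obtain ⟨h1, h2, h3⟩ := h
  have hr := xv_rec l E j
  set a := xv l E j
  set b := xv l E (j+1)
  set c := xv l E (j+2)
  have hbc : 1 < |b * c| := by
    rw [abs_mul]; nlinarith
  have hd : |b * c| < |xv l E (j+3)| := by
    rw [hr]
    have h4 : |2 * c * b| - |a| ≤ |2 * c * b - a| := abs_sub_abs_le_abs_sub _ _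
    have h5 : |2 * c * b| = 2 * |b * c| := by
      rw [show 2 * c * b = 2 * (b * c) by ring, abs_mul]; norm_num
    linarith
  refine ⟨⟨h2, by show 1 < |xv l E (j+3)|; linarith, ?_⟩, ?_⟩
  · show |b| < |c * xv l E (j+3)|
    rw [abs_mul]
    have hb0 : 0 < |b| := by linarith
    have e1 : |b| < |c| * |b * c| := by
      rw [abs_mul]
      have hcc : 1 < |c| * |c| := by nlinarith
      calc |b| = |b| * 1 := (mul_one _).symm
        _ < |b| * (|c| * |c|) := mul_lt_mul_of_pos_left hcc hb0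
        _ = |c| * (|b| * |c|) := by ring
    have e2 : |c| * |b * c| ≤ |c| * |xv l E (j+3)| := by
      apply mul_le_mul_of_nonneg_left hd.le (abs_nonneg _)
    linarith
  · rw [hr]
    have h6 : a * (b * c) ≤ |a| * |b * c| := by
      rw [← abs_mul]; exact le_abs_self _
    have h7 : (b * c)^2 = |b * c|^2 := (sq_abs _).symm
    have h8 : |a| * |b * c| < |b * c| * |b * c| := by
      apply mul_lt_mul_of_pos_right h3; linarith
    nlinarith

theorem Esc.succ {l E : ℝ} {j : ℕ} (h : Esc l E j) : Esc l E (j+1) := h.succ'.1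

theorem Esc.mono {l E : ℝ} {j k : ℕ} (hjk : j ≤ k) (h : Esc l E j) : Esc l E k := by
  induction k, hjk using Nat.le_induction with
  | base => exact h
  | succ k _ ih => exact ih.succ

/-- no escape up to level `m`: no two consecutive half traces are large -/
theorem not_both {l E : ℝ} {m : ℕ} (h : ¬ Esc l E m) :
    ∀ i ≤ m, ¬ (1 < |xv l E (i+1)| ∧ 1 < |xv l E (i+2)|) := by
  intro i
  induction i with
  | zero =>
    rintro hi ⟨h1, h2⟩
    apply h
    apply Esc.mono hi
    refine ⟨h1, h2, ?_⟩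
    rw [xv_zero, abs_one, abs_mul]
    nlinarith
  | succ i ih =>
    rintro hi ⟨h1, h2⟩
    have h3 := ih (by omega)
    have h4 : |xv l E (i+1)| ≤ 1 := by
      by_contra h5
      exact h3 ⟨not_le.mp h5, h1⟩
    apply h
    apply Esc.mono hi
    refine ⟨h1, h2, ?_⟩
    rw [abs_mul]
    nlinarith

/-- the bound before escape -/
noncomputable def Kb (l : ℝ) : ℝ := 1 + Real.sqrt (1 + l^2/4)

theorem one_le_Kb (l : ℝ) : 1 ≤ Kb l := by
  unfold Kb
  have := Real.sqrt_nonneg (1 + l^2/4)
  linarith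

theorem bound_before {l E : ℝ} {m : ℕ} (h : ¬ Esc l E m) (i : ℕ) (hi : i ≤ m + 1) :
    |xv l E i| ≤ Kb l := by
  rcases Nat.eq_zero_or_pos i with h0 | h0
  · subst h0; rw [xv_zero, abs_one]; exact one_le_Kb l
  · obtain ⟨k, rfl⟩ : ∃ k, i = k + 1 := ⟨i - 1, by omega⟩
    by_cases hx : |xv l E (k+1)| ≤ 1
    · exact hx.trans (one_le_Kb l)
    · rw [not_le] at hx
      have h1 := not_both h k (by omega)
      have h2 : |xv l E (k+2)| ≤ 1 := by
        by_contra h5; exact h1 ⟨hx, not_le.mp h5⟩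
      have h3 : |xv l E k| ≤ 1 := by
        rcases Nat.eq_zero_or_pos k with hk | hk
        · subst hk; rw [xv_zero, abs_one]
        · obtain ⟨k', rfl⟩ : ∃ k', k = k' + 1 := ⟨k - 1, by omega⟩
          by_contra h5
          exact not_both h k' (by omega) ⟨not_le.mp h5, hx⟩
      have hinv := xv_inv l E k
      set a := xv l E k
      set b := xv l E (k+1)
      set c := xv l E (k+2)
      have ha2 : a^2 ≤ 1 := by rw [← sq_abs]; nlinarith [abs_nonneg a]
      have hc2 : c^2 ≤ 1 := by rw [← sq_abs]; nlinarith [abs_nonneg c]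
      have hs : (b - a * c)^2 ≤ 1 + l^2/4 := by nlinarith [mul_nonneg (sub_nonneg.mpr ha2) (sub_nonneg.mpr hc2), sq_nonneg a, sq_nonneg c]
      have hs' : |b - a * c| ≤ Real.sqrt (1 + l^2/4) := by
        rw [← Real.sqrt_sq_eq_abs]
        exact Real.sqrt_le_sqrt hs
      have hac : |a * c| ≤ 1 := by
        rw [abs_mul]; nlinarith [abs_nonneg a, abs_nonneg c]
      have : |b| ≤ |b - a * c| + |a * c| := by
        have := abs_add_le (b - a * c) (a * c)
        simpa using this
      unfold Kb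
      linarith

/-- growth bounds: `Hb l t` bounds `|x_{m+1+t}|` when there is no escape at level `m` -/
noncomputable def Hb (l : ℝ) : ℕ → ℝ
  | 0 => Kb l + |l|
  | (t+1) => 2 * (Hb l t)^2 + Hb l t

theorem one_le_Hb (l : ℝ) (t : ℕ) : 1 ≤ Hb l t := by
  induction t with
  | zero => unfold Hb; have := one_le_Kb l; have := abs_nonneg l; linarith
  | succ t ih => unfold Hb; nlinarith

theorem Hb_mono (l : ℝ) : Monotone (Hb l) := by
  apply monotone_nat_of_le_succ
  intro t
  show _ ≤ 2 * (Hb l t)^2 + Hb l t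
  nlinarith [sq_nonneg (Hb l t)]

theorem bound_after {l E : ℝ} {m : ℕ} (h : ¬ Esc l E m) (t : ℕ) :
    ∀ i ≤ m + 1 + t, |xv l E i| ≤ Hb l t := by
  induction t with
  | zero =>
    intro i hi
    refine (bound_before h i (by omega)).trans ?_
    unfold Hb; have := abs_nonneg l; linarith
  | succ t ih =>
    intro i hi
    have hle : Hb l t ≤ Hb l (t+1) := Hb_mono l (Nat.le_succ t)
    rcases Nat.lt_or_ge i (m + 1 + (t + 1)) with hlt | hge
    · exact (ih i (by omega)).trans hle
    · have hi' : i = m + 1 + (t+1) := by omega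
      rcases Nat.lt_or_ge i 3 with h3 | h3
      · have : i = 2 := by omega
        subst this
        have h1 := bound_before h 1 (by omega)
        have h0 : Hb l 0 ≤ Hb l (t+1) := Hb_mono l (Nat.zero_le _)
        refine le_trans ?_ h0
        rw [xv_two]
        rw [xv_one] at h1
        unfold Hb
        have e : (E - l)/2 = E/2 - l/2 := by ring
        rw [e]
        have h4 := abs_sub (E/2) (l/2)
        have h5 : |l/2| = |l|/2 := by rw [abs_div]; norm_num
        have := abs_nonneg l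
        linarith
      · obtain ⟨k, rfl⟩ : ∃ k, i = k + 3 := ⟨i - 3, by omega⟩
        rw [xv_rec]
        have a0 := ih k (by omega)
        have a1 := ih (k+1) (by omega)
        have a2 := ih (k+2) (by omega)
        have hH := one_le_Hb l t
        calc |2 * xv l E (k+2) * xv l E (k+1) - xv l E k|
            ≤ |2 * xv l E (k+2) * xv l E (k+1)| + |xv l E k| := abs_sub _ _
          _ ≤ 2 * (Hb l t)^2 + Hb l t := by
            have : |2 * xv l E (k+2) * xv l E (k+1)| = 2 * (|xv l E (k+2)| * |xv l E (k+1)|) := by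
              rw [abs_mul, abs_mul]; norm_num; ring
            rw [this]
            have hm : |xv l E (k+2)| * |xv l E (k+1)| ≤ Hb l t * Hb l t :=
              mul_le_mul a2 a1 (abs_nonneg _) (by linarith)
            nlinarith

theorem esc_of_large {l E : ℝ} {m t : ℕ} (h : Hb l t < |xv l E (m + 1 + t)|) : Esc l E m := by
  by_contra hn
  exact absurd (bound_after hn t _ le_rfl) (not_le.mpr h)

/-! location of the zeros -/

theorem esc_zero_of_out {l E : ℝ} (hl : 0 ≤ l) (hE : E < -2 ∨ 2 + l < E) : Esc l E 0 := by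
  have h1 : 1 < |xv l E 1| := by
    rw [xv_one, lt_abs]
    rcases hE with h | h
    · right; linarith
    · left; linarith
  have h2 : 1 < |xv l E 2| := by
    rw [xv_two, lt_abs]
    rcases hE with h | h
    · right; linarith
    · left; linarith
  refine ⟨h1, h2, ?_⟩
  rw [xv_zero, abs_one, abs_mul]
  nlinarith

theorem one_lt_abs_xv_of_out {l E : ℝ} (hl : 0 ≤ l) (hE : E < -2 ∨ 2 + l < E) (j : ℕ) (hj : 1 ≤ j) :
    1 < |xv l E j| := by
  obtain ⟨k, rfl⟩ : ∃ k, j = k + 1 := ⟨j - 1, by omega⟩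
  exact (Esc.mono (Nat.zero_le k) (esc_zero_of_out hl hE)).1


/-! parity -/

theorem prod_sign (s : Multiset ℝ) (E : ℝ) (h : E ∉ s) :
    0 < (-1 : ℝ) ^ (Multiset.card s + (s.filter (· ≤ E)).card) * (s.map (fun r => E - r)).prod := by
  induction s using Multiset.induction_on with
  | empty => simp
  | cons r s ih =>
    rw [Multiset.mem_cons, not_or] at h
    have ih' := ih h.2
    rcases lt_or_ge r E with hr | hr
    · rw [Multiset.filter_cons_of_pos (p := (· ≤ E)) s hr.le, Multiset.card_cons,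
        Multiset.card_cons, Multiset.map_cons, Multiset.prod_cons]
      have e : (-1 : ℝ) ^ (Multiset.card s + 1 + ((s.filter (· ≤ E)).card + 1)) =
        (-1 : ℝ) ^ (Multiset.card s + (s.filter (· ≤ E)).card) := by
        rw [show Multiset.card s + 1 + ((s.filter (· ≤ E)).card + 1) =
          (Multiset.card s + (s.filter (· ≤ E)).card) + 2 by ring, pow_add]; norm_num
      rw [e]
      have : 0 < E - r := by linarith
      calc 0 < (E - r) * ((-1 : ℝ) ^ (Multiset.card s + (s.filter (· ≤ E)).card) *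
            (s.map (fun r => E - r)).prod) := mul_pos this ih'
        _ = _ := by ring
    · have hr' : E < r := lt_of_le_of_ne hr h.1
      rw [Multiset.filter_cons_of_neg (p := (· ≤ E)) s (not_le.mpr hr'), Multiset.card_cons,
        Multiset.map_cons, Multiset.prod_cons]
      have e : (-1 : ℝ) ^ (Multiset.card s + 1 + (s.filter (· ≤ E)).card) =
        - (-1 : ℝ) ^ (Multiset.card s + (s.filter (· ≤ E)).card) := by
        rw [show Multiset.card s + 1 + (s.filter (· ≤ E)).card =
          (Multiset.card s + (s.filter (· ≤ E)).card) + 1 by ring, pow_succ]; ring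
      rw [e]
      have : 0 < r - E := by linarith
      calc 0 < (r - E) * ((-1 : ℝ) ^ (Multiset.card s + (s.filter (· ≤ E)).card) *
            (s.map (fun r => E - r)).prod) := mul_pos this ih'
        _ = _ := by ring

theorem eval_sign {p : ℝ[X]} (hcard : Multiset.card p.roots = p.natDegree)
    (ha : 0 < p.leadingCoeff) {E : ℝ} (hE : p.eval E ≠ 0) :
    0 < (-1 : ℝ) ^ (p.natDegree + (p.roots.filter (· ≤ E)).card) * p.eval E := by
  have hp : p ≠ 0 := by intro h; rw [h] at ha; simp at ha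
  have hmem : E ∉ p.roots := by
    rw [mem_roots hp]; exact hE
  have h1 := prod_sign p.roots E hmem
  have h2 : p.eval E = p.leadingCoeff * (p.roots.map (fun r => E - r)).prod := by
    conv_lhs => rw [← C_leadingCoeff_mul_prod_multiset_X_sub_C hcard]
    rw [eval_mul, eval_C, eval_multiset_prod, Multiset.map_map]
    congr 2
    apply Multiset.map_congr rfl
    intro r _
    simp
  rw [h2, ← hcard]
  calc 0 < p.leadingCoeff * ((-1 : ℝ) ^ (Multiset.card p.roots + (p.roots.filter (· ≤ E)).card) *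
        (p.roots.map (fun r => E - r)).prod) := mul_pos ha h1
    _ = _ := by ring

theorem xv_sign (l E : ℝ) (j : ℕ) (hj : 1 ≤ j) (hE : xv l E j ≠ 0) :
    0 < (-1 : ℝ) ^ (Nat.fib j + nz l j E) * xv l E j := by
  have := eval_sign (p := xq l j) (by rw [card_roots_xq, (natDegree_xq l j).1])
    (by rw [(natDegree_xq l j).2 hj]; norm_num) hE
  rwa [(natDegree_xq l j).1] at this

theorem Mf_ne_one (l E : ℝ) (hl : l ≠ 0) (j : ℕ) (hj : 1 ≤ j) : Mf l E j ≠ 1 := by
  intro h
  obtain ⟨k, rfl⟩ : ∃ k, j = k + 1 := ⟨j - 1, by omega⟩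
  have h1 : xv l E (k+1) = 1 := by
    rw [xv, eval_xq, h, Matrix.trace_fin_two]; simp
  have h2 : xv l E (k+2) = xv l E k := by
    rw [xv, xv, eval_xq, eval_xq]
    show (Mf l E k * Mf l E (k+1)).trace / 2 = _
    rw [h, Matrix.mul_one]
  have h3 := xv_inv l E k
  rw [h1, h2] at h3
  have : l^2 = 0 := by nlinarith
  exact hl (by simpa using this)

theorem map_ne_one (l E : ℝ) (hl : l ≠ 0) (j : ℕ) (hj : 2 ≤ j) :
    (TM (vw l 0) E (Nat.fib j)).map (algebraMap ℝ ℂ) ≠ (1:ℂ) • (1 : Matrix (Fin 2) (Fin 2) ℂ) := by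
  intro h
  apply Mf_ne_one l E hl j (by omega)
  rw [Mf_eq_TM l E j hj]
  rw [one_smul] at h
  have h1 := congrFun (congrFun h 0) 0
  have h2 := congrFun (congrFun h 0) 1
  have h3 := congrFun (congrFun h 1) 0
  have h4 := congrFun (congrFun h 1) 1
  simp at h1 h2 h3 h4
  ext a b
  fin_cases a <;> fin_cases b <;> simp [h1, h2, h3, h4]

/-- in the gaps, the count of the periodic matrix equals the count of zeros -/
theorem nz_eq_cnt_one (l : ℝ) (hl : l ≠ 0) (j : ℕ) (hj : 2 ≤ j) (E : ℝ) (hE : 1 < |xv l E j|) :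
    nz l j E = cnt (Jc (vw l 0) (Nat.fib j) 1) E := by
  have hn : 0 < Nat.fib j := Nat.fib_pos.mpr (by omega)
  have hc : (1:ℂ) * star (1:ℂ) = 1 := by simp
  have hH := Jc_isHermitian (vw l 0) (Nat.fib j) 1
  have hinj : Function.Injective hH.eigenvalues := by
    apply eigenvalues_injective hH
    intro E x y hx hy hx0
    exact eig_simple hn hc (map_ne_one l E hl j hj) hx hy hx0
  have hdeg : (xq l j - 1).natDegree = Nat.fib j := by
    rw [show (1 : ℝ[X]) = C 1 by simp, natDegree_sub_C, (natDegree_xq l j).1]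
  have hne : xq l j - 1 ≠ 0 := by
    intro h; rw [h] at hdeg; simp at hdeg; omega
  have hroot : ∀ i, (xq l j - 1).eval (hH.eigenvalues i) = 0 := by
    intro i
    obtain ⟨x, hx0, hx⟩ := exists_eigenvector hH i
    have := trace_of_eig hn hc hx hx0
    rw [trace_vw _ _ _ hj] at this
    simp at this
    rw [eval_sub, eval_one]
    linarith
  have hr := roots_of_injective hH hinj (xq l j - 1) hne (by rw [hdeg, Fintype.card_fin]) hroot
  have hcard : Multiset.card (xq l j - 1).roots = (xq l j - 1).natDegree := by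
    rw [hr.1, hdeg]; simp
  have hlead : (xq l j - 1).leadingCoeff = 1/2 := by
    rw [leadingCoeff_sub_of_degree_lt, (natDegree_xq l j).2 (by omega)]
    rw [degree_one]
    apply natDegree_pos_iff_degree_pos.mp
    rw [(natDegree_xq l j).1]; exact hn
  have hx0 : xv l E j ≠ 0 := by
    intro h; rw [h] at hE; simp at hE; linarith
  have hx1 : (xq l j - 1).eval E ≠ 0 := by
    rw [eval_sub, eval_one]
    intro h
    have : xv l E j = 1 := by unfold xv; linarith
    rw [this] at hE; simp at hE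
  have s1 := xv_sign l E j (by omega) hx0
  have s2 := eval_sign hcard (by rw [hlead]; norm_num) hx1
  rw [hr.2.2, hdeg, eval_sub, eval_one] at s2
  have hcomp1 := cnt_corner (vw l 0) (Nat.fib j) 1 Complex.I E
  have hcomp2 := cnt_corner (vw l 0) (Nat.fib j) Complex.I 1 E
  rw [← nz_eq_cnt l j hj] at hcomp1 hcomp2
  set c := cnt (Jc (vw l 0) (Nat.fib j) 1) E
  -- the two signs agree
  have hsgn : 0 < xv l E j * (xv l E j - 1) := by
    rcases lt_abs.mp hE with h | h
    · apply mul_pos <;> linarith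
    · apply mul_pos_of_neg_of_neg <;> linarith
  change 0 < (-1 : ℝ) ^ (Nat.fib j + c) * (xv l E j - 1) at s2
  have hprod : 0 < (-1 : ℝ) ^ (Nat.fib j + nz l j E) * (-1 : ℝ) ^ (Nat.fib j + c) := by
    have h3 := mul_pos s1 s2
    have h4 : (-1 : ℝ) ^ (Nat.fib j + nz l j E) * xv l E j *
      ((-1 : ℝ) ^ (Nat.fib j + c) * (xv l E j - 1)) =
      ((-1 : ℝ) ^ (Nat.fib j + nz l j E) * (-1 : ℝ) ^ (Nat.fib j + c)) *
        (xv l E j * (xv l E j - 1)) := by ring
    rw [h4] at h3
    exact (mul_pos_iff_of_pos_right hsgn).mp h3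
  rw [← pow_add] at hprod
  have heven : Even (Nat.fib j + nz l j E + (Nat.fib j + c)) := by
    by_contra hodd
    rw [Nat.not_even_iff_odd] at hodd
    rw [hodd.neg_one_pow] at hprod
    linarith
  obtain ⟨r, hr⟩ := heven
  omega

/-- additivity of the counting function in gaps -/
theorem nz_add (l : ℝ) (hl : l ≠ 0) (j : ℕ) (hj : 2 ≤ j) (E : ℝ)
    (h0 : 1 < |xv l E j|) (h1 : 1 < |xv l E (j+1)|) (h2 : 1 < |xv l E (j+2)|)
    (hs : 0 < xv l E j * xv l E (j+1) * xv l E (j+2)) :
    nz l (j+2) E = nz l (j+1) E + nz l j E := by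
  have n0 : xv l E j ≠ 0 := by intro h; rw [h] at h0; simp at h0; linarith
  have n1 : xv l E (j+1) ≠ 0 := by intro h; rw [h] at h1; simp at h1; linarith
  have n2 : xv l E (j+2) ≠ 0 := by intro h; rw [h] at h2; simp at h2; linarith
  have s0 := xv_sign l E j (by omega) n0
  have s1 := xv_sign l E (j+1) (by omega) n1
  have s2 := xv_sign l E (j+2) (by omega) n2
  have hfib : Nat.fib (j+2) = Nat.fib (j+1) + Nat.fib j := by rw [Nat.fib_add_two, add_comm]
  have hm := cnt_merge (vw l 0) (Nat.fib (j+1)) (Nat.fib j) (Nat.fib_pos.mpr (by omega))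
    (Nat.fib_pos.mpr (by omega)) E
  rw [← hfib] at hm
  have hcong : Jc (fun k => vw l 0 (k + Nat.fib (j+1))) (Nat.fib j) 1 =
      Jc (vw l 0) (Nat.fib j) 1 := by
    apply Jc_congr
    intro i hi
    exact vw_add_fib l (j+1) i (by omega) hi
  rw [hcong, ← nz_eq_cnt_one l hl j hj E h0, ← nz_eq_cnt_one l hl (j+1) (by omega) E h1,
    ← nz_eq_cnt_one l hl (j+2) (by omega) E h2] at hm
  have hprod : 0 < (-1 : ℝ) ^ (Nat.fib j + nz l j E) * (-1 : ℝ) ^ (Nat.fib (j+1) + nz l (j+1) E) *
      (-1 : ℝ) ^ (Nat.fib (j+2) + nz l (j+2) E) := by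
    have h3 := mul_pos (mul_pos s0 s1) s2
    have h4 : (-1 : ℝ) ^ (Nat.fib j + nz l j E) * xv l E j *
        ((-1 : ℝ) ^ (Nat.fib (j+1) + nz l (j+1) E) * xv l E (j+1)) *
        ((-1 : ℝ) ^ (Nat.fib (j+2) + nz l (j+2) E) * xv l E (j+2)) =
      ((-1 : ℝ) ^ (Nat.fib j + nz l j E) * (-1 : ℝ) ^ (Nat.fib (j+1) + nz l (j+1) E) *
      (-1 : ℝ) ^ (Nat.fib (j+2) + nz l (j+2) E)) *
        (xv l E j * xv l E (j+1) * xv l E (j+2)) := by ring
    rw [h4] at h3
    exact (mul_pos_iff_of_pos_right hs).mp h3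
  rw [← pow_add, ← pow_add] at hprod
  have heven : Even (Nat.fib j + nz l j E + (Nat.fib (j+1) + nz l (j+1) E) +
      (Nat.fib (j+2) + nz l (j+2) E)) := by
    by_contra hodd
    rw [Nat.not_even_iff_odd] at hodd
    rw [hodd.neg_one_pow] at hprod
    linarith
  obtain ⟨r, hr⟩ := heven
  rw [hfib] at hr
  omega

theorem nz_add_of_esc (l : ℝ) (hl : l ≠ 0) {m j : ℕ} (hm : 1 ≤ m) (hj : m + 1 ≤ j) {E : ℝ}
    (h : Esc l E m) : nz l (j+2) E = nz l (j+1) E + nz l j E := by
  obtain ⟨k, rfl⟩ : ∃ k, j = k + 1 := ⟨j - 1, by omega⟩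
  have hk : Esc l E k := h.mono (by omega)
  obtain ⟨hk1, hs⟩ := hk.succ'
  exact nz_add l hl (k+1) (by omega) E hk.1 hk.2.1 hk1.2.1 hs

end Pool.Agent.H98.Fib
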