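import Pool.Agent.H98.Fib.Order
import Pool.Agent.H98.Fib.BC

/-! Gap labels. -/

open Matrix Polynomial Finset Filter Topology MeasureTheory

namespace Pool.Agent.H98.Fib

/-- integrated density of states of `ν` -/
noncomputable def Fn (ν : Measure ℝ) (E : ℝ) : ℝ := (ν (Set.Iic E)).toReal

/-- labels of the gaps of level `m` -/
def Dl (l : ℝ) (ν : Measure ℝ) (m : ℕ) : Set ℝ := {t | ∃ E, Esc l E m ∧ t = Fn ν E}

theorem Dl_mono (l : ℝ) (ν : Measure ℝ) (m : ℕ) : Dl l ν m ⊆ Dl l ν (m+1) := by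
  rintro t ⟨E, hE, rfl⟩
  exact ⟨E, hE.succ, rfl⟩

theorem Fn_mem (ν : Measure ℝ) [IsProbabilityMeasure ν] (E : ℝ) : Fn ν E ∈ Set.Icc (0:ℝ) 1 := by
  refine ⟨ENNReal.toReal_nonneg, ?_⟩
  have := prob_le_one (μ := ν) (s := Set.Iic E)
  exact ENNReal.toReal_le_of_le_ofReal zero_le_one (by simpa using this)

theorem Dl_sub (l : ℝ) (ν : Measure ℝ) [IsProbabilityMeasure ν] (m : ℕ) :
    Dl l ν m ⊆ Set.Icc 0 1 := by
  rintro t ⟨E, _, rfl⟩
  exact Fn_mem ν E

/-- the golden ratio -/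
noncomputable def gr : ℝ := Real.goldenRatio

theorem gr_sq : gr ^ 2 = gr + 1 := Real.goldenRatio_sq
theorem one_lt_gr : 1 < gr := Real.one_lt_goldenRatio
theorem gr_lt_two : gr < 2 := Real.goldenRatio_lt_two

theorem label_exact {l : ℝ} (hl : l ≠ 0) {ν : Measure ℝ} {K : ℕ}
    (hK : ∀ j E, |(nz l j E : ℝ) - Nat.fib j * Fn ν E| ≤ K) {m : ℕ} (hm : 1 ≤ m) {E : ℝ}
    (hE : Esc l E m) :
    gr * nz l (m+2) E + nz l (m+1) E = Fn ν E * (gr * Nat.fib (m+2) + Nat.fib (m+1)) := by
  set d : ℕ → ℝ := fun j => gr * ((nz l (j+1) E : ℝ) - Nat.fib (j+1) * Fn ν E) +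
    ((nz l j E : ℝ) - Nat.fib j * Fn ν E) with hd
  have hstep : ∀ j, m + 1 ≤ j → d (j+1) = gr * d j := by
    intro j hj
    have h1 := nz_add_of_esc l hl hm hj hE
    have h2 : (nz l (j+2) E : ℝ) = nz l (j+1) E + nz l j E := by exact_mod_cast h1
    have h3 : (Nat.fib (j+2) : ℝ) = Nat.fib (j+1) + Nat.fib j := by
      rw [Nat.fib_add_two]; push_cast; ring
    simp only [hd]
    rw [show j + 1 + 1 = j + 2 by ring, h2, h3]
    have := gr_sq
    linear_combination (-(nz l (j+1) E : ℝ) + Nat.fib (j+1) * Fn ν E) * this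
  have hpow : ∀ i, d (m + 1 + i) = gr ^ i * d (m+1) := by
    intro i
    induction i with
    | zero => simp
    | succ i ih =>
      rw [← Nat.add_assoc, hstep _ (by omega), ih, pow_succ]; ring
  have hbound : ∀ j, |d j| ≤ (gr + 1) * K := by
    intro j
    simp only [hd]
    have h1 := hK (j+1) E
    have h2 := hK j E
    have hg := one_lt_gr
    calc |gr * ((nz l (j+1) E : ℝ) - Nat.fib (j+1) * Fn ν E) + ((nz l j E : ℝ) - Nat.fib j * Fn ν E)|
        ≤ |gr * ((nz l (j+1) E : ℝ) - Nat.fib (j+1) * Fn ν E)| +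
          |(nz l j E : ℝ) - Nat.fib j * Fn ν E| := abs_add_le _ _
      _ ≤ gr * K + K := by
          rw [abs_mul, abs_of_pos (by linarith : 0 < gr)]
          have := mul_le_mul_of_nonneg_left h1 (by linarith : 0 ≤ gr)
          linarith
      _ = (gr + 1) * K := by ring
  have hzero : d (m+1) = 0 := by
    by_contra hne
    have hpos : 0 < |d (m+1)| := abs_pos.mpr hne
    have ht : Tendsto (fun i : ℕ => gr ^ i) atTop atTop := tendsto_pow_atTop_atTop_of_one_lt one_lt_gr
    obtain ⟨i, hi⟩ := (ht.eventually_gt_atTop ((gr + 1) * K / |d (m+1)|)).exists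
    rw [div_lt_iff₀ hpos] at hi
    have h1 := hbound (m + 1 + i)
    rw [hpow i, abs_mul, abs_of_pos (pow_pos (by linarith [one_lt_gr]) i)] at h1
    linarith
  simp only [hd] at hzero
  rw [show m + 1 + 1 = m + 2 by ring] at hzero
  linarith

theorem norm_form_ne_zero {a b : ℤ} (h : gr * a + b ≠ 0) : b ^ 2 + a * b - a ^ 2 ≠ 0 := by
  intro h0
  have hirr : Irrational gr := Real.goldenRatio_irrational
  have h1 : ((b:ℝ) ^ 2 + a * b - a ^ 2) = 0 := by exact_mod_cast h0
  -- (gr a + b)(b - a/gr) = b² + ab - a², 1/gr = gr - 1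
  have h2 : (gr * a + b) * (b - a * (gr - 1)) = 0 := by
    have := gr_sq
    linear_combination h1 - a ^ 2 * this
  have h3 : (b:ℝ) - a * (gr - 1) = 0 := (mul_eq_zero.mp h2).resolve_left h
  by_cases ha : a = 0
  · subst ha
    simp at h3
    apply h
    simp [h3]
  · have ha' : (a:ℝ) ≠ 0 := by exact_mod_cast ha
    apply hirr
    refine ⟨((b + a : ℤ) : ℚ) / (a : ℚ), ?_⟩
    push_cast
    rw [div_eq_iff ha']
    linarith

theorem one_le_abs_norm {a b : ℤ} (h : gr * a + b ≠ 0) :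
    1 ≤ |(gr * a + b) * (b - a * (gr - 1))| := by
  have e : (gr * a + b) * (b - a * (gr - 1)) = ((b ^ 2 + a * b - a ^ 2 : ℤ) : ℝ) := by
    push_cast
    have := gr_sq
    linear_combination (-(a:ℝ) ^ 2) * this
  rw [e]
  have := Int.one_le_abs (norm_form_ne_zero h)
  exact_mod_cast this

/-- `|fib (m+1) - fib (m+2) (φ-1)| ≤ 1` -/
theorem fib_conj_bound (m : ℕ) : |(Nat.fib m : ℝ) - Nat.fib (m+1) * (gr - 1)| ≤ 1 := by
  have hg1 := one_lt_gr
  have hg2 := gr_lt_two
  have key : ∀ m, (Nat.fib m : ℝ) - Nat.fib (m+1) * (gr - 1) = (-(gr - 1)) ^ (m+1) := by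
    intro m
    induction m with
    | zero => simp
    | succ m ih =>
      have h3 : (Nat.fib (m+2) : ℝ) = Nat.fib (m+1) + Nat.fib m := by
        rw [Nat.fib_add_two]; push_cast; ring
      rw [show m + 1 + 1 = m + 2 by ring, h3, pow_succ]
      have := gr_sq
      linear_combination (-(gr - 1)) * ih - (Nat.fib (m+1) : ℝ) * this
  rw [key, abs_pow, abs_neg]
  apply pow_le_one₀ (abs_nonneg _)
  rw [abs_of_pos (by linarith)]
  linarith

theorem Dl_sep {l : ℝ} (hl : l ≠ 0) {ν : Measure ℝ} {K : ℕ}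
    (hK : ∀ j E, |(nz l j E : ℝ) - Nat.fib j * Fn ν E| ≤ K) (m : ℕ) :
    ∀ x ∈ Dl l ν m, ∀ y ∈ Dl l ν m, x ≠ y →
      (1 / (8 * (4 * K + 2)) : ℝ) / Nat.fib m ≤ |x - y| := by
  rintro x ⟨E, hE, rfl⟩ y ⟨E', hE', rfl⟩ hxy
  rcases Nat.eq_zero_or_pos m with hm | hm
  · subst hm; simp
  · have h1 := label_exact hl hK hm hE
    have h2 := label_exact hl hK hm hE'
    set a : ℤ := (nz l (m+2) E : ℤ) - nz l (m+2) E' with ha
    set b : ℤ := (nz l (m+1) E : ℤ) - nz l (m+1) E' with hb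
    have haR : (a:ℝ) = (nz l (m+2) E : ℝ) - nz l (m+2) E' := by rw [ha]; push_cast; ring
    have hbR : (b:ℝ) = (nz l (m+1) E : ℝ) - nz l (m+1) E' := by rw [hb]; push_cast; ring
    have hg1 := one_lt_gr
    have hg2 := gr_lt_two
    have hfm : (0:ℝ) < Nat.fib m := by exact_mod_cast Nat.fib_pos.mpr hm
    have hfm1 : (0:ℝ) < Nat.fib (m+1) := by exact_mod_cast Nat.fib_pos.mpr (by omega)
    have hfm2 : (0:ℝ) < Nat.fib (m+2) := by exact_mod_cast Nat.fib_pos.mpr (by omega)
    have hdiff : gr * a + b = (Fn ν E - Fn ν E') * (gr * Nat.fib (m+2) + Nat.fib (m+1)) := by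
      rw [haR, hbR]; linear_combination h1 - h2
    have hden : 0 < gr * Nat.fib (m+2) + Nat.fib (m+1) := by positivity
    have hne : gr * (a:ℝ) + b ≠ 0 := by
      rw [hdiff]
      exact mul_ne_zero (sub_ne_zero.mpr hxy) hden.ne'
    have h3 := one_le_abs_norm hne
    rw [abs_mul] at h3
    -- the conjugate is bounded
    have hconj : |(b:ℝ) - a * (gr - 1)| ≤ 4 * K + 2 := by
      have k1 := abs_le.mp (hK (m+2) E)
      have k2 := abs_le.mp (hK (m+2) E')
      have k3 := abs_le.mp (hK (m+1) E)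
      have k4 := abs_le.mp (hK (m+1) E')
      have k5 := fib_conj_bound (m+1)
      rw [show m + 1 + 1 = m + 2 by ring] at k5
      set A1 := (nz l (m+2) E : ℝ) - Nat.fib (m+2) * Fn ν E
      set A2 := (nz l (m+2) E' : ℝ) - Nat.fib (m+2) * Fn ν E'
      set B1 := (nz l (m+1) E : ℝ) - Nat.fib (m+1) * Fn ν E
      set B2 := (nz l (m+1) E' : ℝ) - Nat.fib (m+1) * Fn ν E'
      have e : (b:ℝ) - a * (gr - 1) = (B1 - B2) - (A1 - A2) * (gr - 1) +
          ((Nat.fib (m+1) : ℝ) - Nat.fib (m+2) * (gr - 1)) * (Fn ν E - Fn ν E') := by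
        rw [haR, hbR]
        simp only [A1, A2, B1, B2]
        ring
      have q1 : |B1 - B2| ≤ 2 * K := by
        rw [abs_le]; constructor <;> linarith [k3.1, k3.2, k4.1, k4.2]
      have q2 : |(A1 - A2) * (gr - 1)| ≤ 2 * K := by
        rw [abs_mul, abs_of_pos (by linarith : 0 < gr - 1)]
        have : |A1 - A2| ≤ 2 * K := by
          rw [abs_le]; constructor <;> linarith [k1.1, k1.2, k2.1, k2.2]
        have h0 := abs_nonneg (A1 - A2)
        nlinarith
      have q3 : |Fn ν E - Fn ν E'| ≤ 2 := by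
        -- from the estimate at large levels
        by_contra hc
        rw [not_le] at hc
        obtain ⟨j, hj, hjl⟩ := exists_large_fib (2 * K)
        have c1 := abs_le.mp (hK j E)
        have c2 := abs_le.mp (hK j E')
        have n1 : (nz l j E : ℝ) ≤ Nat.fib j := by
          have : nz l j E ≤ Nat.fib j := by
            unfold nz
            refine (Multiset.card_le_card (Multiset.filter_le _ _)).trans ?_
            rw [card_roots_xq]
          exact_mod_cast this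
        have n2 : (nz l j E' : ℝ) ≤ Nat.fib j := by
          have : nz l j E' ≤ Nat.fib j := by
            unfold nz
            refine (Multiset.card_le_card (Multiset.filter_le _ _)).trans ?_
            rw [card_roots_xq]
          exact_mod_cast this
        have n3 : (0:ℝ) ≤ nz l j E := Nat.cast_nonneg _
        have n4 : (0:ℝ) ≤ nz l j E' := Nat.cast_nonneg _
        have hq : (0:ℝ) < Nat.fib j := by exact_mod_cast Nat.fib_pos.mpr (by omega : 0 < j)
        have hlt : Nat.fib j * |Fn ν E - Fn ν E'| ≤ Nat.fib j + 2 * K := by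
          rw [← abs_of_pos hq, ← abs_mul, abs_of_pos hq, abs_le]
          constructor <;> nlinarith [c1.1, c1.2, c2.1, c2.2]
        nlinarith
      have q4 : |((Nat.fib (m+1) : ℝ) - Nat.fib (m+2) * (gr - 1)) * (Fn ν E - Fn ν E')| ≤ 2 := by
        rw [abs_mul]
        have h0 := abs_nonneg (Fn ν E - Fn ν E')
        have h0' := abs_nonneg ((Nat.fib (m+1) : ℝ) - Nat.fib (m+2) * (gr - 1))
        nlinarith
      rw [e]
      calc _ ≤ |(B1 - B2) - (A1 - A2) * (gr - 1)| +
            |((Nat.fib (m+1) : ℝ) - Nat.fib (m+2) * (gr - 1)) * (Fn ν E - Fn ν E')| := abs_add_le _ _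
        _ ≤ (|B1 - B2| + |(A1 - A2) * (gr - 1)|) + 2 := by
            have := abs_sub (B1 - B2) ((A1 - A2) * (gr - 1))
            linarith
        _ ≤ 4 * K + 2 := by linarith
    have hKp : (0:ℝ) < 4 * K + 2 := by positivity
    have h4 : 1 ≤ |gr * (a:ℝ) + b| * (4 * K + 2) :=
      h3.trans (mul_le_mul_of_nonneg_left hconj (abs_nonneg _))
    rw [hdiff, abs_mul, abs_of_pos hden] at h4
    have hfib : gr * Nat.fib (m+2) + Nat.fib (m+1) ≤ 8 * (Nat.fib m : ℝ) := by
      have e1 : (Nat.fib (m+2) : ℝ) = Nat.fib (m+1) + Nat.fib m := by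
        rw [Nat.fib_add_two]; push_cast; ring
      have e2 : (Nat.fib (m+1) : ℝ) ≤ 2 * Nat.fib m := by
        obtain ⟨k, rfl⟩ : ∃ k, m = k + 1 := ⟨m - 1, by omega⟩
        have : Nat.fib (k+1+1) ≤ 2 * Nat.fib (k+1) := by
          rw [Nat.fib_add_two]
          have := Nat.fib_le_fib_succ (n := k)
          omega
        exact_mod_cast this
      rw [e1]; nlinarith
    rw [div_div, div_le_iff₀ (by positivity)]
    have h5 : |Fn ν E - Fn ν E'| * (gr * Nat.fib (m+2) + Nat.fib (m+1)) * (4 * K + 2) ≤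
        |Fn ν E - Fn ν E'| * (8 * Nat.fib m) * (4 * K + 2) := by
      apply mul_le_mul_of_nonneg_right _ hKp.le
      exact mul_le_mul_of_nonneg_left hfib (abs_nonneg _)
    calc (1:ℝ) ≤ |Fn ν E - Fn ν E'| * (8 * Nat.fib m) * (4 * K + 2) := h4.trans h5
      _ = _ := by ring

end Pool.Agent.H98.Fib
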