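import Mathlib

/-! Estimates for real-rooted polynomials. -/

open Polynomial Finset

namespace Pool.Agent.H98.Fib

namespace PE

variable {n : ℕ} {e : ℕ → ℝ} {A : ℝ}

/-- absolute value of the polynomial -/
noncomputable def F (n : ℕ) (e : ℕ → ℝ) (A E : ℝ) : ℝ := A * ∏ j ∈ range n, |E - e j|

/-- absolute value of the derivative at a root -/
noncomputable def D (n : ℕ) (e : ℕ → ℝ) (A : ℝ) (i : ℕ) : ℝ := A * ∏ j ∈ (range n).erase i, |e i - e j|

/-- the logarithmic second derivative -/
noncomputable def s (n : ℕ) (e : ℕ → ℝ) (i : ℕ) : ℝ := ∑ j ∈ (range n).erase i, 1 / (e i - e j)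

variable (hA : 0 < A) (he : ∀ i i', i < i' → i' < n → e i < e i')

include hA he

lemma D_pos {i : ℕ} (hi : i < n) : 0 < D n e A i := by
  unfold D
  refine mul_pos hA (prod_pos fun j hj => ?_)
  obtain ⟨h1, h2⟩ := mem_erase.1 hj
  rw [mem_range] at h2
  rw [abs_pos, sub_ne_zero]
  rcases lt_or_gt_of_ne h1 with h | h
  · exact (he j i h hi).ne'
  · exact (he i j h h2).ne

omit he in
lemma F_le {i : ℕ} (hi : i < n) (E : ℝ) (hE : ∀ j, j < n → j ≠ i → 0 < (E - e j) / (e i - e j)) :
    F n e A E ≤ |E - e i| * D n e A i * Real.exp (s n e i * (E - e i)) := by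
  unfold F D s
  rw [← mul_prod_erase _ _ (mem_range.2 hi), Finset.sum_mul, Real.exp_sum]
  have h1 : ∏ j ∈ (range n).erase i, |E - e j| ≤
      ∏ j ∈ (range n).erase i, (|e i - e j| * Real.exp (1 / (e i - e j) * (E - e i))) := by
    refine prod_le_prod (fun j _ => abs_nonneg _) fun j hj => ?_
    obtain ⟨h1, h2⟩ := mem_erase.1 hj
    rw [mem_range] at h2
    have h3 := hE j h2 h1
    have hne : e i - e j ≠ 0 := by
      intro h0; rw [h0, div_zero] at h3; exact lt_irrefl _ h3
    have h4 : (E - e j) / (e i - e j) = 1 / (e i - e j) * (E - e i) + 1 := by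
      field_simp; ring
    have h5 : |E - e j| = |e i - e j| * ((E - e j) / (e i - e j)) := by
      rw [← abs_of_pos h3, ← abs_mul]
      congr 1
      field_simp
    rw [h5]
    refine mul_le_mul_of_nonneg_left ?_ (abs_nonneg _)
    rw [h4]
    exact Real.add_one_le_exp _
  rw [prod_mul_distrib] at h1
  calc A * (|E - e i| * ∏ j ∈ (range n).erase i, |E - e j|)
      ≤ A * (|E - e i| * ((∏ j ∈ (range n).erase i, |e i - e j|) *
        ∏ j ∈ (range n).erase i, Real.exp (1 / (e i - e j) * (E - e i)))) := by gcongr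
    _ = _ := by ring

omit hA in
/-- right side -/
lemma side_right {i : ℕ} (hi : i < n) {E : ℝ} (h1 : e i < E) (h2 : i + 1 < n → E < e (i+1)) :
    ∀ j, j < n → j ≠ i → 0 < (E - e j) / (e i - e j) := by
  intro j hj hne
  rcases lt_or_gt_of_ne hne with h | h
  · have := he j i h hi
    exact div_pos (by linarith) (by linarith)
  · have h3 : e (i+1) ≤ e j := by
      rcases eq_or_lt_of_le (Nat.succ_le_of_lt h) with h' | h'
      · rw [← h']
      · exact (he _ _ h' hj).le
    have h4 := h2 (by omega)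
    have := he i j h hj
    exact div_pos_of_neg_of_neg (by linarith) (by linarith)

omit hA in
/-- left side -/
lemma side_left {i : ℕ} (hi : i < n) {E : ℝ} (h1 : E < e i) (h2 : 0 < i → e (i-1) < E) :
    ∀ j, j < n → j ≠ i → 0 < (E - e j) / (e i - e j) := by
  intro j hj hne
  rcases lt_or_gt_of_ne hne with h | h
  · have h3 : e j ≤ e (i-1) := by
      rcases eq_or_lt_of_le (Nat.le_sub_one_of_lt h) with h' | h'
      · rw [← h']
      · exact (he _ _ h' (by omega)).le
    have h4 := h2 (by omega)
    have := he j i h hi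
    exact div_pos (by linarith) (by linarith)
  · have := he i j h hj
    exact div_pos_of_neg_of_neg (by linarith) (by linarith)

variable (ht : ∀ i, i + 1 < n → ∃ E, e i < E ∧ E < e (i+1) ∧ 1 ≤ F n e A E)

include ht

lemma exists_right {i : ℕ} (hi : i < n) :
    ∃ E, e i < E ∧ (i + 1 < n → E < e (i+1)) ∧ 1 ≤ F n e A E := by
  by_cases h : i + 1 < n
  · obtain ⟨E, h1, h2, h3⟩ := ht i h
    exact ⟨E, h1, fun _ => h2, h3⟩
  · have hn : n = i + 1 := by omega
    set T := max 1 (1 / A) with hT
    have hT1 : 1 ≤ T := le_max_left _ _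
    refine ⟨e i + T, by linarith, fun h' => absurd h' h, ?_⟩
    unfold F
    have h1 : T ≤ ∏ j ∈ range n, |e i + T - e j| := by
      have h2 : ∏ j ∈ range n, T ≤ ∏ j ∈ range n, |e i + T - e j| := by
        refine prod_le_prod (fun _ _ => by linarith) fun j hj => ?_
        rw [mem_range] at hj
        have : e j ≤ e i := by
          rcases eq_or_lt_of_le (show j ≤ i by omega) with h' | h'
          · rw [h']
          · exact (he _ _ h' hi).le
        rw [abs_of_nonneg (by linarith)]
        linarith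
      refine le_trans ?_ h2
      rw [prod_const, card_range]
      exact le_self_pow₀ hT1 (by omega)
    calc (1:ℝ) = A * (1 / A) := by field_simp
      _ ≤ A * T := by gcongr; exact le_max_right _ _
      _ ≤ _ := by gcongr

lemma exists_left {i : ℕ} (hi : i < n) :
    ∃ E, E < e i ∧ (0 < i → e (i-1) < E) ∧ 1 ≤ F n e A E := by
  by_cases h : 0 < i
  · obtain ⟨E, h1, h2, h3⟩ := ht (i-1) (by omega)
    rw [Nat.sub_add_cancel h] at h2
    exact ⟨E, h2, fun _ => h1, h3⟩
  · have hi0 : i = 0 := by omega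
    set T := max 1 (1 / A) with hT
    have hT1 : 1 ≤ T := le_max_left _ _
    refine ⟨e i - T, by linarith, fun h' => absurd h' h, ?_⟩
    unfold F
    have h1 : T ≤ ∏ j ∈ range n, |e i - T - e j| := by
      have h2 : ∏ j ∈ range n, T ≤ ∏ j ∈ range n, |e i - T - e j| := by
        refine prod_le_prod (fun _ _ => by linarith) fun j hj => ?_
        rw [mem_range] at hj
        have : e i ≤ e j := by
          rcases eq_or_lt_of_le (show i ≤ j by omega) with h' | h'
          · rw [h']
          · exact (he _ _ h' hj).le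
        rw [abs_of_nonpos (by linarith)]
        linarith
      refine le_trans ?_ h2
      rw [prod_const, card_range]
      exact le_self_pow₀ hT1 (by omega)
    calc (1:ℝ) = A * (1 / A) := by field_simp
      _ ≤ A * T := by gcongr; exact le_max_right _ _
      _ ≤ _ := by gcongr

omit hA he ht in
lemma aux_exp {t σ D : ℝ} (hD : 0 < D) (hσ : 0 < σ) (h : 1 ≤ t * D * Real.exp (-(σ * t))) :
    σ ≤ D * Real.exp (-1) := by
  have h1 : σ * t ≤ Real.exp (σ * t - 1) := by
    have := Real.add_one_le_exp (σ * t - 1); linarith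
  have h2 : σ * t * Real.exp (-(σ * t)) ≤ Real.exp (-1) := by
    calc σ * t * Real.exp (-(σ * t)) ≤ Real.exp (σ * t - 1) * Real.exp (-(σ * t)) := by gcongr
      _ = Real.exp (-1) := by rw [← Real.exp_add]; ring_nf
  calc σ = σ * 1 := by ring
    _ ≤ σ * (t * D * Real.exp (-(σ * t))) := by gcongr
    _ = D * (σ * t * Real.exp (-(σ * t))) := by ring
    _ ≤ D * Real.exp (-1) := by gcongr

/-- (P1) -/
lemma abs_s_le {i : ℕ} (hi : i < n) : |s n e i| ≤ D n e A i * Real.exp (-1) := by
  have hD := D_pos hA he hi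
  rcases lt_trichotomy (s n e i) 0 with h | h | h
  · obtain ⟨E, h1, h2, h3⟩ := exists_right hA he ht hi
    have h4 := F_le hA hi E (side_right he hi h1 h2)
    rw [abs_of_neg h]
    refine aux_exp (t := E - e i) hD (by linarith) ?_
    rw [abs_of_pos (by linarith)] at h4
    rw [neg_mul, neg_neg]
    exact h3.trans h4
  · rw [h, abs_zero]; positivity
  · obtain ⟨E, h1, h2, h3⟩ := exists_left hA he ht hi
    have h4 := F_le hA hi E (side_left he hi h1 h2)
    rw [abs_of_pos h]
    refine aux_exp (t := e i - E) hD h ?_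
    rw [abs_of_neg (by linarith)] at h4
    have e1 : -(s n e i * (e i - E)) = s n e i * (E - e i) := by ring
    have e2 : e i - E = -(E - e i) := by ring
    rw [e1, e2]
    exact h3.trans h4

omit hA he ht in
lemma exp_neg_one_le : Real.exp (-1) ≤ 1 / 2 := by
  rw [Real.exp_neg, inv_eq_one_div]
  have := Real.add_one_le_exp (1:ℝ)
  exact one_div_le_one_div_of_le (by norm_num) (by linarith)

omit hA he ht in
lemma aux_half {t d D σ : ℝ} (hD : 0 < D) (ht0 : 0 < t) (htd : t ≤ d) (hσ : |σ| ≤ D * Real.exp (-1))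
    (h : 1 ≤ t * D * Real.exp (|σ| * t)) : (1 / D) / 2 ≤ d := by
  by_contra hcon
  push Not at hcon
  have hT : D * d < 1 / 2 := by
    have := mul_lt_mul_of_pos_left hcon hD
    have e : D * (1 / D / 2) = 1 / 2 := by field_simp
    linarith
  have h1 : |σ| * t ≤ 1 / 4 := by
    have h2 := exp_neg_one_le
    calc |σ| * t ≤ (D * Real.exp (-1)) * d := by gcongr
      _ = (D * d) * Real.exp (-1) := by ring
      _ ≤ (1 / 2) * (1 / 2) := by gcongr
      _ = 1 / 4 := by norm_num
  have h2 : Real.exp (|σ| * t) ≤ 2 := by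
    have h3 : Real.exp (1/4 : ℝ) ≤ 2 := by
      have h4 : Real.exp (1/4 : ℝ) ^ 4 = Real.exp 1 := by
        rw [← Real.exp_nat_mul]; norm_num
      have h5 := Real.exp_one_lt_d9
      by_contra h6
      push Not at h6
      have : (2:ℝ) ^ 4 < Real.exp (1/4 : ℝ) ^ 4 := by gcongr
      rw [h4] at this
      norm_num at this
      linarith
    exact (Real.exp_le_exp.2 h1).trans h3
  have h3 : t * D * Real.exp (|σ| * t) ≤ (D * d) * 2 := by
    have hd : 0 < d := by linarith
    calc t * D * Real.exp (|σ| * t) ≤ d * D * 2 := by gcongr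
      _ = _ := by ring
  linarith

lemma half {i : ℕ} (hi : i + 1 < n) :
    (1 / D n e A i) / 2 ≤ e (i+1) - e i ∧ (1 / D n e A (i+1)) / 2 ≤ e (i+1) - e i := by
  obtain ⟨E, h1, h2, h3⟩ := ht i hi
  constructor
  · have h4 := F_le hA (show i < n by omega) E (side_right he (by omega) h1 (fun _ => h2))
    refine aux_half (t := E - e i) (D_pos hA he (by omega)) (by linarith) (by linarith)
      (abs_s_le hA he ht (show i < n by omega)) ?_
    rw [abs_of_pos (by linarith)] at h4
    refine (h3.trans h4).trans ?_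
    have := D_pos hA he (show i < n by omega)
    have h5 : 0 < E - e i := by linarith
    gcongr
    exact le_abs_self _
  · have h4 := F_le hA (show i + 1 < n by omega) E
      (side_left he (by omega) h2 (fun _ => by simpa using h1))
    refine aux_half (t := e (i+1) - E) (D_pos hA he hi) (by linarith) (by linarith)
      (abs_s_le hA he ht hi) ?_
    rw [abs_of_neg (by linarith)] at h4
    refine (h3.trans h4).trans ?_
    have := D_pos hA he hi
    have h5 : 0 < e (i+1) - E := by linarith
    have e2 : -(E - e (i+1)) = e (i+1) - E := by ring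
    have e1 : s n e (i+1) * (E - e (i+1)) = -s n e (i+1) * (e (i+1) - E) := by ring
    rw [e2, e1]
    gcongr
    exact neg_le_abs _

omit hA ht in
lemma same_side {i j : ℕ} (hi : i + 1 < n) (hj : j ∈ ((range n).erase i).erase (i+1)) :
    (0 < e i - e j ∧ 0 < e (i+1) - e j) ∨ (e i - e j < 0 ∧ e (i+1) - e j < 0) := by
  obtain ⟨h1, h2⟩ := mem_erase.1 hj
  obtain ⟨h2, h3⟩ := mem_erase.1 h2
  rw [mem_range] at h3
  rcases lt_or_gt_of_ne h2 with h | h
  · left
    have a1 := he j i h (by omega)
    have a2 := he i (i+1) (by omega) hi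
    exact ⟨by linarith, by linarith⟩
  · right
    have a1 := he (i+1) j (by omega) h3
    have a2 := he i (i+1) (by omega) hi
    exact ⟨by linarith, by linarith⟩

omit hA ht in
lemma D_left {i : ℕ} (hi : i + 1 < n) : D n e A i = A * ((e (i+1) - e i) *
    ∏ j ∈ ((range n).erase i).erase (i+1), |e i - e j|) := by
  unfold D
  have h : i + 1 ∈ (range n).erase i := mem_erase.2 ⟨by omega, mem_range.2 hi⟩
  rw [← mul_prod_erase _ _ h]
  have := he i (i+1) (by omega) hi
  rw [abs_sub_comm, abs_of_pos (by linarith : 0 < e (i+1) - e i)]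

omit hA ht in
lemma D_right {i : ℕ} (hi : i + 1 < n) : D n e A (i+1) = A * ((e (i+1) - e i) *
    ∏ j ∈ ((range n).erase i).erase (i+1), |e (i+1) - e j|) := by
  unfold D
  have h : i ∈ (range n).erase (i+1) := mem_erase.2 ⟨by omega, mem_range.2 (by omega)⟩
  rw [← mul_prod_erase _ _ h, erase_right_comm]
  have := he i (i+1) (by omega) hi
  rw [abs_of_pos (by linarith : 0 < e (i+1) - e i)]

omit hA he ht in
lemma s_left {i : ℕ} (hi : i + 1 < n) : s n e i = 1 / (e i - e (i+1)) +
    ∑ j ∈ ((range n).erase i).erase (i+1), 1 / (e i - e j) := by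
  unfold s
  have h : i + 1 ∈ (range n).erase i := mem_erase.2 ⟨by omega, mem_range.2 hi⟩
  rw [← add_sum_erase _ _ h]

omit hA he ht in
lemma s_right {i : ℕ} (hi : i + 1 < n) : s n e (i+1) = 1 / (e (i+1) - e i) +
    ∑ j ∈ ((range n).erase i).erase (i+1), 1 / (e (i+1) - e j) := by
  unfold s
  have h : i ∈ (range n).erase (i+1) := mem_erase.2 ⟨by omega, mem_range.2 (by omega)⟩
  rw [← add_sum_erase _ _ h, erase_right_comm]

omit ht in
/-- (P4), first half -/
lemma D_le_right {i : ℕ} (hi : i + 1 < n) :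
    D n e A i ≤ Real.exp (1 - (e (i+1) - e i) * s n e (i+1)) * D n e A (i+1) := by
  have hd : 0 < e (i+1) - e i := by have := he i (i+1) (by omega) hi; linarith
  have h1 : ∏ j ∈ ((range n).erase i).erase (i+1), |e i - e j| ≤
      ∏ j ∈ ((range n).erase i).erase (i+1),
        (|e (i+1) - e j| * Real.exp (-(e (i+1) - e i) * (1 / (e (i+1) - e j)))) := by
    refine prod_le_prod (fun _ _ => abs_nonneg _) fun j hj => ?_
    have hs := same_side he hi hj
    have hne : e (i+1) - e j ≠ 0 := by rcases hs with h | h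
                                       · exact h.2.ne'
                                       · exact h.2.ne
    have h4 : (e i - e j) / (e (i+1) - e j) =
        -(e (i+1) - e i) * (1 / (e (i+1) - e j)) + 1 := by
      field_simp; ring
    have hpos : 0 < (e i - e j) / (e (i+1) - e j) := by
      rcases hs with h | h
      · exact div_pos h.1 h.2
      · exact div_pos_of_neg_of_neg h.1 h.2
    have h5 : |e i - e j| = |e (i+1) - e j| * ((e i - e j) / (e (i+1) - e j)) := by
      rw [← abs_of_pos hpos, ← abs_mul]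
      congr 1
      field_simp
    rw [h5]
    refine mul_le_mul_of_nonneg_left ?_ (abs_nonneg _)
    rw [h4]
    exact Real.add_one_le_exp _
  rw [prod_mul_distrib, ← Real.exp_sum, ← Finset.mul_sum] at h1
  rw [D_left he hi, D_right he hi]
  have e1 : 1 - (e (i+1) - e i) * s n e (i+1) =
      -(e (i+1) - e i) * ∑ j ∈ ((range n).erase i).erase (i+1), 1 / (e (i+1) - e j) := by
    rw [s_right hi]
    have : (e (i+1) - e i) * (1 / (e (i+1) - e i)) = 1 := by field_simp
    linear_combination -this
  rw [e1]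
  calc _ ≤ A * ((e (i+1) - e i) * ((∏ j ∈ ((range n).erase i).erase (i+1), |e (i+1) - e j|) *
        Real.exp (-(e (i+1) - e i) *
          ∑ j ∈ ((range n).erase i).erase (i+1), 1 / (e (i+1) - e j)))) := by gcongr
    _ = _ := by ring

omit ht in
/-- (P4), second half -/
lemma D_le_left {i : ℕ} (hi : i + 1 < n) :
    D n e A (i+1) ≤ Real.exp (1 + (e (i+1) - e i) * s n e i) * D n e A i := by
  have hd : 0 < e (i+1) - e i := by have := he i (i+1) (by omega) hi; linarith
  have h1 : ∏ j ∈ ((range n).erase i).erase (i+1), |e (i+1) - e j| ≤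
      ∏ j ∈ ((range n).erase i).erase (i+1),
        (|e i - e j| * Real.exp ((e (i+1) - e i) * (1 / (e i - e j)))) := by
    refine prod_le_prod (fun _ _ => abs_nonneg _) fun j hj => ?_
    have hs := same_side he hi hj
    have hne : e i - e j ≠ 0 := by rcases hs with h | h
                                   · exact h.1.ne'
                                   · exact h.1.ne
    have h4 : (e (i+1) - e j) / (e i - e j) =
        (e (i+1) - e i) * (1 / (e i - e j)) + 1 := by
      field_simp; ring
    have hpos : 0 < (e (i+1) - e j) / (e i - e j) := by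
      rcases hs with h | h
      · exact div_pos h.2 h.1
      · exact div_pos_of_neg_of_neg h.2 h.1
    have h5 : |e (i+1) - e j| = |e i - e j| * ((e (i+1) - e j) / (e i - e j)) := by
      rw [← abs_of_pos hpos, ← abs_mul]
      congr 1
      field_simp
    rw [h5]
    refine mul_le_mul_of_nonneg_left ?_ (abs_nonneg _)
    rw [h4]
    exact Real.add_one_le_exp _
  rw [prod_mul_distrib, ← Real.exp_sum, ← Finset.mul_sum] at h1
  rw [D_left he hi, D_right he hi]
  have e1 : 1 + (e (i+1) - e i) * s n e i =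
      (e (i+1) - e i) * ∑ j ∈ ((range n).erase i).erase (i+1), 1 / (e i - e j) := by
    rw [s_left hi]
    have hne : e i - e (i+1) ≠ 0 := by linarith
    have : (e (i+1) - e i) * (1 / (e i - e (i+1))) = -1 := by field_simp; ring
    linear_combination this
  rw [e1]
  calc _ ≤ A * ((e (i+1) - e i) * ((∏ j ∈ ((range n).erase i).erase (i+1), |e i - e j|) *
        Real.exp ((e (i+1) - e i) *
          ∑ j ∈ ((range n).erase i).erase (i+1), 1 / (e i - e j)))) := by gcongr
    _ = _ := by ring

omit ht in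
/-- (P3) -/
lemma mid {i : ℕ} (hi : i + 1 < n) :
    (e (i+1) - e i) ^ 2 * (D n e A i * D n e A (i+1)) ≤
      16 * (F n e A ((e i + e (i+1)) / 2)) ^ 2 := by
  have hd : 0 < e (i+1) - e i := by have := he i (i+1) (by omega) hi; linarith
  have hF : F n e A ((e i + e (i+1)) / 2) = A * ((e (i+1) - e i) / 2 * ((e (i+1) - e i) / 2 *
      ∏ j ∈ ((range n).erase i).erase (i+1), |(e i + e (i+1)) / 2 - e j|)) := by
    unfold F
    have h1 : i ∈ range n := mem_range.2 (by omega)
    have h2 : i + 1 ∈ (range n).erase i := mem_erase.2 ⟨by omega, mem_range.2 hi⟩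
    rw [← mul_prod_erase _ _ h1, ← mul_prod_erase _ _ h2]
    have a1 : |(e i + e (i+1)) / 2 - e i| = (e (i+1) - e i) / 2 := by
      rw [abs_of_pos (by linarith)]; ring
    have a2 : |(e i + e (i+1)) / 2 - e (i+1)| = (e (i+1) - e i) / 2 := by
      rw [abs_of_neg (by linarith)]; ring
    rw [a1, a2]
  rw [hF, D_left he hi, D_right he hi]
  set P := ∏ j ∈ ((range n).erase i).erase (i+1), |(e i + e (i+1)) / 2 - e j| with hP
  set P0 := ∏ j ∈ ((range n).erase i).erase (i+1), |e i - e j| with hP0
  set P1 := ∏ j ∈ ((range n).erase i).erase (i+1), |e (i+1) - e j| with hP1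
  have key : P0 * P1 ≤ P ^ 2 := by
    rw [hP, hP0, hP1, ← prod_mul_distrib, ← prod_pow]
    refine prod_le_prod (fun _ _ => by positivity) fun j hj => ?_
    have hs := same_side he hi hj
    rw [sq_abs, ← abs_mul, abs_of_pos]
    · nlinarith [sq_nonneg (e (i+1) - e i)]
    · rcases hs with h | h
      · exact mul_pos h.1 h.2
      · exact mul_pos_of_neg_of_neg h.1 h.2
  have h3 : (e (i+1) - e i) ^ 4 * A ^ 2 * (P0 * P1) ≤ (e (i+1) - e i) ^ 4 * A ^ 2 * P ^ 2 := by
    gcongr
  calc _ = (e (i+1) - e i) ^ 4 * A ^ 2 * (P0 * P1) := by ring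
    _ ≤ _ := h3
    _ = _ := by ring

lemma height {i : ℕ} (hi : i + 1 < n) {H : ℝ} (hH : 1 ≤ H)
    (hh : ∀ E, e i ≤ E → E ≤ e (i+1) → F n e A E ≤ H) :
    D n e A i ≤ Real.exp (1 + 2 * H) * D n e A (i+1) ∧
    D n e A (i+1) ≤ Real.exp (1 + 2 * H) * D n e A i ∧
    (e (i+1) - e i) * D n e A i ≤ 4 * H * Real.exp (1 + 2 * H) := by
  have hd : 0 < e (i+1) - e i := by have := he i (i+1) (by omega) hi; linarith
  have hD0 := D_pos hA he (show i < n by omega)
  have hD1 := D_pos hA he hi
  have hm := mid hA he hi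
  have hF0 : 0 ≤ F n e A ((e i + e (i+1)) / 2) := by
    unfold F; exact mul_nonneg hA.le (prod_nonneg fun _ _ => abs_nonneg _)
  have hF1 := hh ((e i + e (i+1)) / 2) (by linarith) (by linarith)
  have hm2 : (e (i+1) - e i) ^ 2 * (D n e A i * D n e A (i+1)) ≤ (4 * H) ^ 2 := by
    have : (F n e A ((e i + e (i+1)) / 2)) ^ 2 ≤ H ^ 2 := by gcongr
    nlinarith
  have hs0 := abs_s_le hA he ht (show i < n by omega)
  have hs1 := abs_s_le hA he ht hi
  have hexp := exp_neg_one_le
  have hK : 1 ≤ Real.exp (1 + 2 * H) := Real.one_le_exp (by linarith)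
  have hP4a := D_le_right hA he hi
  have hP4b := D_le_left hA he hi
  set d := e (i+1) - e i with hd'
  set D0 := D n e A i with hD0'
  set D1 := D n e A (i+1) with hD1'
  have hboth : D0 ≤ Real.exp (1 + 2 * H) * D1 ∧ D1 ≤ Real.exp (1 + 2 * H) * D0 := by
    rcases le_total D1 D0 with hc | hc
    · have h1 : d * D1 ≤ 4 * H := by
        have : (d * D1) ^ 2 ≤ (4 * H) ^ 2 := by
          refine le_trans ?_ hm2
          have : D1 * D1 ≤ D0 * D1 := by gcongr
          nlinarith [mul_le_mul_of_nonneg_left this (sq_nonneg d)]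
        exact le_of_sq_le_sq this (by linarith)
      have h2 : d * |s n e (i+1)| ≤ 2 * H := by
        calc d * |s n e (i+1)| ≤ d * (D1 * (1/2)) := by
              gcongr
              exact hs1.trans (by gcongr)
          _ = (d * D1) / 2 := by ring
          _ ≤ 2 * H := by linarith
      constructor
      · refine hP4a.trans ?_
        gcongr
        have : - (d * s n e (i+1)) ≤ d * |s n e (i+1)| := by
          rw [← mul_neg]; gcongr; exact neg_le_abs _
        linarith
      · calc D1 ≤ D0 := hc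
          _ = 1 * D0 := by ring
          _ ≤ _ := by gcongr
    · have h1 : d * D0 ≤ 4 * H := by
        have : (d * D0) ^ 2 ≤ (4 * H) ^ 2 := by
          refine le_trans ?_ hm2
          have : D0 * D0 ≤ D0 * D1 := by gcongr
          nlinarith [mul_le_mul_of_nonneg_left this (sq_nonneg d)]
        exact le_of_sq_le_sq this (by linarith)
      have h2 : d * |s n e i| ≤ 2 * H := by
        calc d * |s n e i| ≤ d * (D0 * (1/2)) := by
              gcongr
              exact hs0.trans (by gcongr)
          _ = (d * D0) / 2 := by ring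
          _ ≤ 2 * H := by linarith
      constructor
      · calc D0 ≤ D1 := hc
          _ = 1 * D1 := by ring
          _ ≤ _ := by gcongr
      · refine hP4b.trans ?_
        have h5 : d * s n e i ≤ d * |s n e i| := by
          gcongr; exact le_abs_self _
        have h6 : Real.exp (1 + d * s n e i) ≤ Real.exp (1 + 2 * H) :=
          Real.exp_le_exp.2 (by linarith)
        gcongr
  refine ⟨hboth.1, hboth.2, ?_⟩
  have h3 : (d * D0) ^ 2 ≤ (4 * H * Real.exp (1 + 2 * H)) ^ 2 := by
    calc (d * D0) ^ 2 = d ^ 2 * (D0 * D0) := by ring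
      _ ≤ d ^ 2 * (D0 * (Real.exp (1 + 2 * H) * D1)) := by gcongr; exact hboth.1
      _ = Real.exp (1 + 2 * H) * (d ^ 2 * (D0 * D1)) := by ring
      _ ≤ Real.exp (1 + 2 * H) * (4 * H) ^ 2 := by gcongr
      _ = 1 * (Real.exp (1 + 2 * H) * (4 * H) ^ 2) := by ring
      _ ≤ Real.exp (1 + 2 * H) * (Real.exp (1 + 2 * H) * (4 * H) ^ 2) := by gcongr
      _ = _ := by ring
  exact le_of_sq_le_sq h3 (by positivity)

omit hA he ht in
lemma abs_eval (n : ℕ) (e : ℕ → ℝ) (a E : ℝ) :
    |(C a * ∏ i ∈ range n, (X - C (e i))).eval E| = F n e |a| E := by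
  unfold F
  rw [eval_mul, eval_C, eval_prod, abs_mul, abs_prod]
  simp

omit hA he ht in
lemma abs_deriv (n : ℕ) (e : ℕ → ℝ) (a : ℝ) {i : ℕ} (hi : i < n) :
    |(derivative (C a * ∏ i ∈ range n, (X - C (e i)))).eval (e i)| = D n e |a| i := by
  unfold D
  rw [← mul_prod_erase _ _ (mem_range.2 hi), derivative_C_mul, derivative_mul]
  simp only [derivative_sub, derivative_X, derivative_C, sub_zero, one_mul, eval_mul, eval_add,
    eval_C, eval_sub, eval_X, sub_self, zero_mul, add_zero]
  rw [eval_prod, abs_mul, abs_prod]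
  simp

end PE

/-- A real-rooted polynomial with leading coefficient `a` and roots `e 0 < … < e (n-1)` such that
`|p| ≥ 1` somewhere between any two consecutive roots. Half the reciprocal of the derivative at a root
is at most the distance to the neighbouring root. -/
theorem half_inv_le_gap (n : ℕ) (e : ℕ → ℝ) (a : ℝ) (ha : a ≠ 0)
    (he : ∀ i i', i < i' → i' < n → e i < e i')
    (p : ℝ[X]) (hp : p = C a * ∏ i ∈ range n, (X - C (e i)))
    (htall : ∀ i, i + 1 < n → ∃ E, e i < E ∧ E < e (i+1) ∧ 1 ≤ |p.eval E|)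
    (i : ℕ) (hi : i + 1 < n) :
    (1 / |p.derivative.eval (e i)|) / 2 ≤ e (i+1) - e i ∧
    (1 / |p.derivative.eval (e (i+1))|) / 2 ≤ e (i+1) - e i := by
  subst hp
  simp only [PE.abs_eval] at htall
  rw [PE.abs_deriv n e a (show i < n by omega), PE.abs_deriv n e a hi]
  exact PE.half (abs_pos.2 ha) he htall hi

/-- If moreover `|p| ≤ H` on `[e i, e (i+1)]`, then the three scales are comparable. -/
theorem gap_le_of_height (n : ℕ) (e : ℕ → ℝ) (a : ℝ) (ha : a ≠ 0)
    (he : ∀ i i', i < i' → i' < n → e i < e i')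
    (p : ℝ[X]) (hp : p = C a * ∏ i ∈ range n, (X - C (e i)))
    (htall : ∀ i, i + 1 < n → ∃ E, e i < E ∧ E < e (i+1) ∧ 1 ≤ |p.eval E|)
    (H : ℝ) (hH : 1 ≤ H) (i : ℕ) (hi : i + 1 < n)
    (hheight : ∀ E, e i ≤ E → E ≤ e (i+1) → |p.eval E| ≤ H) :
    e (i+1) - e i ≤ 4 * H * Real.exp (1 + 2 * H) * (1 / |p.derivative.eval (e i)|) ∧
    1 / |p.derivative.eval (e i)| ≤
      Real.exp (1 + 2 * H) * (1 / |p.derivative.eval (e (i+1))|) ∧
    1 / |p.derivative.eval (e (i+1))| ≤
      Real.exp (1 + 2 * H) * (1 / |p.derivative.eval (e i)|) := by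
  subst hp
  simp only [PE.abs_eval] at htall hheight
  rw [PE.abs_deriv n e a (show i < n by omega), PE.abs_deriv n e a hi]
  have hA := abs_pos.2 ha
  obtain ⟨h1, h2, h3⟩ := PE.height hA he htall hi hH hheight
  have hD0 := PE.D_pos hA he (show i < n by omega)
  have hD1 := PE.D_pos hA he hi
  refine ⟨?_, ?_, ?_⟩
  · rw [mul_one_div, le_div_iff₀ hD0]; exact h3
  · rw [mul_one_div, div_le_div_iff₀ hD0 hD1, one_mul]; exact h2
  · rw [mul_one_div, div_le_div_iff₀ hD1 hD0, one_mul]; exact h1

end Pool.Agent.H98.Fib
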