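import Pool.Agent.H98.Fib.MonoC
import Pool.Agent.H98.Fib.Labels
import Pool.Agent.H98.Fib.PolyEst
import Pool.Agent.H98.Fib.Dim

/-! Final assembly. -/

open Matrix Polynomial Finset Filter Topology MeasureTheory

namespace Pool.Agent.H98.Fib

theorem exists_depth (C' c : ℝ) (hc : 0 < c) : ∃ m : ℕ, 1 ≤ m ∧ ∀ j, m ≤ j →
    2 * C' * (Nat.fib (j + 1 - m) : ℝ) < c * (Nat.fib j : ℝ) := by
  obtain ⟨m, hm, hfib⟩ := exists_large_fib (2 * C' / c)
  refine ⟨m, by omega, fun j hj => ?_⟩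
  rw [div_lt_iff₀ hc] at hfib
  have h1 : Nat.fib (j + 1 - m) * Nat.fib m ≤ Nat.fib j := by
    have h := Nat.fib_add (j - m) (m - 1)
    have e1 : j - m + (m - 1) + 1 = j := by omega
    have e2 : j - m + 1 = j + 1 - m := by omega
    have e3 : m - 1 + 1 = m := by omega
    rw [e1, e2, e3] at h
    rw [h]
    omega
  have h1' : (Nat.fib (j + 1 - m) : ℝ) * Nat.fib m ≤ Nat.fib j := by exact_mod_cast h1
  have h2 : (0:ℝ) < Nat.fib (j + 1 - m) := by exact_mod_cast Nat.fib_pos.mpr (by omega)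
  calc 2 * C' * (Nat.fib (j + 1 - m) : ℝ) < (Nat.fib m * c) * (Nat.fib (j + 1 - m) : ℝ) :=
        mul_lt_mul_of_pos_right hfib h2
    _ = c * ((Nat.fib (j + 1 - m) : ℝ) * Nat.fib m) := by ring
    _ ≤ c * (Nat.fib j : ℝ) := mul_le_mul_of_nonneg_left h1' hc.le

theorem nz_between {l : ℝ} {j i : ℕ} (h : i + 1 < Nat.fib j) {E : ℝ} (h1 : ez l j i ≤ E)
    (h2 : E ≤ ez l j (i+1)) : i + 1 ≤ nz l j E ∧ nz l j E ≤ i + 2 := by
  constructor
  · exact (ez_le_iff l j i (by omega) E).mp h1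
  · rcases Nat.lt_or_ge (i+2) (Nat.fib j) with h3 | h3
    · by_contra hc
      have h4 := (ez_le_iff l j (i+2) h3 E).mpr (by omega)
      have h5 := ez_lt l j (i+1) (i+2) (by omega) h3
      linarith
    · have : nz l j E ≤ Nat.fib j := by
        unfold nz
        refine (Multiset.card_le_card (Multiset.filter_le _ _)).trans ?_
        rw [card_roots_xq]
      omega

/-- **Main theorem**: the Hausdorff dimension of the density of states measure is non-increasing. -/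
theorem dim_dos_le (l₁ l₂ : ℝ) (h0 : 0 < l₁) (h12 : l₁ ≤ l₂) (ν₁ ν₂ : Measure ℝ)
    (h1 : IsDOS l₁ ν₁) (h2 : IsDOS l₂ ν₂) : dimMeasure ν₂ ≤ dimMeasure ν₁ := by
  have := h1.1
  have := h2.1
  have hl2 : 0 < l₂ := by linarith
  obtain ⟨K, hK⟩ := dos_estimate
  set J : ℕ := 4 * K + 10 with hJ
  set c : ℝ := 1 / (8 * (4 * K + 2)) with hc
  have hcpos : 0 < c := by rw [hc]; positivity
  set C' : ℝ := K + 2 + J with hC'
  have hC'pos : 0 < C' := by rw [hC']; positivity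
  obtain ⟨m, hm1, hm⟩ := exists_depth C' c hcpos
  set H : ℝ := Hb l₂ (m - 1) with hH
  have hH1 : 1 ≤ H := one_le_Hb l₂ (m-1)
  set bad : ℕ → Set ℝ := fun j => {t | ∃ i, i + 1 < Nat.fib j ∧ |(i:ℝ) - Nat.fib j * t| ≤ J ∧
    ∃ E, ez l₂ j i ≤ E ∧ E ≤ ez l₂ j (i+1) ∧ H < |xv l₂ E j|} with hbad
  have hBC := bc_good (Dl l₂ ν₂) c C' hcpos hC'pos m (Dl_mono l₂ ν₂) (Dl_sub l₂ ν₂)
    (Dl_sep hl2.ne' (hK l₂ ν₂ h2)) hm bad (by
      rintro j hj t ⟨i, hi, hit, E, hE1, hE2, hE3⟩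
      have hesc : Esc l₂ E (j - m) := by
        apply esc_of_large (t := m - 1)
        have e : j - m + 1 + (m - 1) = j := by omega
        rw [e]; exact hE3
      refine ⟨Fn ν₂ E, ⟨E, hesc, rfl⟩, ?_⟩
      have hq : (0:ℝ) < Nat.fib j := by exact_mod_cast (by omega : 0 < Nat.fib j)
      rw [le_div_iff₀ hq]
      obtain ⟨n1, n2⟩ := nz_between hi hE1 hE2
      have n1' : (i:ℝ) + 1 ≤ nz l₂ j E := by exact_mod_cast n1
      have n2' : (nz l₂ j E : ℝ) ≤ i + 2 := by exact_mod_cast n2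
      have hk := abs_le.mp (hK l₂ ν₂ h2 j E)
      have hit' := abs_le.mp hit
      have e : |t - Fn ν₂ E| * Nat.fib j = |Nat.fib j * t - Nat.fib j * Fn ν₂ E| := by
        rw [← mul_sub, abs_mul, abs_of_pos hq]; ring
      rw [e, abs_le]
      unfold Fn at *
      constructor <;> linarith [hk.1, hk.2, hit'.1, hit'.2])
  set A : ℝ := 4 * H * Real.exp (1 + 2 * H) with hA
  have hexp : 1 ≤ Real.exp (1 + 2 * H) := Real.one_le_exp (by linarith)
  have hA1 : Real.exp (1 + 2 * H) ≤ A := by rw [hA]; nlinarith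
  apply dim_comparison ν₁ ν₂ (ez l₁) (ez l₂) (rz l₁) (rz l₂) K J A le_rfl (hexp.trans hA1)
    (fun j i i' h h' => ez_lt l₁ j i i' h h') (fun j i i' h h' => ez_lt l₂ j i i' h h')
    (fun j E => by rw [card_filter_ez]; exact hK l₁ ν₁ h1 j E)
    (fun j E => by rw [card_filter_ez]; exact hK l₂ ν₂ h2 j E)
    (rz_pos l₁) (rz_pos l₂) ?_ ?_ (fun j => (bad j)ᶜ) ?_ hBC
  · intro j i hi
    have hj : 1 ≤ j := by
      rcases Nat.eq_zero_or_pos j with h | h
      · subst h; simp at hi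
      · exact h
    exact half_inv_le_gap (Nat.fib j) (ez l₁ j) (1/2) (by norm_num)
      (fun i i' h h' => ez_lt l₁ j i i' h h') (xq l₁ j) (xq_prod l₁ j hj)
      (fun i hi => xq_tall l₁ h0.ne' j i hi) i hi
  · intro j i hi
    unfold rz
    apply one_div_le_one_div_of_le (abs_pos.mpr (deriv_ne_zero l₁ j i hi))
    exact deriv_mono j i hi l₁ l₂ h0 h12
  · intro j t ht i hi hit
    have hj : 1 ≤ j := by
      rcases Nat.eq_zero_or_pos j with h | h
      · subst h; simp at hi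
      · exact h
    have hheight : ∀ E, ez l₂ j i ≤ E → E ≤ ez l₂ j (i+1) → |(xq l₂ j).eval E| ≤ H := by
      intro E hE1 hE2
      by_contra hcon
      apply ht
      exact ⟨i, hi, hit, E, hE1, hE2, not_le.mp hcon⟩
    have hmain := gap_le_of_height (Nat.fib j) (ez l₂ j) (1/2) (by norm_num)
      (fun i i' h h' => ez_lt l₂ j i i' h h') (xq l₂ j) (xq_prod l₂ j hj)
      (fun i hi => xq_tall l₂ hl2.ne' j i hi) H hH1 i hi hheight
    have r1 := rz_pos l₂ j i (by omega)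
    have r2 := rz_pos l₂ j (i+1) hi
    refine ⟨hmain.1, ?_, ?_⟩
    · exact hmain.2.1.trans (mul_le_mul_of_nonneg_right hA1 r2.le)
    · exact hmain.2.2.trans (mul_le_mul_of_nonneg_right hA1 r1.le)

end Pool.Agent.H98.Fib
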