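import Pool.Agent.H98.Fib.Esc

/-! The integrated density of states. -/

open Matrix Polynomial Finset Filter Topology MeasureTheory

namespace Pool.Agent.H98.Fib

/-- Dirichlet count on the sites `1, …, N` with phase `ω` -/
noncomputable def dc (l ω : ℝ) (N : ℕ) (E : ℝ) : ℕ := cnt (Jc (vw l ω) N 0) E

theorem dc_add (l ω : ℝ) (a b : ℕ) (E : ℝ) :
    |((dc l ω (a+b) E : ℕ) : ℝ) - (dc l ω a E + dc l (ω + a * al) b E)| ≤ 1 := by
  have h := cnt_cut (vw l ω) a b E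
  rw [vw_shift] at h
  unfold dc
  obtain ⟨h1, h2⟩ := h
  have h1' : ((cnt (Jc (vw l ω) (a+b) 0) E : ℕ) : ℝ) ≤ cnt (Jc (vw l ω) a 0) E +
    cnt (Jc (vw l (ω + a * al)) b 0) E + 1 := by exact_mod_cast h1
  have h2' : ((cnt (Jc (vw l ω) a 0) E : ℕ) : ℝ) + cnt (Jc (vw l (ω + a * al)) b 0) E ≤
    cnt (Jc (vw l ω) (a+b) 0) E + 1 := by exact_mod_cast h2
  rw [abs_le]
  constructor <;> linarith

theorem dc_le (l ω : ℝ) (N : ℕ) (E : ℝ) : dc l ω N E ≤ N := by
  have := cnt_le_card (Jc (vw l ω) N 0) E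
  simpa [dc] using this

theorem tile {K : ℕ} (hK : ∀ (l : ℝ) (j : ℕ), 2 ≤ j → ∀ (ω E : ℝ),
    cnt (Jc (vw l ω) (Nat.fib j) 0) E ≤ nz l j E + K ∧
    nz l j E ≤ cnt (Jc (vw l ω) (Nat.fib j) 0) E + K) (l : ℝ) (j : ℕ) (hj : 2 ≤ j) (E : ℝ)
    (m : ℕ) : ∀ ω : ℝ, |((dc l ω (Nat.fib j * m) E : ℕ) : ℝ) - m * nz l j E| ≤ m * (K + 1) := by
  induction m with
  | zero =>
    intro ω
    have := dc_le l ω 0 E
    have h0 : dc l ω 0 E = 0 := by omega
    simp [h0]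
  | succ m ih =>
    intro ω
    have h1 := dc_add l ω (Nat.fib j) (Nat.fib j * m) E
    have h2 := ih (ω + Nat.fib j * al)
    have h3 := hK l j hj ω E
    have h3a : ((dc l ω (Nat.fib j) E : ℕ) : ℝ) ≤ nz l j E + K := by
      unfold dc; exact_mod_cast h3.1
    have h3b : ((nz l j E : ℕ) : ℝ) ≤ dc l ω (Nat.fib j) E + K := by
      unfold dc; exact_mod_cast h3.2
    have e : Nat.fib j * (m + 1) = Nat.fib j + Nat.fib j * m := by ring
    rw [e]
    rw [abs_le] at h1 h2 ⊢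
    push_cast
    constructor <;> nlinarith

theorem ratio_bound {K : ℕ} (hK : ∀ (l : ℝ) (j : ℕ), 2 ≤ j → ∀ (ω E : ℝ),
    cnt (Jc (vw l ω) (Nat.fib j) 0) E ≤ nz l j E + K ∧
    nz l j E ≤ cnt (Jc (vw l ω) (Nat.fib j) 0) E + K) (l : ℝ) (j : ℕ) (hj : 2 ≤ j) (E ω : ℝ)
    (N : ℕ) (hN : 1 ≤ N) :
    |((dc l ω N E : ℕ) : ℝ) / N - (nz l j E : ℝ) / Nat.fib j| ≤
      (K + 1) / Nat.fib j + 2 * Nat.fib j / N := by
  have hq : 0 < Nat.fib j := Nat.fib_pos.mpr (by omega)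
  set q := Nat.fib j with hqdef
  have hNq : N = q * (N / q) + N % q := (Nat.div_add_mod N q).symm
  set m := N / q
  set r := N % q
  have hr : r < q := Nat.mod_lt _ hq
  have h1 := dc_add l ω (q * m) r E
  rw [← hNq] at h1
  have h2 := tile hK l j hj E m ω
  rw [← hqdef] at h2
  have h3 : ((dc l (ω + (q * m : ℕ) * al) r E : ℕ) : ℝ) ≤ r := by exact_mod_cast dc_le _ _ _ _
  have h3' : (0:ℝ) ≤ ((dc l (ω + (q * m : ℕ) * al) r E : ℕ) : ℝ) := Nat.cast_nonneg _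
  have hnz : ((nz l j E : ℕ) : ℝ) ≤ q := by
    have : nz l j E ≤ q := by
      unfold nz
      refine (Multiset.card_le_card (Multiset.filter_le _ _)).trans ?_
      rw [card_roots_xq]
    exact_mod_cast this
  have hnz0 : (0:ℝ) ≤ ((nz l j E : ℕ) : ℝ) := Nat.cast_nonneg _
  have hqr : (0:ℝ) < q := by exact_mod_cast hq
  have hNr : (0:ℝ) < N := by exact_mod_cast hN
  have hrq : (r:ℝ) + 1 ≤ q := by exact_mod_cast hr
  have hr0 : (0:ℝ) ≤ r := Nat.cast_nonneg _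
  have hm0 : (0:ℝ) ≤ m := Nat.cast_nonneg _
  have hNe : (N:ℝ) = q * m + r := by exact_mod_cast hNq
  have hkey : |((dc l ω N E : ℕ) : ℝ) - N * ((nz l j E : ℝ) / q)| ≤ m * (K + 1) + 2 * q := by
    have e : (N:ℝ) * ((nz l j E : ℝ) / q) = m * nz l j E + r * ((nz l j E : ℝ) / q) := by
      rw [hNe]; field_simp
    rw [e]
    have hdiv : (nz l j E : ℝ) / q ≤ 1 := by rw [div_le_one hqr]; exact hnz
    have hdiv0 : 0 ≤ (nz l j E : ℝ) / q := by positivity
    have h4 : 0 ≤ r * ((nz l j E : ℝ) / q) := by positivity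
    have h5 : r * ((nz l j E : ℝ) / q) ≤ r := by nlinarith
    rw [abs_le] at h1 h2 ⊢
    push_cast at h1 h2 h3 h3' ⊢
    constructor
    · linarith
    · linarith
  have e2 : ((dc l ω N E : ℕ) : ℝ) / N - (nz l j E : ℝ) / q =
      (((dc l ω N E : ℕ) : ℝ) - N * ((nz l j E : ℝ) / q)) / N := by
    field_simp
  rw [e2, abs_div, abs_of_pos hNr, div_le_iff₀ hNr]
  refine hkey.trans ?_
  have e3 : ((K + 1 : ℝ) / q + 2 * q / N) * N = (K + 1) * (N / q) + 2 * q := by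
    field_simp
  rw [e3]
  have : (m : ℝ) ≤ N / q := by
    rw [le_div_iff₀ hqr, hNe]; nlinarith
  have hK1 : (0:ℝ) ≤ K + 1 := by positivity
  nlinarith

theorem fib_tendsto : Tendsto (fun j => (Nat.fib j : ℝ)) atTop atTop := by
  apply tendsto_natCast_atTop_atTop.comp
  rw [tendsto_atTop_atTop]
  intro b
  refine ⟨b + 5, fun a ha => ?_⟩
  have := Nat.le_fib_add_one a
  omega

/-- existence of the integrated density of states, independent of the phase -/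
theorem exists_F : ∃ K : ℕ, ∀ l : ℝ, ∃ F : ℝ → ℝ,
    (∀ ω E, Tendsto (fun N : ℕ => ((dc l ω N E : ℕ) : ℝ) / N) atTop (𝓝 (F E))) ∧
    ∀ j, 2 ≤ j → ∀ E, |(nz l j E : ℝ) - Nat.fib j * F E| ≤ K := by
  obtain ⟨K, hK⟩ := window_count
  refine ⟨K + 1, fun l => ?_⟩
  have hlim : ∀ E, ∃ L, Tendsto (fun N : ℕ => ((dc l 0 N E : ℕ) : ℝ) / N) atTop (𝓝 L) := by
    intro E
    apply cauchySeq_tendsto_of_complete
    rw [Metric.cauchySeq_iff']
    intro ε hε
    have hj : ∀ᶠ j in atTop, (8 * (K + 1) / ε : ℝ) < Nat.fib j := fib_tendsto.eventually_gt_atTop _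
    obtain ⟨j, hj1, hj2⟩ := (hj.and (eventually_ge_atTop 2)).exists
    have hq : (0:ℝ) < Nat.fib j := by exact_mod_cast Nat.fib_pos.mpr (by omega : 0 < j)
    have hN : ∀ᶠ N : ℕ in atTop, (16 * Nat.fib j / ε : ℝ) < N :=
      tendsto_natCast_atTop_atTop.eventually_gt_atTop _
    obtain ⟨N0, hN0⟩ := (hN.and (eventually_ge_atTop 1)).exists_forall_of_atTop
    refine ⟨N0, fun N hN' => ?_⟩
    have key : ∀ N, N0 ≤ N → |((dc l 0 N E : ℕ) : ℝ) / N - (nz l j E : ℝ) / Nat.fib j| < ε / 2 := by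
      intro N hN
      obtain ⟨h1, h2⟩ := hN0 N hN
      have hb := ratio_bound hK l j hj2 E 0 N h2
      have hNr : (0:ℝ) < N := by exact_mod_cast h2
      have a1 : (K + 1 : ℝ) / Nat.fib j < ε / 8 := by
        rw [div_lt_iff₀ hq]
        rw [div_lt_iff₀ hε] at hj1
        linarith
      have a2 : 2 * (Nat.fib j : ℝ) / N < ε / 8 := by
        rw [div_lt_iff₀ hNr]
        rw [div_lt_iff₀ hε] at h1
        linarith
      linarith
    have k1 := key N hN'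
    have k2 := key N0 le_rfl
    rw [Real.dist_eq]
    have := abs_sub_le (((dc l 0 N E : ℕ) : ℝ) / N) ((nz l j E : ℝ) / Nat.fib j)
      (((dc l 0 N0 E : ℕ) : ℝ) / N0)
    rw [abs_sub_comm ((nz l j E : ℝ) / Nat.fib j)] at this
    linarith
  choose F hF using hlim
  have hF2 : ∀ j, 2 ≤ j → ∀ E, |F E - (nz l j E : ℝ) / Nat.fib j| ≤ (K + 1) / Nat.fib j := by
    intro j hj E
    have hq : (0:ℝ) < Nat.fib j := by exact_mod_cast Nat.fib_pos.mpr (by omega : 0 < j)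
    have t1 : Tendsto (fun N : ℕ => |((dc l 0 N E : ℕ) : ℝ) / N - (nz l j E : ℝ) / Nat.fib j|)
        atTop (𝓝 |F E - (nz l j E : ℝ) / Nat.fib j|) := ((hF E).sub_const _).abs
    have t2 : Tendsto (fun N : ℕ => (K + 1 : ℝ) / Nat.fib j + 2 * Nat.fib j / N) atTop
        (𝓝 ((K + 1 : ℝ) / Nat.fib j + 0)) := by
      apply Tendsto.const_add
      exact tendsto_const_div_atTop_nhds_zero_nat _
    rw [add_zero] at t2
    apply le_of_tendsto_of_tendsto t1 t2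
    filter_upwards [eventually_ge_atTop 1] with N hN
    exact ratio_bound hK l j hj E 0 N hN
  refine ⟨F, ?_, ?_⟩
  · intro ω E
    rw [Metric.tendsto_atTop]
    intro ε hε
    have hj : ∀ᶠ j in atTop, (8 * (K + 1) / ε : ℝ) < Nat.fib j := fib_tendsto.eventually_gt_atTop _
    obtain ⟨j, hj1, hj2⟩ := (hj.and (eventually_ge_atTop 2)).exists
    have hq : (0:ℝ) < Nat.fib j := by exact_mod_cast Nat.fib_pos.mpr (by omega : 0 < j)
    have hN : ∀ᶠ N : ℕ in atTop, (16 * Nat.fib j / ε : ℝ) < N :=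
      tendsto_natCast_atTop_atTop.eventually_gt_atTop _
    obtain ⟨N0, hN0⟩ := (hN.and (eventually_ge_atTop 1)).exists_forall_of_atTop
    refine ⟨N0, fun N hN' => ?_⟩
    obtain ⟨h1, h2⟩ := hN0 N hN'
    have hb := ratio_bound hK l j hj2 E ω N h2
    have hc := hF2 j hj2 E
    have hNr : (0:ℝ) < N := by exact_mod_cast h2
    have a1 : (K + 1 : ℝ) / Nat.fib j < ε / 8 := by
      rw [div_lt_iff₀ hq]
      rw [div_lt_iff₀ hε] at hj1
      linarith
    have a2 : 2 * (Nat.fib j : ℝ) / N < ε / 8 := by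
      rw [div_lt_iff₀ hNr]
      rw [div_lt_iff₀ hε] at h1
      linarith
    rw [Real.dist_eq]
    have := abs_sub_le (((dc l ω N E : ℕ) : ℝ) / N) ((nz l j E : ℝ) / Nat.fib j) (F E)
    rw [abs_sub_comm ((nz l j E : ℝ) / Nat.fib j)] at this
    linarith
  · intro j hj E
    have hq : (0:ℝ) < Nat.fib j := by exact_mod_cast Nat.fib_pos.mpr (by omega : 0 < j)
    have h := hF2 j hj E
    have e : (nz l j E : ℝ) - Nat.fib j * F E =
      - (Nat.fib j * (F E - (nz l j E : ℝ) / Nat.fib j)) := by field_simp; ring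
    rw [e, abs_neg, abs_mul, abs_of_pos hq]
    calc (Nat.fib j : ℝ) * |F E - (nz l j E : ℝ) / Nat.fib j|
        ≤ Nat.fib j * ((K + 1) / Nat.fib j) := mul_le_mul_of_nonneg_left h hq.le
      _ = ((K + 1 : ℕ) : ℝ) := by push_cast; field_simp

end Pool.Agent.H98.Fib
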