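import Pool.Agent.H98.Fib.Defs
import Pool.Agent.H98.Fib.Count

/-! Periodic and Dirichlet Jacobi matrices. -/

open Matrix Polynomial Finset

namespace Pool.Agent.H98.Fib

/-- transfer matrix over the sites `0, …, n-1` -/
noncomputable def TM (v : ℕ → ℝ) (E : ℝ) : ℕ → Matrix (Fin 2) (Fin 2) ℝ
  | 0 => 1
  | (n+1) => !![E - v n, -1; 1, 0] * TM v E n

/-- Jacobi matrix with diagonal `v 0, …, v (n-1)`, off-diagonal entries one and corner entries
`c` (at `(n-1,0)`) and `conj c` (at `(0,n-1)`). -/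
noncomputable def Jc (v : ℕ → ℝ) (n : ℕ) (c : ℂ) : Matrix (Fin n) (Fin n) ℂ :=
  Matrix.of fun i j => (if i = j then (v i : ℂ) else 0) + (if (i:ℕ) + 1 = j then 1 else 0)
    + (if (j:ℕ) + 1 = i then 1 else 0) + (if (i:ℕ) + 1 = n ∧ (j:ℕ) = 0 then c else 0)
    + (if (j:ℕ) + 1 = n ∧ (i:ℕ) = 0 then star c else 0)

theorem Jc_apply (v : ℕ → ℝ) (n : ℕ) (c : ℂ) (i j : Fin n) :
    Jc v n c i j = (if i = j then (v i : ℂ) else 0) + (if (i:ℕ) + 1 = j then 1 else 0)
    + (if (j:ℕ) + 1 = i then 1 else 0) + (if (i:ℕ) + 1 = n ∧ (j:ℕ) = 0 then c else 0)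
    + (if (j:ℕ) + 1 = n ∧ (i:ℕ) = 0 then star c else 0) := rfl

theorem Jc_isHermitian (v : ℕ → ℝ) (n : ℕ) (c : ℂ) : (Jc v n c).IsHermitian := by
  ext i j
  rw [Matrix.conjTranspose_apply, Jc_apply, Jc_apply]
  simp only [star_add, apply_ite star, star_star, star_zero, star_one]
  have h1 : star ((v j : ℝ) : ℂ) = (v j : ℂ) := Complex.conj_ofReal _
  rw [h1]
  by_cases hij : i = j
  · subst hij; simp; ring
  · rw [if_neg hij, if_neg (Ne.symm hij)]; ring

/-- the extension of a vector by the boundary condition -/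
noncomputable def ext (n : ℕ) (c : ℂ) (x : Fin n → ℂ) (k : ℕ) : ℂ :=
  if k = 0 then (if h : n - 1 < n then star c * x ⟨n-1, h⟩ else 0)
  else if h : k - 1 < n then x ⟨k-1, h⟩
  else if k = n + 1 then (if h : 0 < n then c * x ⟨0, h⟩ else 0) else 0

theorem sum_ite_fin {n : ℕ} (f : Fin n → ℂ) (k : ℕ) :
    (∑ j : Fin n, if k = (j:ℕ) then f j else 0) = if h : k < n then f ⟨k, h⟩ else 0 := by
  split_ifs with h
  · rw [Finset.sum_eq_single (⟨k, h⟩ : Fin n)]
    · simp
    · intro b _ hb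
      rw [if_neg]
      intro h2; apply hb; ext; simp [h2]
    · simp
  · apply Finset.sum_eq_zero
    intro j _
    rw [if_neg]; omega

theorem Jc_mulVec (v : ℕ → ℝ) (n : ℕ) (c : ℂ) (x : Fin n → ℂ) (i : Fin n) :
    (Jc v n c *ᵥ x) i = (v i : ℂ) * ext n c x (i+1) + ext n c x (i+2) + ext n c x i := by
  have hi := i.2
  have key : (Jc v n c *ᵥ x) i =
      (∑ j : Fin n, if (i:ℕ) = (j:ℕ) then (v i : ℂ) * x j else 0)
      + (∑ j : Fin n, if (i:ℕ) + 1 = (j:ℕ) then x j else 0)
      + (∑ j : Fin n, if (j:ℕ) + 1 = (i:ℕ) then x j else 0)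
      + (∑ j : Fin n, if (i:ℕ) + 1 = n ∧ (j:ℕ) = 0 then c * x j else 0)
      + (∑ j : Fin n, if (j:ℕ) + 1 = n ∧ (i:ℕ) = 0 then star c * x j else 0) := by
    rw [Matrix.mulVec, dotProduct, ← Finset.sum_add_distrib, ← Finset.sum_add_distrib,
      ← Finset.sum_add_distrib, ← Finset.sum_add_distrib]
    apply Finset.sum_congr rfl
    intro j _
    rw [Jc_apply]
    have : (i = j) = ((i:ℕ) = (j:ℕ)) := by rw [Fin.ext_iff]
    simp only [this, add_mul, ite_mul, zero_mul, one_mul]
  rw [key, sum_ite_fin, sum_ite_fin, dif_pos hi]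
  have h3 : (∑ j : Fin n, if (j:ℕ) + 1 = (i:ℕ) then x j else 0)
      = if h : 0 < (i:ℕ) then x ⟨i - 1, by omega⟩ else 0 := by
    split_ifs with h
    · rw [Finset.sum_eq_single (⟨i - 1, by omega⟩ : Fin n)]
      · rw [if_pos]; simp; omega
      · intro b _ hb
        rw [if_neg]
        intro h2; apply hb; ext; simp; omega
      · simp
    · apply Finset.sum_eq_zero
      intro j _
      rw [if_neg]; omega
  have h4 : (∑ j : Fin n, if (i:ℕ) + 1 = n ∧ (j:ℕ) = 0 then c * x j else 0)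
      = if (i:ℕ) + 1 = n then c * x ⟨0, by omega⟩ else 0 := by
    split_ifs with h
    · rw [Finset.sum_eq_single (⟨0, by omega⟩ : Fin n)]
      · simp [h]
      · intro b _ hb
        rw [if_neg]
        intro h2; apply hb; ext; simp; omega
      · simp
    · apply Finset.sum_eq_zero
      intro j _
      rw [if_neg]; omega
  have h5 : (∑ j : Fin n, if (j:ℕ) + 1 = n ∧ (i:ℕ) = 0 then star c * x j else 0)
      = if (i:ℕ) = 0 then star c * x ⟨n-1, by omega⟩ else 0 := by
    split_ifs with h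
    · rw [Finset.sum_eq_single (⟨n-1, by omega⟩ : Fin n)]
      · rw [if_pos]; simp; omega
      · intro b _ hb
        rw [if_neg]
        intro h2; apply hb; ext; simp; omega
      · simp
    · apply Finset.sum_eq_zero
      intro j _
      rw [if_neg]; omega
  rw [h3, h4, h5]
  have e1 : ext n c x (i+1) = x i := by
    unfold ext
    rw [if_neg (by omega), dif_pos (by omega)]
    congr 1
  have e2 : ext n c x (i+2) = (if h : (i:ℕ) + 1 < n then x ⟨i+1, h⟩ else 0)
      + (if (i:ℕ) + 1 = n then c * x ⟨0, by omega⟩ else 0) := by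
    unfold ext
    rw [if_neg (by omega)]
    by_cases h : (i:ℕ) + 1 < n
    · rw [dif_pos (by omega), dif_pos h, if_neg (by omega), add_zero]
      congr 1
    · rw [dif_neg (by omega), dif_neg h, if_pos (by omega), if_pos (by omega), zero_add,
        dif_pos (by omega)]
  have e3 : ext n c x i = (if h : 0 < (i:ℕ) then x ⟨i - 1, by omega⟩ else 0)
      + (if (i:ℕ) = 0 then star c * x ⟨n-1, by omega⟩ else 0) := by
    unfold ext
    by_cases h : 0 < (i:ℕ)
    · rw [if_neg (by omega), dif_pos (by omega), dif_pos h, if_neg (by omega), add_zero]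
    · rw [if_pos (by omega), dif_pos (by omega), dif_neg h, if_pos (by omega), zero_add]
  rw [e1, e2, e3]
  ring

theorem ext_succ {n : ℕ} (c : ℂ) (x : Fin n → ℂ) (i : Fin n) : ext n c x (i+1) = x i := by
  have hi := i.2
  unfold ext
  rw [if_neg (by omega), dif_pos (by omega)]
  congr 1


/-- an eigenvector satisfies the three term recursion -/
theorem ext_rec {v : ℕ → ℝ} {n : ℕ} {c : ℂ} {E : ℝ} {x : Fin n → ℂ}
    (hx : Jc v n c *ᵥ x = (E : ℂ) • x) (k : ℕ) (hk : k < n) :
    ext n c x (k+2) = ((E : ℂ) - v k) * ext n c x (k+1) - ext n c x k := by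
  have h := congrFun hx ⟨k, hk⟩
  rw [Jc_mulVec] at h
  simp only [Pi.smul_apply, smul_eq_mul] at h
  have h1 : ext n c x (k+1) = x ⟨k, hk⟩ := ext_succ c x ⟨k, hk⟩
  rw [← h1] at h
  linear_combination h

theorem ext_transfer {v : ℕ → ℝ} {n : ℕ} {c : ℂ} {E : ℝ} {x : Fin n → ℂ}
    (hx : Jc v n c *ᵥ x = (E : ℂ) • x) (k : ℕ) (hk : k ≤ n) :
    ![ext n c x (k+1), ext n c x k] =
      ((TM v E k).map (algebraMap ℝ ℂ)) *ᵥ ![ext n c x 1, ext n c x 0] := by
  induction k with
  | zero => simp [TM]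
  | succ k ih =>
    have ih' := ih (by omega)
    rw [TM, Matrix.map_mul, ← Matrix.mulVec_mulVec, ← ih']
    ext i
    fin_cases i
    · simp [Matrix.mulVec, dotProduct, Fin.sum_univ_two]
      rw [ext_rec hx k (by omega)]
      ring
    · simp [Matrix.mulVec, dotProduct, Fin.sum_univ_two]

theorem det_TM (v : ℕ → ℝ) (E : ℝ) (n : ℕ) : (TM v E n).det = 1 := by
  induction n with
  | zero => simp [TM]
  | succ n ih => rw [TM, Matrix.det_mul, ih, Matrix.det_fin_two]; simp

/-- boundary values -/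
theorem ext_bdry {n : ℕ} {c : ℂ} (hn : 0 < n) (hc : c * star c = 1) (x : Fin n → ℂ) :
    ext n c x (n+1) = c * ext n c x 1 ∧ ext n c x n = c * ext n c x 0 := by
  constructor
  · unfold ext
    rw [if_neg (by omega), dif_neg (by omega), if_pos rfl, dif_pos hn, if_neg (by omega),
      dif_pos (by omega)]
  · unfold ext
    rw [if_neg (by omega), dif_pos (by omega), if_pos rfl, dif_pos (by omega), ← mul_assoc, hc,
      one_mul]

/-- the initial vector of a nonzero eigenvector is nonzero -/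
theorem eq_zero_of_init {v : ℕ → ℝ} {n : ℕ} {c : ℂ} {E : ℝ} {x : Fin n → ℂ}
    (hx : Jc v n c *ᵥ x = (E : ℂ) • x) (h0 : ext n c x 0 = 0) (h1 : ext n c x 1 = 0) : x = 0 := by
  have key : ∀ k, k ≤ n → ext n c x (k+1) = 0 := by
    intro k hk
    have := ext_transfer hx k hk
    rw [h0, h1] at this
    have h2 := congrFun this 0
    simpa [Matrix.mulVec, dotProduct, Fin.sum_univ_two] using h2
  ext i
  rw [← ext_succ c x i]
  exact key i i.2.le

theorem init_ne_zero {v : ℕ → ℝ} {n : ℕ} {c : ℂ} {E : ℝ} {x : Fin n → ℂ}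
    (hx : Jc v n c *ᵥ x = (E : ℂ) • x) (hx0 : x ≠ 0) :
    (![ext n c x 1, ext n c x 0] : Fin 2 → ℂ) ≠ 0 := by
  intro h
  apply hx0
  apply eq_zero_of_init hx
  · simpa using congrFun h 1
  · simpa using congrFun h 0

theorem eig_transfer {v : ℕ → ℝ} {n : ℕ} {c : ℂ} {E : ℝ} {x : Fin n → ℂ} (hn : 0 < n)
    (hc : c * star c = 1) (hx : Jc v n c *ᵥ x = (E : ℂ) • x) :
    ((TM v E n).map (algebraMap ℝ ℂ)) *ᵥ ![ext n c x 1, ext n c x 0]
      = c • ![ext n c x 1, ext n c x 0] := by
  rw [← ext_transfer hx n le_rfl, (ext_bdry hn hc x).1, (ext_bdry hn hc x).2]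
  ext i; fin_cases i <;> simp

/-- eigenvalues of the matrices `Jc` are solutions of `tr M = 2 Re c` -/
theorem trace_of_eig {v : ℕ → ℝ} {n : ℕ} {c : ℂ} {E : ℝ} {x : Fin n → ℂ} (hn : 0 < n)
    (hc : c * star c = 1) (hx : Jc v n c *ᵥ x = (E : ℂ) • x) (hx0 : x ≠ 0) :
    (TM v E n).trace = 2 * c.re := by
  have h := eig_transfer hn hc hx
  have hne := init_ne_zero hx hx0
  set u : Fin 2 → ℂ := ![ext n c x 1, ext n c x 0] with hu
  have hdet : ((TM v E n).map (algebraMap ℝ ℂ) - c • (1 : Matrix (Fin 2) (Fin 2) ℂ)).det = 0 := by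
    rw [← Matrix.exists_mulVec_eq_zero_iff]
    refine ⟨u, hne, ?_⟩
    rw [Matrix.sub_mulVec, h, Matrix.smul_mulVec, Matrix.one_mulVec, sub_self]
  have hd := det_TM v E n
  rw [Matrix.det_fin_two] at hdet hd
  simp only [Matrix.sub_apply, Matrix.map_apply, Matrix.smul_apply, Matrix.one_apply_eq,
    smul_eq_mul, mul_one, Complex.coe_algebraMap] at hdet
  rw [Matrix.one_apply_ne (by decide), Matrix.one_apply_ne (by decide)] at hdet
  simp only [mul_zero, sub_zero] at hdet
  have hd' : ((TM v E n 0 0 : ℝ) : ℂ) * (TM v E n 1 1 : ℝ) - (TM v E n 0 1 : ℝ) * (TM v E n 1 0 : ℝ)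
      = 1 := by exact_mod_cast hd
  have hc0 : c ≠ 0 := by
    intro h0; rw [h0] at hc; simp at hc
  have h3 : c * (c + star c - ((TM v E n 0 0 : ℝ) : ℂ) - (TM v E n 1 1 : ℝ)) = 0 := by
    linear_combination hdet - hd' + hc
  have h4 : c + star c = ((TM v E n 0 0 : ℝ) : ℂ) + (TM v E n 1 1 : ℝ) := by
    have := (mul_eq_zero.mp h3).resolve_left hc0
    linear_combination this
  have h5 := congrArg Complex.re h4
  simp at h5
  rw [Matrix.trace_fin_two]
  linarith

theorem ext_sub_smul {n : ℕ} (c d : ℂ) (x y : Fin n → ℂ) (k : ℕ) :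
    ext n c (y - d • x) k = ext n c y k - d * ext n c x k := by
  unfold ext
  split_ifs <;> simp <;> ring

/-- eigenspaces are one-dimensional unless the transfer matrix is scalar -/
theorem eig_simple {v : ℕ → ℝ} {n : ℕ} {c : ℂ} {E : ℝ} (hn : 0 < n)
    (hc : c * star c = 1)
    (hM : (TM v E n).map (algebraMap ℝ ℂ) ≠ c • (1 : Matrix (Fin 2) (Fin 2) ℂ))
    {x y : Fin n → ℂ}
    (hx : Jc v n c *ᵥ x = (E : ℂ) • x) (hy : Jc v n c *ᵥ y = (E : ℂ) • y) (hx0 : x ≠ 0) :
    ∃ d : ℂ, y = d • x := by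
  have hux := eig_transfer hn hc hx
  have huy := eig_transfer hn hc hy
  have hne := init_ne_zero hx hx0
  set a := ext n c x 1
  set b := ext n c x 0
  set a' := ext n c y 1 with ha'
  set b' := ext n c y 0 with hb'
  set M := (TM v E n).map (algebraMap ℝ ℂ) with hMdef
  have hx1 := congrFun hux 0
  have hx2 := congrFun hux 1
  have hy1 := congrFun huy 0
  have hy2 := congrFun huy 1
  simp [Matrix.mulVec, dotProduct, Fin.sum_univ_two] at hx1 hx2 hy1 hy2
  have hdet : a * b' - b * a' = 0 := by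
    by_contra hd
    apply hM
    have e00 : M 0 0 = c := by
      apply mul_right_cancel₀ hd
      linear_combination b' * hx1 - b * hy1
    have e01 : M 0 1 = 0 := by
      apply mul_right_cancel₀ hd
      linear_combination -a' * hx1 + a * hy1
    have e10 : M 1 0 = 0 := by
      apply mul_right_cancel₀ hd
      linear_combination b' * hx2 - b * hy2
    have e11 : M 1 1 = c := by
      apply mul_right_cancel₀ hd
      linear_combination -a' * hx2 + a * hy2
    ext i j
    fin_cases i <;> fin_cases j <;> simp [e00, e01, e10, e11]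
  have hex : ∃ d : ℂ, a' = d * a ∧ b' = d * b := by
    by_cases ha : a = 0
    · have hb : b ≠ 0 := by
        intro hb
        apply hne
        rw [ha, hb]; ext i; fin_cases i <;> simp
      refine ⟨b' / b, ?_, by field_simp⟩
      rw [ha] at hdet
      have : a' = 0 := by
        have h1 : b * a' = 0 := by linear_combination -hdet
        exact (mul_eq_zero.mp h1).resolve_left hb
      rw [this, ha]; simp
    · refine ⟨a' / a, by field_simp, ?_⟩
      field_simp
      linear_combination hdet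
  obtain ⟨d, h1, h2⟩ := hex
  refine ⟨d, ?_⟩
  have hz : y - d • x = 0 := by
    apply eq_zero_of_init (v := v) (c := c) (E := E)
    · rw [Matrix.mulVec_sub, Matrix.mulVec_smul, hx, hy]
      rw [smul_sub, smul_comm]
    · rw [ext_sub_smul]; rw [← hb', h2]; ring
    · rw [ext_sub_smul]; rw [← ha', h1]; ring
  exact sub_eq_zero.mp hz

end Pool.Agent.H98.Fib
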