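import Pool.Agent.H98.Fib.Jac

/-! Comparison of eigenvalue counts of Jacobi matrices. -/

open Matrix Polynomial Finset

namespace Pool.Agent.H98.Fib

lemma quad_congr {n : Type*} [Fintype n] {A B : Matrix n n ℂ} {x : n → ℂ}
    (h : ∀ i j, star (x i) * (B i j * x j) = star (x i) * (A i j * x j)) :
    (star x ⬝ᵥ (B *ᵥ x)) = (star x ⬝ᵥ (A *ᵥ x)) := by
  simp only [dotProduct, Matrix.mulVec, Pi.star_apply, Finset.mul_sum]
  apply Finset.sum_congr rfl; intro i _
  apply Finset.sum_congr rfl; intro j _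
  exact h i j

/-- changing the corner -/
theorem cnt_corner (v : ℕ → ℝ) (n : ℕ) (c c' : ℂ) (E : ℝ) :
    cnt (Jc v n c) E ≤ cnt (Jc v n c') E + 1 := by
  rcases Nat.eq_zero_or_pos n with h0 | hn
  · subst h0
    have := cnt_le_card (Jc v 0 c) E
    simp at this; omega
  · have := cnt_le_cnt_add_of_coords (Jc_isHermitian v n c) (Jc_isHermitian v n c')
      {⟨0, hn⟩} E ?_
    · simpa using this
    · intro x hx
      congr 1
      have hx0 : x ⟨0, hn⟩ = 0 := hx _ (by simp)
      apply quad_congr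
      intro i j
      rw [Jc_apply, Jc_apply]
      by_cases hi : (i:ℕ) = 0
      · have : i = ⟨0, hn⟩ := by ext; exact hi
        rw [this, hx0]; simp
      · by_cases hj : (j:ℕ) = 0
        · have : j = ⟨0, hn⟩ := by ext; exact hj
          rw [this, hx0]; simp
        · simp [hi, hj]

/-- changing the potential -/
theorem cnt_potential (v v' : ℕ → ℝ) (n : ℕ) (c : ℂ) (E : ℝ) :
    cnt (Jc v n c) E ≤ cnt (Jc v' n c) E + ((range n).filter (fun i => v i ≠ v' i)).card := by
  have := cnt_le_cnt_add_of_coords (Jc_isHermitian v n c) (Jc_isHermitian v' n c)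
      (Finset.univ.filter (fun i : Fin n => v i ≠ v' i)) E ?_
  · refine this.trans ?_
    apply Nat.add_le_add_left
    have : ((range n).filter (fun i => v i ≠ v' i)) =
        (Finset.univ.filter (fun i : Fin n => v i ≠ v' i)).map Fin.valEmbedding := by
      ext k
      simp only [Finset.mem_filter, Finset.mem_range, Finset.mem_map, Finset.mem_univ, true_and,
        Fin.valEmbedding_apply]
      constructor
      · rintro ⟨h1, h2⟩; exact ⟨⟨k, h1⟩, h2, rfl⟩
      · rintro ⟨a, h1, h2⟩; rw [← h2]; exact ⟨a.2, h1⟩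
    rw [this, Finset.card_map]
  · intro x hx
    congr 1
    apply quad_congr
    intro i j
    rw [Jc_apply, Jc_apply]
    by_cases hij : i = j
    · subst hij
      by_cases hv : v i = v' i
      · rw [hv]
      · have : x i = 0 := hx i (by simp [hv])
        rw [this]; simp
    · simp [hij]

theorem Jc_congr (v v' : ℕ → ℝ) (n : ℕ) (c : ℂ) (h : ∀ i < n, v i = v' i) :
    Jc v n c = Jc v' n c := by
  ext i j
  rw [Jc_apply, Jc_apply, h i i.2]

theorem fromBlocks_herm {a b : ℕ} {A : Matrix (Fin a) (Fin a) ℂ} {B : Matrix (Fin b) (Fin b) ℂ}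
    (hA : A.IsHermitian) (hB : B.IsHermitian) : (Matrix.fromBlocks A 0 0 B).IsHermitian :=
  Matrix.IsHermitian.fromBlocks hA (by simp) hB

theorem sub_herm {a b : ℕ} {A : Matrix (Fin (a+b)) (Fin (a+b)) ℂ} (hA : A.IsHermitian) :
    (A.submatrix finSumFinEquiv finSumFinEquiv : Matrix (Fin a ⊕ Fin b) (Fin a ⊕ Fin b) ℂ).IsHermitian :=
  hA.submatrix _

lemma cut_entry (v : ℕ → ℝ) (a b : ℕ) (x : Fin a ⊕ Fin b → ℂ)
    (hx : ∀ h : 0 < b, x (Sum.inr ⟨0, h⟩) = 0) (i j : Fin a ⊕ Fin b) :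
    star (x i) * ((Jc v (a+b) 0).submatrix finSumFinEquiv finSumFinEquiv i j * x j) =
    star (x i) * (Matrix.fromBlocks (Jc v a 0) 0 0 (Jc (fun k => v (k + a)) b 0) i j * x j) := by
  rcases i with i | i <;> rcases j with j | j
  · simp only [Matrix.submatrix_apply, finSumFinEquiv_apply_left, Matrix.fromBlocks_apply₁₁]
    rw [Jc_apply, Jc_apply]
    simp [Fin.ext_iff]
  · simp only [Matrix.submatrix_apply, finSumFinEquiv_apply_left, finSumFinEquiv_apply_right,
      Matrix.fromBlocks_apply₁₂]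
    by_cases hj : (j:ℕ) = 0
    · have hb : 0 < b := by have := j.2; omega
      have : j = ⟨0, hb⟩ := by ext; exact hj
      rw [this, hx hb]; simp
    · rw [Jc_apply]
      have hi := i.2
      simp only [Fin.ext_iff, Fin.val_castAdd, Fin.val_natAdd]
      rw [if_neg (by omega), if_neg (by omega), if_neg (by omega)]
      simp
  · simp only [Matrix.submatrix_apply, finSumFinEquiv_apply_left, finSumFinEquiv_apply_right,
      Matrix.fromBlocks_apply₂₁]
    by_cases hi : (i:ℕ) = 0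
    · have hb : 0 < b := by have := i.2; omega
      have : i = ⟨0, hb⟩ := by ext; exact hi
      rw [this, hx hb]; simp
    · rw [Jc_apply]
      have hj := j.2
      simp only [Fin.ext_iff, Fin.val_castAdd, Fin.val_natAdd]
      rw [if_neg (by omega), if_neg (by omega), if_neg (by omega)]
      simp
  · simp only [Matrix.submatrix_apply, finSumFinEquiv_apply_right, Matrix.fromBlocks_apply₂₂]
    rw [Jc_apply, Jc_apply]
    simp only [Fin.ext_iff, Fin.val_natAdd]
    have e1 : (a + (i:ℕ) = a + (j:ℕ)) = ((i:ℕ) = (j:ℕ)) := by simp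
    have e2 : (a + (i:ℕ) + 1 = a + (j:ℕ)) = ((i:ℕ) + 1 = (j:ℕ)) := by
      rw [eq_iff_iff]; omega
    have e3 : (a + (j:ℕ) + 1 = a + (i:ℕ)) = ((j:ℕ) + 1 = (i:ℕ)) := by
      rw [eq_iff_iff]; omega
    simp only [e1, e2, e3, ite_self, add_zero, star_zero]
    rw [add_comm a (i:ℕ)]

/-- cutting one bond, one direction -/
theorem cnt_cut (v : ℕ → ℝ) (a b : ℕ) (E : ℝ) :
    cnt (Jc v (a+b) 0) E ≤ cnt (Jc v a 0) E + cnt (Jc (fun k => v (k + a)) b 0) E + 1 ∧
    cnt (Jc v a 0) E + cnt (Jc (fun k => v (k + a)) b 0) E ≤ cnt (Jc v (a+b) 0) E + 1 := by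
  rcases Nat.eq_zero_or_pos b with h0 | hb
  · subst h0
    have := cnt_le_card (Jc (fun k => v (k + a)) 0 0) E
    simp at this
    rw [this]; simp
  · have e : cnt (Jc v (a+b) 0) E = cnt ((Jc v (a+b) 0).submatrix finSumFinEquiv finSumFinEquiv :
        Matrix (Fin a ⊕ Fin b) (Fin a ⊕ Fin b) ℂ) E := (cnt_submatrix_equiv _ _ _).symm
    rw [e, ← cnt_fromBlocks]
    have hA := sub_herm (a := a) (b := b) (Jc_isHermitian v (a+b) 0)
    have hB := fromBlocks_herm (Jc_isHermitian v a 0) (Jc_isHermitian (fun k => v (k + a)) b 0)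
    constructor
    · have := cnt_le_cnt_add_of_coords hA hB {Sum.inr ⟨0, hb⟩} E ?_
      · simpa using this
      · intro x hx
        congr 1
        apply quad_congr
        intro i j
        rw [cut_entry v a b x (fun _ => hx _ (by simp)) i j]
    · have := cnt_le_cnt_add_of_coords hB hA {Sum.inr ⟨0, hb⟩} E ?_
      · simpa using this
      · intro x hx
        congr 1
        apply quad_congr
        intro i j
        rw [cut_entry v a b x (fun _ => hx _ (by simp)) i j]


/-- merging two periodic blocks -/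
lemma merge_quad (v : ℕ → ℝ) (a b : ℕ) (ha : 0 < a) (hb : 0 < b) (x : Fin a ⊕ Fin b → ℂ)
    (hx : x (Sum.inr ⟨0, hb⟩) = x (Sum.inl ⟨0, ha⟩)) :
    star x ⬝ᵥ (((Jc v (a+b) 1).submatrix finSumFinEquiv finSumFinEquiv) *ᵥ x) =
    star x ⬝ᵥ (Matrix.fromBlocks (Jc v a 1) 0 0 (Jc (fun k => v (k + a)) b 1) *ᵥ x) := by
  have h1 : ((Jc v (a+b) 1).submatrix finSumFinEquiv finSumFinEquiv) *ᵥ x =
      (Jc v (a+b) 1 *ᵥ (x ∘ finSumFinEquiv.symm)) ∘ finSumFinEquiv := by
    rw [Matrix.submatrix_mulVec_equiv]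
  set y : Fin (a+b) → ℂ := x ∘ finSumFinEquiv.symm with hy
  set xl : Fin a → ℂ := x ∘ Sum.inl with hxl
  set xr : Fin b → ℂ := x ∘ Sum.inr with hxr
  have h2 : x = Sum.elim xl xr := by ext i; rcases i with i | i <;> rfl
  have h3 : Matrix.fromBlocks (Jc v a 1) 0 0 (Jc (fun k => v (k + a)) b 1) *ᵥ x =
      Sum.elim (Jc v a 1 *ᵥ xl) (Jc (fun k => v (k + a)) b 1 *ᵥ xr) := by
    rw [h2, Matrix.fromBlocks_mulVec]
    simp
  rw [h1, h3]
  have yl : ∀ (i : ℕ) (hi : i < a), y ⟨i, by omega⟩ = xl ⟨i, hi⟩ := by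
    intro i hi
    rw [hy, hxl]
    simp only [Function.comp]
    congr 1
    rw [Equiv.symm_apply_eq]
    simp
  have yr : ∀ (i : ℕ) (hi : i < b), y ⟨a + i, by omega⟩ = xr ⟨i, hi⟩ := by
    intro i hi
    rw [hy, hxr]
    simp only [Function.comp]
    congr 1
    rw [Equiv.symm_apply_eq]
    simp
  have hx' : xr ⟨0, hb⟩ = xl ⟨0, ha⟩ := hx
  -- values of the extension
  have El : ∀ (i : ℕ), i < a → ext (a+b) 1 y (i+1) = ext a 1 xl (i+1) := by
    intro i hi
    unfold ext
    rw [if_neg (by omega), dif_pos (by omega), if_neg (by omega), dif_pos (by omega)]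
    exact yl i hi
  have El' : ∀ (i : ℕ), i < a → ext (a+b) 1 y (i+2) = ext a 1 xl (i+2) := by
    intro i hi
    by_cases h : i + 1 < a
    · exact El (i+1) h
    · have hia : i + 1 = a := by omega
      unfold ext
      rw [if_neg (by omega), dif_pos (by omega), if_neg (by omega), dif_neg (by omega),
        if_pos (by omega), dif_pos ha]
      have := yr 0 hb
      have e : (⟨i + 2 - 1, by omega⟩ : Fin (a+b)) = ⟨a + 0, by omega⟩ := by
        ext; simp; omega
      rw [e, this, hx', one_mul]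
  have Er : ∀ (i : ℕ), i < b → ext (a+b) 1 y (a+i+1) = ext b 1 xr (i+1) := by
    intro i hi
    unfold ext
    rw [if_neg (by omega), dif_pos (by omega), if_neg (by omega), dif_pos (by omega)]
    exact yr i hi
  have Er' : ∀ (i : ℕ), i < b → ext (a+b) 1 y (a+i+2) = ext b 1 xr (i+2) := by
    intro i hi
    by_cases h : i + 1 < b
    · exact Er (i+1) h
    · have hia : i + 1 = b := by omega
      unfold ext
      rw [if_neg (by omega), dif_neg (by omega), if_pos (by omega), dif_pos (by omega),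
        if_neg (by omega), dif_neg (by omega), if_pos (by omega), dif_pos hb]
      rw [yl 0 ha, hx']
  have Jl : ∀ i : Fin a, (Jc v (a+b) 1 *ᵥ y) (finSumFinEquiv (Sum.inl i)) =
      (Jc v a 1 *ᵥ xl) i + (if (i:ℕ) = 0 then ext (a+b) 1 y 0 - ext a 1 xl 0 else 0) := by
    intro i
    rw [Jc_mulVec, Jc_mulVec]
    simp only [finSumFinEquiv_apply_left, Fin.val_castAdd]
    rw [El i i.2, El' i i.2]
    by_cases h : (i:ℕ) = 0
    · rw [if_pos h, h]; ring
    · rw [if_neg h]
      have := El (i-1) (by omega)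
      rw [Nat.sub_add_cancel (by omega)] at this
      rw [this]; ring
  have Jr : ∀ i : Fin b, (Jc v (a+b) 1 *ᵥ y) (finSumFinEquiv (Sum.inr i)) =
      (Jc (fun k => v (k + a)) b 1 *ᵥ xr) i +
        (if (i:ℕ) = 0 then ext (a+b) 1 y a - ext b 1 xr 0 else 0) := by
    intro i
    rw [Jc_mulVec, Jc_mulVec]
    simp only [finSumFinEquiv_apply_right, Fin.val_natAdd]
    rw [Er i i.2, Er' i i.2]
    by_cases h : (i:ℕ) = 0
    · rw [if_pos h, h]; simp
    · rw [if_neg h]
      have := Er (i-1) (by omega)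
      rw [Nat.sub_add_cancel (by omega)] at this
      have e : a + (i - 1) + 1 = a + (i:ℕ) := by omega
      rw [e] at this
      rw [this, add_comm a (i:ℕ)]; ring
  -- the four boundary values
  have B1 : ext (a+b) 1 y 0 = xr ⟨b-1, by omega⟩ := by
    unfold ext
    rw [if_pos rfl, dif_pos (by omega)]
    have := yr (b-1) (by omega)
    have e : (⟨a + b - 1, by omega⟩ : Fin (a+b)) = ⟨a + (b-1), by omega⟩ := by
      ext; simp; omega
    rw [e, this]; simp
  have B2 : ext a 1 xl 0 = xl ⟨a-1, by omega⟩ := by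
    unfold ext
    rw [if_pos rfl, dif_pos (by omega)]; simp
  have B3 : ext (a+b) 1 y a = xl ⟨a-1, by omega⟩ := by
    unfold ext
    rw [if_neg (by omega), dif_pos (by omega)]
    exact yl (a-1) (by omega)
  have B4 : ext b 1 xr 0 = xr ⟨b-1, by omega⟩ := by
    unfold ext
    rw [if_pos rfl, dif_pos (by omega)]; simp
  rw [B1, B2] at Jl
  rw [B3, B4] at Jr
  simp only [dotProduct, Fintype.sum_sum_type, Function.comp, Pi.star_apply, Sum.elim_inl,
    Sum.elim_inr]
  have S1 : ∑ i : Fin a, star (x (Sum.inl i)) * (Jc v (a+b) 1 *ᵥ y) (finSumFinEquiv (Sum.inl i)) =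
      (∑ i : Fin a, star (x (Sum.inl i)) * (Jc v a 1 *ᵥ xl) i) +
      star (xl ⟨0, ha⟩) * (xr ⟨b-1, by omega⟩ - xl ⟨a-1, by omega⟩) := by
    simp only [Jl, mul_add, Finset.sum_add_distrib]
    congr 1
    rw [Finset.sum_eq_single (⟨0, ha⟩ : Fin a)]
    · simp [hxl]
    · intro i _ hi
      have : (i:ℕ) ≠ 0 := by intro h; apply hi; ext; simpa using h
      rw [if_neg this]; simp
    · simp
  have S2 : ∑ i : Fin b, star (x (Sum.inr i)) * (Jc v (a+b) 1 *ᵥ y) (finSumFinEquiv (Sum.inr i)) =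
      (∑ i : Fin b, star (x (Sum.inr i)) * (Jc (fun k => v (k + a)) b 1 *ᵥ xr) i) +
      star (xr ⟨0, hb⟩) * (xl ⟨a-1, by omega⟩ - xr ⟨b-1, by omega⟩) := by
    simp only [Jr, mul_add, Finset.sum_add_distrib]
    congr 1
    rw [Finset.sum_eq_single (⟨0, hb⟩ : Fin b)]
    · simp [hxr]
    · intro i _ hi
      have : (i:ℕ) ≠ 0 := by intro h; apply hi; ext; simpa using h
      rw [if_neg this]; simp
    · simp
  rw [S1, S2, hx']
  ring

theorem cnt_merge (v : ℕ → ℝ) (a b : ℕ) (ha : 0 < a) (hb : 0 < b) (E : ℝ) :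
    cnt (Jc v (a+b) 1) E ≤ cnt (Jc v a 1) E + cnt (Jc (fun k => v (k + a)) b 1) E + 1 ∧
    cnt (Jc v a 1) E + cnt (Jc (fun k => v (k + a)) b 1) E ≤ cnt (Jc v (a+b) 1) E + 1 := by
  have e : cnt (Jc v (a+b) 1) E = cnt ((Jc v (a+b) 1).submatrix finSumFinEquiv finSumFinEquiv :
        Matrix (Fin a ⊕ Fin b) (Fin a ⊕ Fin b) ℂ) E := (cnt_submatrix_equiv _ _ _).symm
  rw [e, ← cnt_fromBlocks]
  have hA := sub_herm (a := a) (b := b) (Jc_isHermitian v (a+b) 1)
  have hB := fromBlocks_herm (Jc_isHermitian v a 1) (Jc_isHermitian (fun k => v (k + a)) b 1)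
  let φ : (Fin a ⊕ Fin b → ℂ) →ₗ[ℂ] ℂ :=
    LinearMap.proj (R := ℂ) (φ := fun _ : Fin a ⊕ Fin b => ℂ) (Sum.inr (⟨0, hb⟩ : Fin b)) -
      LinearMap.proj (R := ℂ) (φ := fun _ : Fin a ⊕ Fin b => ℂ) (Sum.inl (⟨0, ha⟩ : Fin a))
  have hK : Fintype.card (Fin a ⊕ Fin b) ≤ Module.finrank ℂ (LinearMap.ker φ) + 1 := by
    have h1 := LinearMap.finrank_range_add_finrank_ker φ
    have h2 : Module.finrank ℂ (LinearMap.range φ) ≤ 1 := by
      calc Module.finrank ℂ (LinearMap.range φ) ≤ Module.finrank ℂ ℂ := Submodule.finrank_le _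
        _ = 1 := Module.finrank_self ℂ
    rw [Module.finrank_fintype_fun_eq_card] at h1
    omega
  have hmem : ∀ x ∈ LinearMap.ker φ, x (Sum.inr ⟨0, hb⟩) = x (Sum.inl ⟨0, ha⟩) := by
    intro x hx
    have : φ x = 0 := hx
    simpa [φ, sub_eq_zero] using this
  constructor
  · have := cnt_le_cnt_add hA hB (LinearMap.ker φ) 1 0 E hK ?_
    · simpa using this
    · intro x hx
      rw [merge_quad v a b ha hb x (hmem x hx)]; simp
  · have := cnt_le_cnt_add hB hA (LinearMap.ker φ) 1 0 E hK ?_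
    · simpa using this
    · intro x hx
      rw [merge_quad v a b ha hb x (hmem x hx)]; simp

end Pool.Agent.H98.Fib
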