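import Pool.Agent.H98.Fib.Esc

/-! The sign of the coupling derivative at the critical points. -/

open Polynomial Finset Topology

namespace Pool.Agent.H98.Fib

namespace MAna

open MA

/-! ### joint continuity and derivatives -/

theorem cont_xq (j : ℕ) : Continuous (fun p : ℝ × ℝ => (xq p.2 j).eval p.1) := by
  induction j using Nat.strong_induction_on with
  | _ j ih =>
    match j with
    | 0 => simp only [xq, eval_one]; exact continuous_const
    | 1 => simp only [xq, eval_mul, eval_C, eval_X]; fun_prop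
    | 2 => simp only [xq, eval_mul, eval_C, eval_X, eval_sub]; fun_prop
    | (j+3) =>
      have h : (fun p : ℝ × ℝ => (xq p.2 (j+3)).eval p.1) = fun p : ℝ × ℝ =>
          2 * (xq p.2 (j+2)).eval p.1 * (xq p.2 (j+1)).eval p.1 - (xq p.2 j).eval p.1 := by
        funext p
        exact xv_rec p.2 p.1 j
      rw [h]
      exact ((continuous_const.mul (ih (j+2) (by omega))).mul (ih (j+1) (by omega))).sub
        (ih j (by omega))

theorem cont_X (j : ℕ) : Continuous (fun p : ℝ × ℝ => (derivative (xq p.2 j)).eval p.1) := by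
  induction j using Nat.strong_induction_on with
  | _ j ih =>
    match j with
    | 0 => simp only [xq, derivative_one, eval_zero]; exact continuous_const
    | 1 => simp [xq]; exact continuous_const
    | 2 => simp [xq]; exact continuous_const
    | (j+3) =>
      have h : (fun p : ℝ × ℝ => (derivative (xq p.2 (j+3))).eval p.1) = fun p : ℝ × ℝ =>
          2 * ((derivative (xq p.2 (j+2))).eval p.1 * (xq p.2 (j+1)).eval p.1 +
            (xq p.2 (j+2)).eval p.1 * (derivative (xq p.2 (j+1))).eval p.1) -
            (derivative (xq p.2 j)).eval p.1 := by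
        funext p
        exact isSol_X p.2 p.1 j
      rw [h]
      exact (continuous_const.mul (((ih (j+2) (by omega)).mul (cont_xq (j+1))).add
        ((cont_xq (j+2)).mul (ih (j+1) (by omega))))).sub (ih j (by omega))

theorem cont_Y (j : ℕ) : Continuous (fun p : ℝ × ℝ => (yq p.2 j).eval p.1) := by
  induction j using Nat.strong_induction_on with
  | _ j ih =>
    match j with
    | 0 => simp only [yq, eval_zero]; exact continuous_const
    | 1 => simp only [yq, eval_zero]; exact continuous_const
    | 2 => simp only [yq, eval_C]; exact continuous_const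
    | (j+3) =>
      have h : (fun p : ℝ × ℝ => (yq p.2 (j+3)).eval p.1) = fun p : ℝ × ℝ =>
          2 * ((yq p.2 (j+2)).eval p.1 * (xq p.2 (j+1)).eval p.1 +
            (xq p.2 (j+2)).eval p.1 * (yq p.2 (j+1)).eval p.1) -
            (yq p.2 j).eval p.1 := by
        funext p
        exact isSol_Y p.2 p.1 j
      rw [h]
      exact (continuous_const.mul (((ih (j+2) (by omega)).mul (cont_xq (j+1))).add
        ((cont_xq (j+2)).mul (ih (j+1) (by omega))))).sub (ih j (by omega))

theorem hasDerivAt_l (j : ℕ) (E l : ℝ) :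
    HasDerivAt (fun l => (xq l j).eval E) ((yq l j).eval E) l := by
  induction j using Nat.strong_induction_on with
  | _ j ih =>
    match j with
    | 0 => simp only [xq, yq, eval_one, eval_zero]; exact hasDerivAt_const l (1 : ℝ)
    | 1 =>
      simp only [xq, yq, eval_mul, eval_C, eval_X, eval_zero]
      exact hasDerivAt_const l (1/2 * E)
    | 2 =>
      simp only [xq, yq, eval_mul, eval_C, eval_X, eval_sub]
      have h := ((hasDerivAt_id' l).const_sub E).const_mul (1/2 : ℝ)
      refine h.congr_deriv ?_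
      norm_num
    | (j+3) =>
      have h : (fun l => (xq l (j+3)).eval E) = fun l : ℝ =>
          2 * (xq l (j+2)).eval E * (xq l (j+1)).eval E - (xq l j).eval E := by
        funext l
        exact xv_rec l E j
      rw [h]
      have h2 := (((ih (j+2) (by omega)).const_mul 2).mul (ih (j+1) (by omega))).sub
        (ih j (by omega))
      refine h2.congr_deriv ?_
      have h3 := isSol_Y l E j
      simp only at h3
      rw [h3]
      ring

/-! ### roots -/

theorem splits_xq (l : ℝ) (j : ℕ) : (xq l j).Splits := by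
  rw [splits_iff_card_roots, card_roots_xq, (natDegree_xq l j).1]

theorem roots_mem {l : ℝ} (hl : 0 ≤ l) {j : ℕ} (hj : 1 ≤ j) {e : ℝ} (he : e ∈ (xq l j).roots) :
    -2 ≤ e ∧ e ≤ 2 + l := by
  have h0 : (xq l j).eval e = 0 := (mem_roots'.mp he).2
  by_contra hc
  have hout : e < -2 ∨ 2 + l < e := by
    by_contra hn
    push Not at hn
    exact hc hn
  have h1 := one_lt_abs_xv_of_out hl hout j hj
  unfold xv at h1
  rw [h0, abs_zero] at h1
  linarith

theorem roots_ne_zero (l : ℝ) {j : ℕ} (hj : 1 ≤ j) : (xq l j).roots ≠ 0 := by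
  intro h
  have h1 := card_roots_xq l j
  rw [h, Multiset.card_zero] at h1
  have := Nat.fib_pos.mpr hj
  omega

theorem crit_mem {l : ℝ} (hl : 0 ≤ l) {j : ℕ} (hj : 1 ≤ j) {E : ℝ}
    (hX : (derivative (xq l j)).eval E = 0) : -2 ≤ E ∧ E ≤ 2 + l := by
  by_contra hc
  have hout : E < -2 ∨ 2 + l < E := by
    by_contra hn
    push Not at hn
    exact hc hn
  have h1 := one_lt_abs_xv_of_out hl hout j hj
  have hne : (xq l j).eval E ≠ 0 := by
    intro h0
    unfold xv at h1
    rw [h0, abs_zero] at h1
    linarith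
  have h2 := (splits_xq l j).eval_derivative_div_eval_of_ne_zero hne
  rw [hX, zero_div] at h2
  rcases hout with h | h
  · have h3 : ∀ e ∈ (xq l j).roots, 1 / (E - e) < 0 := by
      intro e he
      have := (roots_mem hl hj he).1
      exact one_div_neg.mpr (by linarith)
    have h4 : ((xq l j).roots.map (fun e => 1 / (E - e))).sum < 0 := by
      have := Multiset.sum_lt_sum_of_nonempty (s := (xq l j).roots) (roots_ne_zero l hj) h3
      simpa using this
    exact absurd h2.symm h4.ne
  · have h3 : ∀ e ∈ (xq l j).roots, 0 < 1 / (E - e) := by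
      intro e he
      have := (roots_mem hl hj he).2
      exact one_div_pos.mpr (by linarith)
    have h4 : 0 < ((xq l j).roots.map (fun e => 1 / (E - e))).sum := by
      have := Multiset.sum_lt_sum_of_nonempty (s := (xq l j).roots) (roots_ne_zero l hj) h3
      simpa using this
    exact absurd h2.symm h4.ne'

/-! ### zero coupling -/

theorem abs_le_one_step {a b c : ℝ} (ha : |a| ≤ 1) (hb : |b| ≤ 1)
    (h : c^2 + b^2 + a^2 - 2 * c * b * a - 1 = 0) : |c| ≤ 1 := by
  rw [abs_le] at ha hb
  have h1 : (c - a * b)^2 = (1 - a^2) * (1 - b^2) := by linear_combination h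
  rw [abs_le]
  constructor
  · by_contra hc
    push Not at hc
    have h2 : 0 ≤ 1 + a * b := by nlinarith
    have h3 : 1 + a * b < a * b - c := by linarith
    have h4 : (1 + a * b)^2 < (a * b - c)^2 := by nlinarith
    nlinarith [sq_nonneg (a + b)]
  · by_contra hc
    push Not at hc
    have h2 : 0 ≤ 1 - a * b := by nlinarith
    have h3 : 1 - a * b < c - a * b := by linarith
    have h4 : (1 - a * b)^2 < (c - a * b)^2 := by nlinarith
    nlinarith [sq_nonneg (a - b)]

theorem abs_le_one_zero {E : ℝ} (hE : |E| ≤ 2) (j : ℕ) : |xv 0 E j| ≤ 1 := by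
  induction j using Nat.strong_induction_on with
  | _ j ih =>
    match j with
    | 0 => rw [xv_zero]; simp
    | 1 => rw [xv_one, abs_div, abs_two]; linarith
    | (j+2) =>
      have h := xv_inv 0 E j
      refine abs_le_one_step (ih j (by omega)) (ih (j+1) (by omega)) ?_
      linarith

/-! ### strict local maximum -/

theorem prod_aux (c t : ℝ) (ht : t ≠ 0) (s : Multiset ℝ) :
    (∀ e ∈ s, e ≠ c ∧ 0 < 1 + t / (c - e)) →
    0 < (s.map (fun e => 1 + t / (c - e))).prod ∧
    (s.map (fun e => 1 + t / (c - e))).prod ≤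
      Real.exp ((s.map (fun e => t / (c - e))).sum) ∧
    (s ≠ 0 → (s.map (fun e => 1 + t / (c - e))).prod <
      Real.exp ((s.map (fun e => t / (c - e))).sum)) := by
  induction s using Multiset.induction with
  | empty => intro _; simp
  | cons a s ih =>
    intro h
    obtain ⟨h1, h2, -⟩ := ih (fun e he => h e (Multiset.mem_cons_of_mem he))
    obtain ⟨ha1, ha2⟩ := h a (Multiset.mem_cons_self a s)
    simp only [Multiset.map_cons, Multiset.prod_cons, Multiset.sum_cons]
    have hne : t / (c - a) ≠ 0 := div_ne_zero ht (sub_ne_zero.mpr (Ne.symm ha1))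
    have h3 : 1 + t / (c - a) < Real.exp (t / (c - a)) := by
      have := Real.add_one_lt_exp hne
      linarith
    have h4 : (1 + t / (c - a)) * (s.map (fun e => 1 + t / (c - e))).prod <
        Real.exp (t / (c - a) + (s.map (fun e => t / (c - e))).sum) := by
      rw [Real.exp_add]
      exact mul_lt_mul h3 h2 h1 (Real.exp_pos _).le
    exact ⟨mul_pos ha2 h1, h4.le, fun _ => h4⟩

theorem prod_shift (c t : ℝ) (s : Multiset ℝ) (h : ∀ e ∈ s, e ≠ c) :
    (s.map (fun e => c + t - e)).prod = (s.map (fun e => c - e)).prod *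
      (s.map (fun e => 1 + t / (c - e))).prod := by
  rw [← Multiset.prod_map_mul]
  congr 1
  apply Multiset.map_congr rfl
  intro e he
  have : c - e ≠ 0 := sub_ne_zero.mpr (Ne.symm (h e he))
  field_simp
  ring

/-- near a critical point the modulus is strictly smaller -/
theorem strict_max {l c : ℝ} {j : ℕ} (hj : 1 ≤ j) (hX : (derivative (xq l j)).eval c = 0)
    (hne : (xq l j).eval c ≠ 0) : ∃ δ > 0, ∀ t, t ≠ 0 → |t| < δ →
      ∃ r, 0 < r ∧ r < 1 ∧ (xq l j).eval (c + t) = (xq l j).eval c * r := by
  have hcroot : ∀ e ∈ (xq l j).roots, e ≠ c := by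
    intro e he h
    subst h
    exact hne (mem_roots'.mp he).2
  obtain ⟨δ, hδ, hball⟩ : ∃ δ > 0, ∀ e ∈ (xq l j).roots, δ ≤ |c - e| := by
    have hfin : IsClosed ((xq l j).roots.toFinset : Set ℝ) :=
      ((xq l j).roots.toFinset.finite_toSet).isClosed
    have hmem : c ∈ ((xq l j).roots.toFinset : Set ℝ)ᶜ := by
      intro hc
      exact hcroot c (by simpa using hc) rfl
    obtain ⟨δ, hδ, hb⟩ := Metric.isOpen_iff.mp hfin.isOpen_compl c hmem
    refine ⟨δ, hδ, fun e he => ?_⟩
    by_contra hlt
    push Not at hlt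
    have h1 : e ∈ Metric.ball c δ := by
      rw [Metric.mem_ball, Real.dist_eq, abs_sub_comm]
      exact hlt
    exact hb h1 (by simpa using he)
  refine ⟨δ, hδ, fun t ht htδ => ?_⟩
  have hpos : ∀ e ∈ (xq l j).roots, e ≠ c ∧ 0 < 1 + t / (c - e) := by
    intro e he
    refine ⟨hcroot e he, ?_⟩
    have h1 := hball e he
    have h2 : |t / (c - e)| < 1 := by
      rw [abs_div, div_lt_one (by linarith)]
      linarith
    have := (abs_lt.mp h2).1
    linarith
  obtain ⟨h1, -, h3⟩ := prod_aux c t ht _ hpos
  have h4 := h3 (roots_ne_zero l hj)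
  have h5 : ((xq l j).roots.map (fun e => t / (c - e))).sum = 0 := by
    have h6 := (splits_xq l j).eval_derivative_div_eval_of_ne_zero hne
    rw [hX, zero_div] at h6
    have h7 : ((xq l j).roots.map (fun e => t / (c - e))).sum =
        t * ((xq l j).roots.map (fun e => 1 / (c - e))).sum := by
      rw [← Multiset.sum_map_mul_left]
      congr 1
      apply Multiset.map_congr rfl
      intro e _
      ring
    rw [h7, ← h6, mul_zero]
  rw [h5, Real.exp_zero] at h4
  refine ⟨_, h1, h4, ?_⟩
  rw [(splits_xq l j).eval_eq_prod_roots, (splits_xq l j).eval_eq_prod_roots, mul_assoc]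
  congr 1
  exact prod_shift c t _ hcroot

end MAna

open MAna

/-- At every critical point of `xq l j` (`l > 0`, `j ≥ 3`) the modulus of the half trace increases
with the coupling. -/
theorem yq_sign (l c : ℝ) (hl : 0 < l) (j : ℕ) (hj : 3 ≤ j)
    (hX : (derivative (xq l j)).eval c = 0) :
    0 < (xq l j).eval c * (yq l j).eval c := by
  by_contra hcon
  push Not at hcon
  have hj1 : 1 ≤ j := by omega
  set g0 : ℝ := |(xq l j).eval c| with hg0
  have hg01 : 1 < g0 := one_lt_abs_of_crit l c hl.ne' j hj hX
  set K : Set (ℝ × ℝ) := {p | 0 ≤ p.2 ∧ p.2 ≤ l ∧ -2 ≤ p.1 ∧ p.1 ≤ 2 + l ∧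
    (derivative (xq p.2 j)).eval p.1 = 0 ∧ (xq p.2 j).eval p.1 * (yq p.2 j).eval p.1 ≤ 0 ∧
    g0 ≤ |(xq p.2 j).eval p.1|} with hK
  have hcx := cont_xq j
  have hcX := cont_X j
  have hcY := cont_Y j
  have hclosed : IsClosed K := by
    have c1 : IsClosed {p : ℝ × ℝ | 0 ≤ p.2} := isClosed_le continuous_const continuous_snd
    have c2 : IsClosed {p : ℝ × ℝ | p.2 ≤ l} := isClosed_le continuous_snd continuous_const
    have c3 : IsClosed {p : ℝ × ℝ | -2 ≤ p.1} := isClosed_le continuous_const continuous_fst
    have c4 : IsClosed {p : ℝ × ℝ | p.1 ≤ 2 + l} := isClosed_le continuous_fst continuous_const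
    have c5 : IsClosed {p : ℝ × ℝ | (derivative (xq p.2 j)).eval p.1 = 0} :=
      isClosed_eq hcX continuous_const
    have c6 : IsClosed {p : ℝ × ℝ | (xq p.2 j).eval p.1 * (yq p.2 j).eval p.1 ≤ 0} :=
      isClosed_le (hcx.mul hcY) continuous_const
    have c7 : IsClosed {p : ℝ × ℝ | g0 ≤ |(xq p.2 j).eval p.1|} :=
      isClosed_le continuous_const hcx.abs
    exact c1.inter (c2.inter (c3.inter (c4.inter (c5.inter (c6.inter c7)))))
  have hcomp : IsCompact K := by
    refine (isCompact_Icc (a := ((-2 : ℝ), (0 : ℝ))) (b := (2 + l, l))).of_isClosed_subset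
      hclosed ?_
    rintro ⟨E, m⟩ ⟨h1, h2, h3, h4, -⟩
    exact ⟨⟨h3, h1⟩, ⟨h4, h2⟩⟩
  have hmem : (c, l) ∈ K :=
    ⟨hl.le, le_rfl, (crit_mem hl.le hj1 hX).1, (crit_mem hl.le hj1 hX).2, hX, hcon, le_rfl⟩
  obtain ⟨⟨E, m⟩, ⟨h1, h2, h3, h4, h5, h6, h7⟩, hmin⟩ :=
    hcomp.exists_isMinOn ⟨_, hmem⟩ continuous_snd.continuousOn
  simp only at h1 h2 h3 h4 h5 h6 h7
  have hmin' : ∀ p ∈ K, m ≤ p.2 := fun p hp => hmin hp
  rcases h1.eq_or_lt with hm0 | hm0
  · -- zero coupling
    subst hm0
    have h8 := crit_mem (le_refl (0 : ℝ)) hj1 h5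
    have h9 : |E| ≤ 2 := abs_le.mpr ⟨h8.1, by linarith [h8.2]⟩
    have h10 := abs_le_one_zero h9 j
    unfold xv at h10
    linarith
  · have hY := yq_ne_zero_of_crit m E hm0.ne' j hj h5
    have hx1 := one_lt_abs_of_crit m E hm0.ne' j hj h5
    have hx0 : (xq m j).eval E ≠ 0 := by
      intro h; rw [h, abs_zero] at hx1; linarith
    -- sign
    obtain ⟨s, hs, hsx⟩ : ∃ s : ℝ, s ^ 2 = 1 ∧ s * (xq m j).eval E = |(xq m j).eval E| := by
      rcases lt_or_gt_of_ne hx0 with h | h
      · exact ⟨-1, by norm_num, by rw [abs_of_neg h]; ring⟩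
      · exact ⟨1, by norm_num, by rw [abs_of_pos h]; ring⟩
    have hgpos : 0 < s * (xq m j).eval E := by rw [hsx]; linarith
    have hprod : ∀ E' m' : ℝ, (s * (xq m' j).eval E') * (s * (yq m' j).eval E') =
        (xq m' j).eval E' * (yq m' j).eval E' := by
      intro E' m'
      linear_combination ((xq m' j).eval E' * (yq m' j).eval E') * hs
    have hgl : s * (yq m j).eval E < 0 := by
      have h8 : (xq m j).eval E * (yq m j).eval E ≠ 0 := mul_ne_zero hx0 hY
      have h9 : (s * (xq m j).eval E) * (s * (yq m j).eval E) < 0 := by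
        rw [hprod]; exact lt_of_le_of_ne h6 h8
      by_contra hn
      push Not at hn
      have := mul_nonneg hgpos.le hn
      linarith
    obtain ⟨δ, hδ, hmax⟩ := strict_max hj1 h5 hx0
    -- neighbourhood
    have hev : ∀ᶠ p : ℝ × ℝ in 𝓝 (E, m), 0 < s * (xq p.2 j).eval p.1 ∧
        s * (yq p.2 j).eval p.1 < 0 := by
      have a1 := (continuous_const.mul hcx : Continuous fun p : ℝ × ℝ =>
        s * (xq p.2 j).eval p.1).continuousAt (x := (E, m))
      have a2 := (continuous_const.mul hcY : Continuous fun p : ℝ × ℝ =>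
        s * (yq p.2 j).eval p.1).continuousAt (x := (E, m))
      exact (a1.eventually (lt_mem_nhds hgpos)).and (a2.eventually (gt_mem_nhds hgl))
    obtain ⟨η1, hη1, hball⟩ := Metric.eventually_nhds_iff.mp hev
    obtain ⟨η, hη, hηδ, hη1'⟩ : ∃ η > 0, η < δ ∧ η < η1 :=
      ⟨min δ η1 / 2, by positivity, by
        have := min_le_left δ η1; linarith [lt_min hδ hη1], by
        have := min_le_right δ η1; linarith [lt_min hδ hη1]⟩
    have hbox : ∀ E' m' : ℝ, |E' - E| ≤ η → |m' - m| ≤ η →
        0 < s * (xq m' j).eval E' ∧ s * (yq m' j).eval E' < 0 := by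
      intro E' m' hE' hm'
      have := hball (y := (E', m')) (by
        rw [Prod.dist_eq, Real.dist_eq, Real.dist_eq]
        exact max_lt (by linarith) (by linarith))
      exact this
    -- endpoint values
    have hend : ∀ t, t ≠ 0 → |t| < δ → s * (xq m j).eval (E + t) < s * (xq m j).eval E := by
      intro t ht htδ
      obtain ⟨r, hr0, hr1, hr⟩ := hmax t ht htδ
      rw [hr]
      nlinarith
    have hp := hend η hη.ne' (by rw [abs_of_pos hη]; exact hηδ)
    have hn := hend (-η) (neg_ne_zero.mpr hη.ne') (by rw [abs_neg, abs_of_pos hη]; exact hηδ)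
    -- choose the smaller coupling
    have hcontl : ∀ E' : ℝ, ContinuousAt (fun m' => s * (xq m' j).eval E') m := by
      intro E'
      exact (continuous_const.mul (hcx.comp (continuous_const.prodMk continuous_id) :
        Continuous fun m' => (xq m' j).eval E')).continuousAt
    have hev2 : ∀ᶠ m' in 𝓝 m, s * (xq m' j).eval (E + η) < s * (xq m j).eval E ∧
        s * (xq m' j).eval (E + -η) < s * (xq m j).eval E :=
      ((hcontl (E + η)).eventually (gt_mem_nhds hp)).and
        ((hcontl (E + -η)).eventually (gt_mem_nhds hn))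
    obtain ⟨η2, hη2, hball2⟩ := Metric.eventually_nhds_iff.mp hev2
    set κ : ℝ := min (min (η / 2) (η2 / 2)) (m / 2) with hκ
    have hκ0 : 0 < κ := by positivity
    have hκ1 : κ ≤ η / 2 := (min_le_left _ _).trans (min_le_left _ _)
    have hκ2 : κ ≤ η2 / 2 := (min_le_left _ _).trans (min_le_right _ _)
    have hκ3 : κ ≤ m / 2 := min_le_right _ _
    set m1 : ℝ := m - κ with hm1
    have hb2 := hball2 (y := m1) (by
      rw [Real.dist_eq, hm1, show m - κ - m = -κ by ring, abs_neg, abs_of_pos hκ0]
      linarith)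
    -- monotonicity in the coupling
    have hmono : s * (xq m j).eval E < s * (xq m1 j).eval E := by
      have hd : ∀ m' : ℝ, HasDerivAt (fun m' => s * (xq m' j).eval E) (s * (yq m' j).eval E) m' :=
        fun m' => (hasDerivAt_l j E m').const_mul s
      obtain ⟨ξ, hξ, hslope⟩ := exists_hasDerivAt_eq_slope
        (fun m' => s * (xq m' j).eval E) (fun m' => s * (yq m' j).eval E)
        (show m1 < m by linarith)
        (fun m' _ => (hd m').continuousAt.continuousWithinAt) (fun m' _ => hd m')
      have hneg := (hbox E ξ (by rw [sub_self, abs_zero]; exact hη.le) (by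
        rw [abs_le]; constructor <;> linarith [hξ.1, hξ.2])).2
      rw [hslope] at hneg
      have hpos : 0 < m - m1 := by linarith
      rw [div_neg_iff] at hneg
      rcases hneg with ⟨h, h'⟩ | ⟨h, h'⟩
      · linarith
      · linarith
    -- the maximum
    have hcE : Continuous (fun E' : ℝ => s * (xq m1 j).eval E') :=
      continuous_const.mul (xq m1 j).continuous
    obtain ⟨E', hE'mem, hE'max⟩ := (isCompact_Icc (a := E - η) (b := E + η)).exists_isMaxOn
      ⟨E, by constructor <;> linarith⟩ hcE.continuousOn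
    have hge : s * (xq m1 j).eval E ≤ s * (xq m1 j).eval E' :=
      hE'max (show E ∈ Set.Icc (E - η) (E + η) by constructor <;> linarith)
    have hne1 : E' ≠ E + η := by
      intro h
      rw [h] at hge
      linarith [hb2.1]
    have hne2 : E' ≠ E - η := by
      intro h
      rw [h, sub_eq_add_neg] at hge
      linarith [hb2.2]
    have hint : E' ∈ Set.Ioo (E - η) (E + η) :=
      ⟨lt_of_le_of_ne hE'mem.1 (Ne.symm hne2), lt_of_le_of_ne hE'mem.2 hne1⟩
    have hloc : IsLocalMax (fun E' : ℝ => s * (xq m1 j).eval E') E' :=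
      hE'max.isLocalMax (Icc_mem_nhds hint.1 hint.2)
    have hX' : (derivative (xq m1 j)).eval E' = 0 := by
      have h8 := hloc.hasDerivAt_eq_zero (((xq m1 j).hasDerivAt E').const_mul s)
      rcases mul_eq_zero.mp h8 with h | h
      · rw [h] at hs; norm_num at hs
      · exact h
    have hbE := hbox E' m1 (by rw [abs_le]; constructor <;> linarith [hint.1, hint.2]) (by
      rw [hm1, show m - κ - m = -κ by ring, abs_neg, abs_of_pos hκ0]; linarith)
    have hm1pos : 0 ≤ m1 := by linarith
    have hcm := crit_mem hm1pos hj1 hX'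
    have hK' : (E', m1) ∈ K := by
      refine ⟨hm1pos, by show m1 ≤ l; linarith, hcm.1, by show E' ≤ 2 + l; linarith [hcm.2],
        hX', ?_, ?_⟩
      · show (xq m1 j).eval E' * (yq m1 j).eval E' ≤ 0
        rw [← hprod]
        exact mul_nonpos_of_nonneg_of_nonpos hbE.1.le hbE.2.le
      · show g0 ≤ |(xq m1 j).eval E'|
        have h8 : s * (xq m1 j).eval E' ≤ |(xq m1 j).eval E'| := by
          refine (le_abs_self _).trans (le_of_eq ?_)
          rw [abs_mul]
          have : |s| = 1 := by
            have := sq_abs s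
            rw [hs] at this
            nlinarith [abs_nonneg s]
          rw [this, one_mul]
        rw [← hsx] at h7
        linarith
    have h9 : m ≤ m1 := hmin' _ hK'
    linarith

end Pool.Agent.H98.Fib
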