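import Pool.Agent.H98.Fib.Defs

/-! The algebraic part of the monotonicity theorem. -/

open Polynomial Matrix

namespace Pool.Agent.H98.Fib

namespace MA

/-- real two by two matrices -/
abbrev M2 := Matrix (Fin 2) (Fin 2) ℝ

theorem tr_id (A B : M2) :
    (B * (A * B)).trace = B.trace * (A * B).trace - B.det * A.trace := by
  simp only [Matrix.trace_fin_two, Matrix.det_fin_two, Matrix.mul_apply, Fin.sum_univ_two]
  ring

theorem lin_id (A B A' B' : M2) (h : B'.trace * B.trace - (B' * B).trace = 0) (hB : B.det = 1) :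
    (B' * (A * B) + B * (A' * B + A * B')).trace =
      B'.trace * (A * B).trace + B.trace * (A' * B + A * B').trace - A'.trace := by
  simp only [Matrix.trace_fin_two, Matrix.det_fin_two, Matrix.mul_apply, Fin.sum_univ_two,
    Matrix.add_apply] at *
  linear_combination (-(A 0 0 + A 1 1)) * h - (A' 0 0 + A' 1 1) * hB

theorem det_Mf (l E : ℝ) (n : ℕ) : (Mf l E n).det = 1 := by
  induction n using Nat.strong_induction_on with
  | _ n ih =>
    match n with
    | 0 => simp [Mf, Matrix.det_fin_two]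
    | 1 => simp [Mf, Matrix.det_fin_two]
    | (n+2) => rw [Mf, Matrix.det_mul, ih n (by omega), ih (n+1) (by omega), one_mul]

end MA

open MA

theorem eval_xq (l E : ℝ) (j : ℕ) : (xq l j).eval E = (Mf l E j).trace / 2 := by
  induction j using Nat.strong_induction_on with
  | _ j ih =>
    match j with
    | 0 => simp [xq, Mf, Matrix.trace_fin_two]
    | 1 => simp [xq, Mf, Matrix.trace_fin_two]; ring
    | 2 => simp [xq, Mf, Matrix.trace_fin_two]; ring
    | (j+3) =>
      rw [xq, eval_sub, eval_mul, eval_mul, ih (j+2) (by omega), ih (j+1) (by omega),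
        ih j (by omega)]
      have h1 := tr_id (Mf l E j) (Mf l E (j+1))
      have h2 : Mf l E (j+3) = Mf l E (j+1) * (Mf l E j * Mf l E (j+1)) := by
        rw [Mf, Mf]
      have h3 : Mf l E (j+2) = Mf l E j * Mf l E (j+1) := by rw [Mf]
      rw [h2, h1, h3, det_Mf]
      simp only [eval_ofNat]
      ring

namespace MA

/-! ### definite matrices -/

/-- the quadratic form `det (v, U v)` -/
def QF (U : M2) (x y : ℝ) : ℝ := x * (U 1 0 * x + U 1 1 * y) - y * (U 0 0 * x + U 0 1 * y)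

/-- positive definite, trace zero -/
def Fut (U : M2) : Prop := U.trace = 0 ∧ ∀ x y : ℝ, (x ≠ 0 ∨ y ≠ 0) → 0 < QF U x y

/-- positive semidefinite, trace zero -/
def SFut (U : M2) : Prop := U.trace = 0 ∧ ∀ x y : ℝ, 0 ≤ QF U x y

theorem Fut.sfut {U : M2} (h : Fut U) : SFut U := by
  refine ⟨h.1, fun x y => ?_⟩
  by_cases hxy : x ≠ 0 ∨ y ≠ 0
  · exact (h.2 x y hxy).le
  · push Not at hxy
    rw [hxy.1, hxy.2]
    simp [QF]

theorem QF_add (U V : M2) (x y : ℝ) : QF (U + V) x y = QF U x y + QF V x y := by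
  simp only [QF, Matrix.add_apply]
  ring

theorem SFut.add_fut {U V : M2} (hU : SFut U) (hV : Fut V) : Fut (U + V) := by
  refine ⟨by rw [Matrix.trace_add, hU.1, hV.1, add_zero], fun x y h => ?_⟩
  rw [QF_add]
  exact add_pos_of_nonneg_of_pos (hU.2 x y) (hV.2 x y h)

theorem QF_conj (P U : M2) (x y : ℝ) : QF (P * U * P.adjugate) x y =
    QF U (P 1 1 * x - P 0 1 * y) (-(P 1 0) * x + P 0 0 * y) := by
  simp only [QF, Matrix.mul_apply, Fin.sum_univ_two, Matrix.adjugate_fin_two,
    Matrix.of_apply, Matrix.cons_val_zero, Matrix.cons_val_one, Matrix.cons_val']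
  simp
  ring

theorem trace_conj (P U : M2) (hP : P.det = 1) : (P * U * P.adjugate).trace = U.trace := by
  rw [Matrix.trace_mul_comm, ← Matrix.mul_assoc, Matrix.adjugate_mul, hP, one_smul, one_mul]

theorem Fut.conj {U : M2} (hU : Fut U) {P : M2} (hP : P.det = 1) :
    Fut (P * U * P.adjugate) := by
  refine ⟨by rw [trace_conj P U hP, hU.1], fun x y h => ?_⟩
  rw [QF_conj]
  apply hU.2
  by_contra hc
  push Not at hc
  rw [Matrix.det_fin_two] at hP
  obtain ⟨h1, h2⟩ := hc
  have hx : x = 0 := by linear_combination (-x) * hP + P 0 0 * h1 + P 0 1 * h2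
  have hy : y = 0 := by linear_combination (-y) * hP + P 1 0 * h1 + P 1 1 * h2
  rcases h with h | h
  · exact h hx
  · exact h hy

theorem SFut.conj {U : M2} (hU : SFut U) {P : M2} (hP : P.det = 1) :
    SFut (P * U * P.adjugate) := by
  refine ⟨by rw [trace_conj P U hP, hU.1], fun x y => ?_⟩
  rw [QF_conj]
  exact hU.2 _ _

theorem Fut.entries {U : M2} (h : Fut U) :
    U 1 1 = - U 0 0 ∧ 0 < U 1 0 ∧ U 0 1 < 0 ∧ U 0 0 ^ 2 + U 0 1 * U 1 0 < 0 := by
  have htr : U 1 1 = - U 0 0 := by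
    have := h.1
    rw [Matrix.trace_fin_two] at this
    linarith
  have h1 := h.2 1 0 (Or.inl one_ne_zero)
  have h2 := h.2 0 1 (Or.inr one_ne_zero)
  have hc : 0 < U 1 0 := by
    unfold QF at h1
    linarith
  have h3 := h.2 (U 0 0) (U 1 0) (Or.inr hc.ne')
  unfold QF at h1 h2 h3
  rw [htr] at h3
  refine ⟨htr, hc, by linarith, ?_⟩
  have h4 : 0 < U 1 0 * (-(U 0 0 ^ 2 + U 0 1 * U 1 0)) := by nlinarith
  have h5 := (mul_pos_iff_of_pos_left hc).mp h4
  linarith

theorem fut_of_entries {a b c : ℝ} (hc : 0 < c) (hd : a ^ 2 + b * c < 0) :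
    Fut !![a, b; c, -a] := by
  refine ⟨by simp [Matrix.trace_fin_two], fun x y h => ?_⟩
  have h1 : QF !![a, b; c, -a] x y = c * x ^ 2 - 2 * a * x * y - b * y ^ 2 := by
    simp [QF]
    ring
  rw [h1]
  have h2 : 0 < c * (c * x ^ 2 - 2 * a * x * y - b * y ^ 2) := by
    have h3 : c * (c * x ^ 2 - 2 * a * x * y - b * y ^ 2) =
        (c * x - a * y) ^ 2 + (-(a ^ 2 + b * c)) * y ^ 2 := by ring
    rw [h3]
    by_cases hy : y = 0
    · subst hy
      have hx : x ≠ 0 := by
        rcases h with h | h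
        · exact h
        · exact absurd rfl h
      have : 0 < (c * x) ^ 2 := by positivity
      simpa using this
    · have : 0 < y ^ 2 := by positivity
      have h4 : 0 < (-(a ^ 2 + b * c)) * y ^ 2 := mul_pos (by linarith) this
      nlinarith [sq_nonneg (c * x - a * y)]
  exact (mul_pos_iff_of_pos_left hc).mp h2

/-- the key lemma -/
theorem fut_trace_ne {U P : M2} (hU : Fut U) (hP : P.det = 1) (htr : |P.trace| ≤ 2)
    (h1 : P ≠ 1) (h2 : P ≠ -1) : (U * P).trace ≠ 0 := by
  intro h0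
  obtain ⟨e1, hc, hb, hd⟩ := hU.entries
  simp only [Matrix.trace_fin_two, Matrix.mul_apply, Fin.sum_univ_two] at h0
  rw [Matrix.trace_fin_two] at htr
  rw [Matrix.det_fin_two] at hP
  rw [e1] at h0
  set a := U 0 0
  set b := U 0 1
  set c := U 1 0
  set p := P 0 0
  set q := P 0 1
  set r := P 1 0
  set s := P 1 1
  have h3 : (p - s) ^ 2 + 4 * (q * r) ≤ 0 := by
    have h4 : (p + s) ^ 2 ≤ 4 := by
      have := sq_le_sq' (abs_le.mp htr).1 (abs_le.mp htr).2
      linarith
    nlinarith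
  have h5 : a * (p - s) = -(b * r + c * q) := by linarith
  have h6 : (b * r + c * q) ^ 2 = a ^ 2 * (p - s) ^ 2 := by
    have : (b * r + c * q) ^ 2 = (a * (p - s)) ^ 2 := by rw [h5]; ring
    rw [this]; ring
  have hbc : 0 < -(b * c) := by nlinarith [mul_pos hc (neg_pos.mpr hb)]
  have h7 : a ^ 2 * (p - s) ^ 2 ≤ -(b * c) * (p - s) ^ 2 :=
    mul_le_mul_of_nonneg_right (by linarith) (sq_nonneg _)
  have h8 : -(b * c) * (p - s) ^ 2 ≤ -(b * c) * (-(4 * (q * r))) :=
    mul_le_mul_of_nonneg_left (by linarith) hbc.le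
  have h9 : (b * r - c * q) ^ 2 ≤ 0 := by nlinarith
  have h10 : b * r - c * q = 0 := by nlinarith [sq_nonneg (b * r - c * q)]
  have h11 : (p - s) ^ 2 = 0 := by
    by_contra hne
    have hpos : 0 < (p - s) ^ 2 := lt_of_le_of_ne (sq_nonneg _) (Ne.symm hne)
    have : a ^ 2 * (p - s) ^ 2 < -(b * c) * (p - s) ^ 2 :=
      mul_lt_mul_of_pos_right (by linarith) hpos
    nlinarith
  have hps : p = s := by nlinarith [pow_eq_zero_iff (two_ne_zero) |>.mp h11]
  have h12 : b * r + c * q = 0 := by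
    rw [hps] at h5
    linarith
  have hr : r = 0 := by
    have : b * r = 0 := by linarith
    rcases mul_eq_zero.mp this with h | h
    · exact absurd h hb.ne
    · exact h
  have hq : q = 0 := by
    have : c * q = 0 := by linarith
    rcases mul_eq_zero.mp this with h | h
    · exact absurd h hc.ne'
    · exact h
  have hs : s ^ 2 = 1 := by
    rw [hps, hr, hq] at hP
    linarith
  have hs' : s = 1 ∨ s = -1 := by
    have : (s - 1) * (s + 1) = 0 := by linarith
    rcases mul_eq_zero.mp this with h | h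
    · left; linarith
    · right; linarith
  rcases hs' with h | h
  · apply h1
    ext i k
    fin_cases i <;> fin_cases k
    · show p = 1; rw [hps, h]
    · show q = 0; exact hq
    · show r = 0; exact hr
    · show s = 1; exact h
  · apply h2
    ext i k
    fin_cases i <;> fin_cases k
    · show p = -1; rw [hps, h]
    · show q = -0; rw [hq, neg_zero]
    · show r = -0; rw [hr, neg_zero]
    · show s = -1; exact h

/-- hyperbolic matrices -/
theorem exists_fut {P : M2} (hP : P.det = 1) (htr : 2 < |P.trace|) :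
    ∃ U, Fut U ∧ (U * P).trace = 0 := by
  rw [Matrix.det_fin_two] at hP
  rw [Matrix.trace_fin_two] at htr
  set p := P 0 0
  set q := P 0 1
  set r := P 1 0
  set s := P 1 1
  set D : ℝ := (p - s) ^ 2 + 4 * (q * r) with hD
  have hDpos : 0 < D := by
    have h4 : 4 < (p + s) ^ 2 := by
      have := sq_lt_sq' (by linarith [abs_nonneg (p + s)]) htr
      rw [sq_abs] at this
      linarith
    nlinarith
  have hnorm : (D + 2 * q * (q - r)) * (D - 2 * r * (q - r)) - ((q - r) * (p - s)) ^ 2 =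
      D ^ 2 + D * (q - r) ^ 2 := by
    rw [hD]; ring
  have hpos : 0 < D ^ 2 + D * (q - r) ^ 2 := by positivity
  have hsum : 0 < (D + 2 * q * (q - r)) + (D - 2 * r * (q - r)) := by
    have : (D + 2 * q * (q - r)) + (D - 2 * r * (q - r)) = 2 * D + 2 * (q - r) ^ 2 := by ring
    rw [this]
    positivity
  have hprod : 0 < (D + 2 * q * (q - r)) * (D - 2 * r * (q - r)) := by
    nlinarith [sq_nonneg ((q - r) * (p - s))]
  have hc : 0 < D - 2 * r * (q - r) := by
    by_contra hn
    push Not at hn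
    have h1 : 0 < D + 2 * q * (q - r) := by linarith
    nlinarith [mul_nonneg h1.le (neg_nonneg.mpr hn)]
  refine ⟨!![-((q - r) * (p - s)), -(D + 2 * q * (q - r)); D - 2 * r * (q - r),
    -(-((q - r) * (p - s)))], fut_of_entries hc (by nlinarith), ?_⟩
  simp only [Matrix.trace_fin_two, Matrix.mul_apply, Fin.sum_univ_two]
  show -((q - r) * (p - s)) * p + -(D + 2 * q * (q - r)) * r + ((D - 2 * r * (q - r)) * q +
    -(-((q - r) * (p - s))) * s) = 0
  rw [hD]; ring

/-! ### sequences of logarithmic derivatives -/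

/-- log derivatives of a deformation -/
noncomputable def ws (l E : ℝ) (W0 W1 : M2) : ℕ → M2
  | 0 => W0
  | 1 => W1
  | (n+2) => ws l E W0 W1 n + Mf l E n * ws l E W0 W1 (n+1) * (Mf l E n).adjugate

theorem ws_step (l E : ℝ) (W0 W1 : M2) (n : ℕ) : ws l E W0 W1 (n+2) =
    ws l E W0 W1 n + Mf l E n * ws l E W0 W1 (n+1) * (Mf l E n).adjugate := by
  rw [ws]

theorem ws_trace (l E : ℝ) {W0 W1 : M2} (h0 : W0.trace = 0) (h1 : W1.trace = 0) (n : ℕ) :
    (ws l E W0 W1 n).trace = 0 := by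
  induction n using Nat.strong_induction_on with
  | _ n ih =>
    match n with
    | 0 => exact h0
    | 1 => exact h1
    | (n+2) =>
      rw [ws_step, Matrix.trace_add, trace_conj _ _ (det_Mf l E n), ih n (by omega),
        ih (n+1) (by omega), add_zero]

theorem ws_exists (l E : ℝ) (j : ℕ) : ∀ W W' : M2, W.trace = 0 → W'.trace = 0 →
    ∃ W0 W1 : M2, W0.trace = 0 ∧ W1.trace = 0 ∧ ws l E W0 W1 j = W ∧
      ws l E W0 W1 (j+1) = W' := by
  induction j with
  | zero => intro W W' h h'; exact ⟨W, W', h, h', rfl, rfl⟩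
  | succ j ih =>
    intro W W' h h'
    have h1 : (W' - Mf l E j * W * (Mf l E j).adjugate).trace = 0 := by
      rw [Matrix.trace_sub, trace_conj _ _ (det_Mf l E j), h, h', sub_zero]
    obtain ⟨W0, W1, a, b, c, e⟩ := ih _ _ h1 h
    refine ⟨W0, W1, a, b, e, ?_⟩
    rw [ws_step, c, e, sub_add_cancel]

/-- solutions of the linearised trace map -/
def IsSol (l E : ℝ) (ξ : ℕ → ℝ) : Prop := ∀ n, ξ (n+3) =
  2 * (ξ (n+2) * (xq l (n+1)).eval E + (xq l (n+2)).eval E * ξ (n+1)) - ξ n

theorem IsSol.ext {l E : ℝ} {ξ η : ℕ → ℝ} (h : IsSol l E ξ) (h' : IsSol l E η)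
    (h0 : ξ 0 = η 0) (h1 : ξ 1 = η 1) (h2 : ξ 2 = η 2) (n : ℕ) : ξ n = η n := by
  induction n using Nat.strong_induction_on with
  | _ n ih =>
    match n with
    | 0 => exact h0
    | 1 => exact h1
    | 2 => exact h2
    | (n+3) =>
      rw [h n, h' n, ih n (by omega), ih (n+1) (by omega), ih (n+2) (by omega)]

/-- the solution with given initial values -/
noncomputable def sol (l E a b c : ℝ) : ℕ → ℝ
  | 0 => a
  | 1 => b
  | 2 => c
  | (n+3) => 2 * (sol l E a b c (n+2) * (xq l (n+1)).eval E +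
      (xq l (n+2)).eval E * sol l E a b c (n+1)) - sol l E a b c n

theorem isSol_sol (l E a b c : ℝ) : IsSol l E (sol l E a b c) := fun n => by rw [sol]

theorem sol_exists (l E : ℝ) (j : ℕ) : ∀ a b c : ℝ, ∃ ξ, IsSol l E ξ ∧ ξ j = a ∧ ξ (j+1) = b ∧
    ξ (j+2) = c := by
  induction j with
  | zero => intro a b c; exact ⟨sol l E a b c, isSol_sol l E a b c, rfl, rfl, rfl⟩
  | succ j ih =>
    intro a b c
    obtain ⟨ξ, h, h0, h1, h2⟩ := ih (2 * (b * (xq l (j+1)).eval E +
      (xq l (j+2)).eval E * a) - c) a b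
    refine ⟨ξ, h, h1, h2, ?_⟩
    rw [h j, h0, h1, h2]
    ring

theorem isSol_trace (l E : ℝ) {W0 W1 : M2} (h0 : W0.trace = 0) (h1 : W1.trace = 0) :
    IsSol l E (fun n => (ws l E W0 W1 n * Mf l E n).trace / 2) := by
  have hD : ∀ n, ws l E W0 W1 (n+2) * Mf l E (n+2) =
      (ws l E W0 W1 n * Mf l E n) * Mf l E (n+1) +
        Mf l E n * (ws l E W0 W1 (n+1) * Mf l E (n+1)) := by
    intro n
    have h2 : Mf l E (n+2) = Mf l E n * Mf l E (n+1) := by rw [Mf]
    rw [ws_step, h2, add_mul]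
    congr 1
    · simp only [Matrix.mul_assoc]
    · have h3 : (Mf l E n).adjugate * (Mf l E n * Mf l E (n+1)) = Mf l E (n+1) := by
        rw [← Matrix.mul_assoc, Matrix.adjugate_mul, det_Mf, one_smul, one_mul]
      rw [Matrix.mul_assoc (Mf l E n * ws l E W0 W1 (n+1)), h3, Matrix.mul_assoc]
  intro n
  show (ws l E W0 W1 (n+3) * Mf l E (n+3)).trace / 2 = 2 * ((ws l E W0 W1 (n+2) *
    Mf l E (n+2)).trace / 2 * (xq l (n+1)).eval E + (xq l (n+2)).eval E *
      ((ws l E W0 W1 (n+1) * Mf l E (n+1)).trace / 2)) - (ws l E W0 W1 n * Mf l E n).trace / 2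
  have h2 : Mf l E (n+2) = Mf l E n * Mf l E (n+1) := by rw [Mf]
  set A := Mf l E n
  set B := Mf l E (n+1)
  set A' := ws l E W0 W1 n * A
  set B' := ws l E W0 W1 (n+1) * B with hB'
  have h3 : ws l E W0 W1 (n+3) * Mf l E (n+3) = B' * (A * B) + B * (A' * B + A * B') := by
    rw [hD (n+1), hD n, h2]
  have hBdet : B.det = 1 := det_Mf l E (n+1)
  have htrW : (ws l E W0 W1 (n+1)).trace = 0 := ws_trace l E h0 h1 (n+1)
  have h4 : B'.trace * B.trace - (B' * B).trace = 0 := by
    rw [hB']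
    rw [Matrix.det_fin_two] at hBdet
    rw [Matrix.trace_fin_two] at htrW
    simp only [Matrix.trace_fin_two, Matrix.mul_apply, Fin.sum_univ_two]
    linear_combination (B 0 0 * B 1 1 - B 0 1 * B 1 0) * htrW
  rw [h3, lin_id A B A' B' h4 hBdet, eval_xq, eval_xq, hD n, h2]
  ring

theorem ws_descend (l E : ℝ) {W0 W1 : M2} (j : ℕ) :
    ((Fut (-(ws l E W0 W1 j)) ∧ SFut (ws l E W0 W1 (j+1))) ∨
      (Fut (ws l E W0 W1 j) ∧ SFut (-(ws l E W0 W1 (j+1))))) → (Fut W0 ∨ Fut (-W0)) := by
  induction j with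
  | zero =>
    rintro (h | h)
    · exact Or.inr h.1
    · exact Or.inl h.1
  | succ j ih =>
    intro h
    have hst := ws_step l E W0 W1 j
    rcases h with h | h
    · have h1 : ws l E W0 W1 j = ws l E W0 W1 (j+2) +
          Mf l E j * (-(ws l E W0 W1 (j+1))) * (Mf l E j).adjugate := by
        rw [hst]
        simp
      refine ih (Or.inr ⟨?_, h.1.sfut⟩)
      rw [h1]
      exact h.2.add_fut (h.1.conj (det_Mf l E j))
    · have h1 : -(ws l E W0 W1 j) = -(ws l E W0 W1 (j+2)) +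
          Mf l E j * (ws l E W0 W1 (j+1)) * (Mf l E j).adjugate := by
        rw [hst]
        simp
      refine ih (Or.inl ⟨?_, h.1.sfut⟩)
      rw [h1]
      exact h.2.add_fut (h.1.conj (det_Mf l E j))

/-! ### the energy derivative -/

/-- initial log derivative -/
def Nm : M2 := !![0, 1; 0, 0]

theorem isSol_X (l E : ℝ) : IsSol l E (fun n => (derivative (xq l n)).eval E) := by
  intro n
  show (derivative (xq l (n+3))).eval E = 2 * ((derivative (xq l (n+2))).eval E *
    (xq l (n+1)).eval E + (xq l (n+2)).eval E * (derivative (xq l (n+1))).eval E) -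
      (derivative (xq l n)).eval E
  rw [xq]
  simp
  ring

theorem isSol_Y (l E : ℝ) : IsSol l E (fun n => (yq l n).eval E) := by
  intro n
  show (yq l (n+3)).eval E = 2 * ((yq l (n+2)).eval E *
    (xq l (n+1)).eval E + (xq l (n+2)).eval E * (yq l (n+1)).eval E) - (yq l n).eval E
  rw [yq]
  simp

theorem X_eq (l E : ℝ) (n : ℕ) : (derivative (xq l n)).eval E =
    (ws l E 0 Nm n * Mf l E n).trace / 2 := by
  refine (isSol_X l E).ext (isSol_trace l E (by simp) (by simp [Nm, Matrix.trace_fin_two]))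
    ?_ ?_ ?_ n
  · simp [xq, ws]
  · simp [xq, ws, Nm, Mf, Matrix.trace_fin_two]
  · simp [xq, ws, Nm, Mf, Matrix.trace_fin_two, Matrix.adjugate_fin_two]

theorem fut_U3 (l E : ℝ) : Fut (-(ws l E 0 Nm 3)) := by
  have h : -(ws l E 0 Nm 3) = !![E, -(1 + E^2); 1, -E] := by
    simp only [ws, Nm, Mf, Matrix.adjugate_fin_two]
    ext i k
    fin_cases i <;> fin_cases k <;> simp <;> ring
  rw [h]
  refine fut_of_entries one_pos ?_
  ring_nf
  norm_num

theorem sfut_U2 (l E : ℝ) : SFut (-(ws l E 0 Nm 2)) := by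
  have h : -(ws l E 0 Nm 2) = !![0, -1; 0, 0] := by
    simp only [ws, Nm, Mf, Matrix.adjugate_fin_two]
    ext i k
    fin_cases i <;> fin_cases k <;> simp
  rw [h]
  refine ⟨by simp [Matrix.trace_fin_two], fun x y => ?_⟩
  simp [QF]
  nlinarith [sq_nonneg y]

theorem fut_U (l E : ℝ) (n : ℕ) : Fut (-(ws l E 0 Nm (n+3))) ∧ SFut (-(ws l E 0 Nm (n+2))) := by
  induction n with
  | zero => exact ⟨fut_U3 l E, sfut_U2 l E⟩
  | succ n ih =>
    refine ⟨?_, ih.1.sfut⟩
    have h1 : -(ws l E 0 Nm (n+1+3)) = -(ws l E 0 Nm (n+2)) +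
        Mf l E (n+2) * (-(ws l E 0 Nm (n+3))) * (Mf l E (n+2)).adjugate := by
      have := ws_step l E 0 Nm (n+2)
      rw [show n+1+3 = n+2+2 by ring, this]
      simp
      abel
    rw [h1]
    exact ih.2.add_fut (ih.1.conj (det_Mf l E (n+2)))

/-! ### the invariant -/

theorem tr_rec (l E : ℝ) (n : ℕ) : (Mf l E (n+3)).trace =
    (Mf l E (n+2)).trace * (Mf l E (n+1)).trace - (Mf l E n).trace := by
  have h1 := tr_id (Mf l E n) (Mf l E (n+1))
  have h2 : Mf l E (n+3) = Mf l E (n+1) * (Mf l E n * Mf l E (n+1)) := by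
    rw [Mf, Mf]
  have h3 : Mf l E (n+2) = Mf l E n * Mf l E (n+1) := by rw [Mf]
  rw [h2, h1, h3, det_Mf]
  ring

theorem invariant (l E : ℝ) (n : ℕ) : (Mf l E n).trace ^ 2 + (Mf l E (n+1)).trace ^ 2 +
    (Mf l E (n+2)).trace ^ 2 - (Mf l E n).trace * (Mf l E (n+1)).trace * (Mf l E (n+2)).trace
      - 4 = l ^ 2 := by
  induction n with
  | zero =>
    simp only [Mf, Matrix.trace_fin_two, Matrix.mul_apply, Fin.sum_univ_two]
    simp
    ring
  | succ n ih =>
    rw [show n+1+2 = n+3 by ring, show n+1+1 = n+2 by ring, tr_rec]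
    linear_combination ih

theorem ne_one (l E : ℝ) (hl : l ≠ 0) (n : ℕ) (ε : ℝ) (hε : ε ^ 2 = 1) :
    Mf l E (n+1) ≠ ε • (1 : M2) := by
  intro h
  have h1 := invariant l E n
  have h2 : Mf l E (n+2) = Mf l E n * Mf l E (n+1) := by rw [Mf]
  rw [h2, h] at h1
  simp only [Matrix.mul_smul, Matrix.mul_one, Matrix.trace_smul, smul_eq_mul,
    Matrix.trace_one, Fintype.card_fin] at h1
  apply hl
  have h3 : l ^ 2 = 0 := by
    rw [← h1]
    push_cast
    linear_combination (4 - (Mf l E n).trace ^ 2) * hε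
  exact pow_eq_zero_iff (two_ne_zero) |>.mp h3

end MA

/-- At a critical point, the half trace has modulus greater than one. -/
theorem one_lt_abs_of_crit (l E : ℝ) (hl : l ≠ 0) (j : ℕ) (hj : 3 ≤ j)
    (hX : (derivative (xq l j)).eval E = 0) : 1 < |(xq l j).eval E| := by
  obtain ⟨n, rfl⟩ : ∃ n, j = n + 3 := ⟨j - 3, by omega⟩
  by_contra hc
  push Not at hc
  have hF := (fut_U l E n).1
  have htr : |(Mf l E (n+3)).trace| ≤ 2 := by
    rw [eval_xq, abs_div, abs_two] at hc
    linarith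
  have h1 : Mf l E (n+3) ≠ 1 := by
    have := ne_one l E hl (n+2) 1 (by norm_num)
    rwa [one_smul] at this
  have h2 : Mf l E (n+3) ≠ -1 := by
    have := ne_one l E hl (n+2) (-1) (by norm_num)
    rwa [neg_smul, one_smul] at this
  have h3 := fut_trace_ne hF (det_Mf l E (n+3)) htr h1 h2
  apply h3
  rw [X_eq] at hX
  rw [Matrix.neg_mul, Matrix.trace_neg]
  linarith

/-- `∂_E x_j` and `∂_l x_j` have no common zero. -/
theorem yq_ne_zero_of_crit (l E : ℝ) (hl : l ≠ 0) (j : ℕ) (hj : 3 ≤ j)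
    (hX : (derivative (xq l j)).eval E = 0) : (yq l j).eval E ≠ 0 := by
  intro hY
  have h1 := one_lt_abs_of_crit l E hl j hj hX
  have htr : 2 < |(Mf l E j).trace| := by
    rw [eval_xq, abs_div, abs_two] at h1
    linarith
  obtain ⟨u, hu, hu0⟩ := exists_fut (det_Mf l E j) htr
  obtain ⟨n, rfl⟩ : ∃ n, j = n + 2 := ⟨j - 2, by omega⟩
  obtain ⟨W0, W1, hW0, hW1, e0, e1⟩ := ws_exists l E n (-u) 0
    (by rw [Matrix.trace_neg, hu.1, neg_zero]) (by simp)
  have hdesc : Fut W0 ∨ Fut (-W0) := by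
    refine ws_descend l E (W0 := W0) (W1 := W1) n (Or.inl ⟨?_, ?_⟩)
    · rw [e0, neg_neg]; exact hu
    · rw [e1]
      exact ⟨by simp, fun x y => by simp [QF]⟩
  set ξ : ℕ → ℝ := fun n => (ws l E W0 W1 n * Mf l E n).trace / 2 with hξ
  have hsol : IsSol l E ξ := isSol_trace l E hW0 hW1
  have hξj : ξ (n+2) = 0 := by
    show (ws l E W0 W1 (n+2) * Mf l E (n+2)).trace / 2 = 0
    rw [ws_step, e0, e1]
    simp only [Matrix.mul_zero, Matrix.zero_mul, add_zero, Matrix.neg_mul, Matrix.trace_neg]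
    rw [hu0]
    norm_num
  have hM0 : (Mf l E 0).trace = 2 := by
    simp [Mf, Matrix.trace_fin_two]; norm_num
  have hM0a : Mf l E 0 ≠ 1 := by
    intro h
    have := congrFun (congrFun h 0) 1
    simp [Mf] at this
    exact hl this
  have hM0b : Mf l E 0 ≠ -1 := by
    intro h
    have := congrFun (congrFun h 0) 0
    simp [Mf] at this
    norm_num at this
  have hξ0 : ξ 0 ≠ 0 := by
    show (W0 * Mf l E 0).trace / 2 ≠ 0
    have hle : |(Mf l E 0).trace| ≤ 2 := by rw [hM0]; norm_num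
    rcases hdesc with h | h
    · have := fut_trace_ne h (det_Mf l E 0) hle hM0a hM0b
      exact div_ne_zero this two_ne_zero
    · have := fut_trace_ne h (det_Mf l E 0) hle hM0a hM0b
      rw [Matrix.neg_mul, Matrix.trace_neg] at this
      exact div_ne_zero (neg_ne_zero.mp this) two_ne_zero
  -- linear algebra
  have key : ∀ η : ℕ → ℝ, IsSol l E η → η (n+2) = η 0 * sol l E 1 0 0 (n+2) := by
    intro η hη
    have h2 : ∀ m, η m = η 0 * sol l E 1 0 0 m + (2 * η 1) * (derivative (xq l m)).eval E +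
        (2 * η 1 - 2 * η 2) * (yq l m).eval E := by
      refine hη.ext ?_ ?_ ?_ ?_
      · intro m
        have a1 := isSol_sol l E 1 0 0 m
        have a2 := isSol_X l E m
        have a3 := isSol_Y l E m
        simp only at a2 a3 ⊢
        rw [a1, a2, a3]
        ring
      · simp [sol, xq, yq]
      · simp [sol, xq, yq]
        ring
      · simp [sol, xq, yq]
        ring
    have h3 := h2 (n+2)
    rw [hX, hY] at h3
    rw [h3]
    ring
  have hs0 : sol l E 1 0 0 (n+2) = 0 := by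
    have := key ξ hsol
    rw [hξj] at this
    rcases mul_eq_zero.mp this.symm with h | h
    · exact absurd h hξ0
    · exact h
  obtain ⟨η, hη, hη1, -, -⟩ := sol_exists l E (n+2) 1 0 0
  have := key η hη
  rw [hη1, hs0, mul_zero] at this
  exact one_ne_zero this

end Pool.Agent.H98.Fib
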