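import Mathlib

/-! A Wronskian inequality. -/

open Polynomial Finset

namespace Pool.Agent.H98.Fib

/-- the Laguerre inequality -/
theorem laguerre_prod (s : Multiset ℝ) (x : ℝ) :
    0 ≤ ((derivative (s.map (fun r => X - C r)).prod).eval x) ^ 2
      - (s.map (fun r => X - C r)).prod.eval x *
        (derivative (derivative (s.map (fun r => X - C r)).prod)).eval x ∧
    (s ≠ 0 → (s.map (fun r => X - C r)).prod.eval x ≠ 0 →
      0 < ((derivative (s.map (fun r => X - C r)).prod).eval x) ^ 2
      - (s.map (fun r => X - C r)).prod.eval x *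
        (derivative (derivative (s.map (fun r => X - C r)).prod)).eval x) := by
  induction s using Multiset.induction_on with
  | empty => simp
  | cons r s ih =>
    rw [Multiset.map_cons, Multiset.prod_cons]
    set q := (s.map (fun r => X - C r)).prod with hq
    have key : ((derivative ((X - C r) * q)).eval x) ^ 2
      - ((X - C r) * q).eval x * (derivative (derivative ((X - C r) * q))).eval x
      = (q.eval x) ^ 2 + (x - r) ^ 2 * (((derivative q).eval x) ^ 2
        - q.eval x * (derivative (derivative q)).eval x) := by
      simp only [derivative_mul, derivative_sub, derivative_X, derivative_C, derivative_add,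
        eval_mul, eval_add, eval_sub, eval_X, eval_C, sub_zero, one_mul]
      ring
    rw [key]
    refine ⟨?_, fun _ hne => ?_⟩
    · have := mul_nonneg (sq_nonneg (x - r)) ih.1
      have h2 := sq_nonneg (q.eval x)
      linarith
    · rw [eval_mul] at hne
      have hq0 : q.eval x ≠ 0 := right_ne_zero_of_mul hne
      have := mul_nonneg (sq_nonneg (x - r)) ih.1
      have h2 : 0 < (q.eval x) ^ 2 := by positivity
      linarith

theorem laguerre (p : ℝ[X]) (hp : Multiset.card p.roots = p.natDegree) (hdeg : 1 ≤ p.natDegree)
    (x : ℝ) (hx : p.eval x ≠ 0) (hd : (derivative p).eval x = 0) :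
    p.eval x * (derivative (derivative p)).eval x < 0 := by
  have h1 := C_leadingCoeff_mul_prod_multiset_X_sub_C hp
  set q := (p.roots.map (fun r => X - C r)).prod with hq
  have hne : p ≠ 0 := by intro h; rw [h] at hdeg; simp at hdeg
  have ha : p.leadingCoeff ≠ 0 := leadingCoeff_ne_zero.mpr hne
  have hs : p.roots ≠ 0 := by
    intro h; rw [h] at hp; simp at hp; omega
  have h2 := (laguerre_prod p.roots x).2 hs
  rw [← hq] at h2
  have e0 : p.eval x = p.leadingCoeff * q.eval x := by
    conv_lhs => rw [← h1]
    rw [eval_mul, eval_C]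
  have e1 : (derivative p).eval x = p.leadingCoeff * (derivative q).eval x := by
    conv_lhs => rw [← h1]
    rw [derivative_C_mul, eval_mul, eval_C]
  have e2 : (derivative (derivative p)).eval x
      = p.leadingCoeff * (derivative (derivative q)).eval x := by
    conv_lhs => rw [← h1]
    rw [derivative_C_mul, derivative_C_mul, eval_mul, eval_C]
  have hq0 : q.eval x ≠ 0 := by
    intro h; apply hx; rw [e0, h, mul_zero]
  have h3 := h2 hq0
  have h4 : (derivative q).eval x = 0 := by
    rw [e1] at hd
    exact (mul_eq_zero.mp hd).resolve_left ha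
  rw [h4] at h3
  rw [e0, e2]
  have ha2 : 0 < p.leadingCoeff ^ 2 := by positivity
  nlinarith

/-- `p` has only real simple zeros, `deg Y < deg p`, and `p * Y ≥ 0` at the critical points of `p`.
Then `Y' p' - Y p'' ≥ 0` everywhere. -/
theorem wronskian_nonneg (p Y : ℝ[X]) (hp : Multiset.card p.roots = p.natDegree)
    (hnd : p.roots.Nodup) (hY : Y.natDegree + 1 ≤ p.natDegree)
    (h : ∀ c, (derivative p).eval c = 0 → 0 ≤ p.eval c * Y.eval c) (E : ℝ) :
    0 ≤ (derivative Y).eval E * (derivative p).eval E
      - Y.eval E * (derivative (derivative p)).eval E := by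
  classical
  have hdeg : 1 ≤ p.natDegree := by omega
  have hne : p ≠ 0 := by intro h; rw [h] at hdeg; simp at hdeg
  set P := derivative p with hP
  have hPdeg : P.natDegree = p.natDegree - 1 := natDegree_derivative p
  have hPne : P ≠ 0 := by
    intro h0
    have := derivative_eq_zero.mp h0
    omega
  -- critical points
  have hcrit0 : ∀ c, P.eval c = 0 → p.eval c ≠ 0 := by
    intro c hc hpc
    have h1 : 1 < p.rootMultiplicity c := by
      rw [one_lt_rootMultiplicity_iff_isRoot hne]
      exact ⟨hpc, hc⟩
    have h2 := Multiset.nodup_iff_count_le_one.mp hnd c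
    rw [count_roots] at h2
    omega
  have hcrit : ∀ c, P.eval c = 0 → p.eval c * (derivative P).eval c < 0 := by
    intro c hc
    exact laguerre p hp hdeg c (hcrit0 c hc) hc
  have hcardP : Multiset.card P.roots = P.natDegree := by
    have h1 := card_roots_le_derivative p
    have h2 := card_roots' P
    rw [← hP] at h1
    omega
  have hPnd : P.roots.Nodup := by
    rw [Multiset.nodup_iff_count_le_one]
    intro c
    rw [count_roots]
    by_contra hc
    rw [not_le, one_lt_rootMultiplicity_iff_isRoot hPne] at hc
    have := hcrit c hc.1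
    rw [show (derivative P).eval c = 0 from hc.2] at this
    simp at this
  set S := P.roots.toFinset with hS
  have hScard : S.card = P.natDegree := by
    rw [hS, Multiset.toFinset_card_of_nodup hPnd, hcardP]
  have hSmem : ∀ c ∈ S, P.eval c = 0 := by
    intro c hc
    rw [hS, Multiset.mem_toFinset, mem_roots hPne] at hc
    exact hc
  set b := P.leadingCoeff with hb
  have hb0 : b ≠ 0 := leadingCoeff_ne_zero.mpr hPne
  have hPprod : P = C b * ∏ c ∈ S, (X - C c) := by
    have h1 := C_leadingCoeff_mul_prod_multiset_X_sub_C hcardP
    rw [← hb] at h1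
    conv_lhs => rw [← h1]
    congr 1
    rw [Finset.prod, hS, Multiset.toFinset_val, hPnd.dedup]
  let L : ℝ → ℝ[X] := fun c => C b * ∏ c' ∈ S.erase c, (X - C c')
  have hL : ∀ c ∈ S, P = (X - C c) * L c := by
    intro c hc
    show P = (X - C c) * (C b * ∏ c' ∈ S.erase c, (X - C c'))
    rw [hPprod, ← Finset.mul_prod_erase S _ hc]
    ring
  have hLd : ∀ c ∈ S, (derivative P).eval c = (L c).eval c := by
    intro c hc
    rw [hL c hc, derivative_mul]
    simp
  have hL0 : ∀ c ∈ S, ∀ c' ∈ S, c' ≠ c → (L c).eval c' = 0 := by
    intro c hc c' hc' hne'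
    show (C b * ∏ c'' ∈ S.erase c, (X - C c'')).eval c' = 0
    rw [eval_mul, eval_prod, Finset.prod_eq_zero (i := c') (Finset.mem_erase.mpr ⟨hne', hc'⟩)]
    · simp
    · simp
  have hLne : ∀ c ∈ S, (L c).eval c ≠ 0 := by
    intro c hc h0
    rw [← hLd c hc] at h0
    have := hcrit c (hSmem c hc)
    rw [h0] at this; simp at this
  -- remove the top coefficient
  set α := Y.coeff P.natDegree / b with hα
  set Z := Y - C α * P with hZ
  have hZdeg : Z.degree < S.card := by
    rw [hScard, degree_lt_iff_coeff_zero]
    intro m hm
    rw [hZ, coeff_sub, coeff_C_mul]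
    rcases Nat.lt_or_ge P.natDegree m with h1 | h1
    · rw [coeff_eq_zero_of_natDegree_lt (p := Y) (by omega), coeff_eq_zero_of_natDegree_lt h1]
      ring
    · have : m = P.natDegree := by omega
      rw [this, hα, coeff_natDegree, ← hb]
      field_simp
      ring
  have hZc : ∀ c ∈ S, Z.eval c = Y.eval c := by
    intro c hc
    rw [hZ, eval_sub, eval_mul, hSmem c hc]; ring
  have hsum : Z = ∑ c ∈ S, C (Z.eval c / (L c).eval c) * L c := by
    apply eq_of_degrees_lt_of_eval_finset_eq S hZdeg
    · apply (degree_sum_le _ _).trans_lt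
      rw [Finset.sup_lt_iff]
      · intro c hc
        have hle : ∀ (a : ℝ) (q : ℝ[X]), (C a * q).degree ≤ q.degree := by
          intro a q
          by_cases ha : a = 0
          · rw [ha]; simp
          · rw [degree_C_mul ha]
        apply (hle _ _).trans_lt
        have hcard : (S.erase c).card = S.card - 1 := Finset.card_erase_of_mem hc
        have hpos : 0 < S.card := Finset.card_pos.mpr ⟨c, hc⟩
        have h1 : (L c).degree ≤ ((S.card - 1 : ℕ) : WithBot ℕ) := by
          apply (hle _ _).trans
          rw [degree_prod]
          simp only [degree_X_sub_C, Finset.sum_const, hcard, nsmul_eq_mul, mul_one]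
          exact le_rfl
        apply h1.trans_lt
        exact_mod_cast (by omega : S.card - 1 < S.card)
      · exact WithBot.bot_lt_coe _
    · intro c hc
      rw [eval_finsetSum, Finset.sum_eq_single c]
      · rw [eval_mul, eval_C, div_mul_cancel₀ _ (hLne c hc)]
      · intro c' hc' hne'
        rw [eval_mul, hL0 c' hc' c hc (Ne.symm hne')]; ring
      · intro h; exact absurd hc h
  -- the Wronskian
  have hW : (derivative Y).eval E * P.eval E - Y.eval E * (derivative P).eval E =
      (derivative Z).eval E * P.eval E - Z.eval E * (derivative P).eval E := by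
    rw [hZ]
    simp only [derivative_sub, derivative_C_mul, eval_sub, eval_mul, eval_C]
    ring
  have hWsum : (derivative Z).eval E * P.eval E - Z.eval E * (derivative P).eval E =
      ∑ c ∈ S, (Z.eval c / (L c).eval c) * (-((L c).eval E) ^ 2) := by
    have e1 : (derivative Z).eval E = ∑ c ∈ S, (Z.eval c / (L c).eval c) *
        (derivative (L c)).eval E := by
      conv_lhs => rw [hsum]
      rw [derivative_sum, eval_finsetSum]
      apply Finset.sum_congr rfl
      intro c _
      rw [derivative_C_mul, eval_mul, eval_C]
    have e0 : Z.eval E = ∑ c ∈ S, (Z.eval c / (L c).eval c) * (L c).eval E := by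
      conv_lhs => rw [hsum]
      rw [eval_finsetSum]
      apply Finset.sum_congr rfl
      intro c _
      rw [eval_mul, eval_C]
    rw [e1, e0, Finset.sum_mul, Finset.sum_mul, ← Finset.sum_sub_distrib]
    apply Finset.sum_congr rfl
    intro c hc
    have h1 : P.eval E = (E - c) * (L c).eval E := by
      conv_lhs => rw [hL c hc]
      simp
    have h2 : (derivative P).eval E = (L c).eval E + (E - c) * (derivative (L c)).eval E := by
      conv_lhs => rw [hL c hc]
      rw [derivative_mul]; simp
    rw [h1, h2]; ring
  rw [hW, hWsum]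
  apply Finset.sum_nonneg
  intro c hc
  have h1 := hcrit c (hSmem c hc)
  have h2 := h c (hSmem c hc)
  rw [hLd c hc] at h1
  rw [hZc c hc]
  have h3 : Y.eval c / (L c).eval c ≤ 0 := by
    rcases lt_or_gt_of_ne (hLne c hc) with hneg | hpos
    · have hp : 0 < p.eval c := by nlinarith
      have hy : 0 ≤ Y.eval c := nonneg_of_mul_nonneg_right h2 hp
      exact div_nonpos_of_nonneg_of_nonpos hy hneg.le
    · have hp : p.eval c < 0 := by nlinarith
      have hy : Y.eval c ≤ 0 := by
        by_contra hc'
        rw [not_le] at hc'
        have := mul_neg_of_neg_of_pos hp hc'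
        linarith
      exact div_nonpos_of_nonpos_of_nonneg hy hpos.le
  have h4 := sq_nonneg ((L c).eval E)
  nlinarith

end Pool.Agent.H98.Fib
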