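import Pool.Agent.H98.Fib.Defs

/-! Joint derivatives of the half traces in the energy and the coupling. -/

open Polynomial Filter Topology Asymptotics

namespace Pool.Agent.H98.Fib

/-- the linear map `(E, l) ↦ a * E + b * l` -/
noncomputable def lin2 (a b : ℝ) : ℝ × ℝ →L[ℝ] ℝ :=
  a • ContinuousLinearMap.fst ℝ ℝ ℝ + b • ContinuousLinearMap.snd ℝ ℝ ℝ

theorem lin2_apply (a b : ℝ) (p : ℝ × ℝ) : lin2 a b p = a * p.1 + b * p.2 := by
  simp [lin2]

theorem lin2_zero : lin2 0 0 = 0 := by
  ext <;> simp [lin2]

/-- the family of polynomials `f` (depending on `l`) has at `(E, l)` the partial derivatives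
`f'` in `E` and `g` in `l` -/
def JD (f : ℝ → ℝ[X]) (E l a b : ℝ) : Prop :=
  HasFDerivAt (fun p : ℝ × ℝ => (f p.2).eval p.1) (lin2 a b) (E, l)

theorem JD.mk' {f : ℝ → ℝ[X]} {E l a b : ℝ} {F : ℝ × ℝ → ℝ} {L : ℝ × ℝ →L[ℝ] ℝ}
    (h : HasFDerivAt F L (E, l)) (hF : ∀ p : ℝ × ℝ, F p = (f p.2).eval p.1)
    (hL : ∀ p : ℝ × ℝ, L p = a * p.1 + b * p.2) : JD f E l a b := by
  have e1 : F = fun p => (f p.2).eval p.1 := funext hF
  have e2 : L = lin2 a b := ContinuousLinearMap.ext fun p => by rw [hL, lin2_apply]
  unfold JD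
  rw [← e1, ← e2]
  exact h

theorem JD.add {f g : ℝ → ℝ[X]} {E l a b c d : ℝ} (hf : JD f E l a b) (hg : JD g E l c d) :
    JD (fun t => f t + g t) E l (a + c) (b + d) := by
  refine JD.mk' (HasFDerivAt.fun_add hf hg) (fun p => ?_) (fun p => ?_)
  · simp only [eval_add]
  · rw [_root_.add_apply, lin2_apply, lin2_apply]
    ring

theorem JD.sub {f g : ℝ → ℝ[X]} {E l a b c d : ℝ} (hf : JD f E l a b) (hg : JD g E l c d) :
    JD (fun t => f t - g t) E l (a - c) (b - d) := by
  refine JD.mk' (HasFDerivAt.fun_sub hf hg) (fun p => ?_) (fun p => ?_)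
  · simp only [eval_sub]
  · rw [_root_.sub_apply, lin2_apply, lin2_apply]
    ring

theorem JD.mul {f g : ℝ → ℝ[X]} {E l a b c d : ℝ} (hf : JD f E l a b) (hg : JD g E l c d) :
    JD (fun t => f t * g t) E l (a * (g l).eval E + (f l).eval E * c)
      (b * (g l).eval E + (f l).eval E * d) := by
  refine JD.mk' (HasFDerivAt.fun_mul hf hg) (fun p => ?_) (fun p => ?_)
  · simp only [eval_mul]
  · rw [_root_.add_apply, _root_.smul_apply,
      _root_.smul_apply, lin2_apply, lin2_apply, smul_eq_mul, smul_eq_mul]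
    ring

theorem JD.const_mul {f : ℝ → ℝ[X]} {E l a b : ℝ} (c : ℝ) (hf : JD f E l a b) :
    JD (fun t => C c * f t) E l (c * a) (c * b) := by
  refine JD.mk' (HasFDerivAt.const_mul hf c) (fun p => ?_) (fun p => ?_)
  · simp only [eval_mul, eval_C]
  · rw [_root_.smul_apply, lin2_apply, smul_eq_mul]
    ring

theorem JD.const (p : ℝ[X]) (E l : ℝ) : JD (fun _ => p) E l ((derivative p).eval E) 0 := by
  have h1 : HasFDerivAt (fun q : ℝ × ℝ => q.1) (ContinuousLinearMap.fst ℝ ℝ ℝ) (E, l) :=
    hasFDerivAt_fst
  have h2 : HasDerivAt (fun x : ℝ => p.eval x) ((derivative p).eval E) E := p.hasDerivAt E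
  refine JD.mk' (h2.comp_hasFDerivAt (x := (E, l)) (f := fun q : ℝ × ℝ => q.1) h1)
    (fun p => rfl) (fun p => ?_)
  rw [_root_.smul_apply, smul_eq_mul, ContinuousLinearMap.coe_fst']
  ring

theorem JD.ofC (E l : ℝ) : JD (fun t => C t) E l 0 1 := by
  have h1 : HasFDerivAt (fun q : ℝ × ℝ => q.2) (ContinuousLinearMap.snd ℝ ℝ ℝ) (E, l) :=
    hasFDerivAt_snd
  refine JD.mk' h1 (fun p => ?_) (fun p => ?_)
  · simp only [eval_C]
  · rw [ContinuousLinearMap.coe_snd']
    ring

theorem JD.congr {f : ℝ → ℝ[X]} {E l a b a' b' : ℝ} (h : JD f E l a b) (ha : a = a') (hb : b = b') :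
    JD f E l a' b' := by
  subst ha hb
  exact h

/-- first and second level together -/
theorem jd_xq (E l : ℝ) (j : ℕ) :
    JD (fun t => xq t j) E l ((derivative (xq l j)).eval E) ((yq l j).eval E) ∧
    JD (fun t => derivative (xq t j)) E l ((derivative (derivative (xq l j))).eval E)
      ((derivative (yq l j)).eval E) := by
  induction j using Nat.strong_induction_on with
  | _ j ih =>
    match j, ih with
    | 0, _ =>
      constructor
      · have h := JD.const (1 : ℝ[X]) E l
        refine JD.congr (f := fun t => xq t 0) h ?_ ?_ <;> simp [xq, yq]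
      · have h := JD.const (derivative (1 : ℝ[X])) E l
        refine JD.congr (f := fun t => derivative (xq t 0)) h ?_ ?_ <;> simp [xq, yq]
    | 1, _ =>
      constructor
      · have h := JD.const (C (1 / 2) * X : ℝ[X]) E l
        refine JD.congr (f := fun t => xq t 1) h ?_ ?_ <;> simp [xq, yq]
      · have h := JD.const (derivative (C (1 / 2) * X : ℝ[X])) E l
        refine JD.congr (f := fun t => derivative (xq t 1)) h ?_ ?_ <;> simp [xq, yq]
    | 2, _ =>
      constructor
      · have h1 := JD.const (C (1 / 2) * X : ℝ[X]) E l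
        have h4 := h1.sub ((JD.ofC E l).const_mul (1 / 2))
        have h5 : (fun t => xq t 2) = fun t => C (1 / 2) * X - C (1 / 2) * C t := by
          funext t
          simp only [xq]
          ring
        rw [h5]
        refine JD.congr h4 ?_ ?_
        · simp [xq]
        · simp [yq]
          norm_num
      · have h5 : (fun t => derivative (xq t 2)) = fun _ => (C (1 / 2) : ℝ[X]) := by
          funext t
          simp [xq]
        rw [h5]
        have h := JD.const (C (1 / 2) : ℝ[X]) E l
        refine JD.congr h ?_ ?_ <;> simp [xq, yq]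
    | (j + 3), ih =>
      obtain ⟨a1, a2⟩ := ih (j + 2) (by omega)
      obtain ⟨b1, b2⟩ := ih (j + 1) (by omega)
      obtain ⟨c1, c2⟩ := ih j (by omega)
      have e0 : ∀ p q : ℝ[X], 2 * p * q = C 2 * (p * q) := by
        intro p q
        have : (2 : ℝ[X]) = C 2 := rfl
        rw [this]
        ring
      constructor
      · have h5 : (fun t => xq t (j + 3)) =
            fun t => C 2 * (xq t (j + 2) * xq t (j + 1)) - xq t j := by
          funext t
          rw [← e0]
          rfl
        rw [h5]
        refine JD.congr (((a1.mul b1).const_mul 2).sub c1) ?_ ?_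
        · simp only [xq, derivative_sub, derivative_mul, eval_sub, eval_add, eval_mul]
          simp
          ring
        · simp only [yq, eval_sub, eval_add, eval_mul]
          simp
      · have h5 : (fun t => derivative (xq t (j + 3))) =
            fun t => C 2 * (derivative (xq t (j + 2)) * xq t (j + 1) +
              xq t (j + 2) * derivative (xq t (j + 1))) - derivative (xq t j) := by
          funext t
          have : xq t (j + 3) = C 2 * (xq t (j + 2) * xq t (j + 1)) - xq t j := by
            rw [← e0]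
            rfl
          rw [this, derivative_sub, derivative_C_mul, derivative_mul]
        rw [h5]
        refine JD.congr ((((a2.mul b1).add (a1.mul b2)).const_mul 2).sub c2) ?_ ?_
        · simp only [xq, derivative_sub, derivative_mul, derivative_add, eval_sub, eval_add,
            eval_mul]
          simp
          ring
        · simp only [yq, derivative_sub, derivative_mul, derivative_add, eval_sub, eval_add,
            eval_mul]
          simp
          ring

theorem hasFDerivAt_xq (j : ℕ) (E l : ℝ) :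
    HasFDerivAt (fun p : ℝ × ℝ => (xq p.2 j).eval p.1)
      (lin2 ((derivative (xq l j)).eval E) ((yq l j).eval E)) (E, l) := (jd_xq E l j).1

theorem hasFDerivAt_dxq (j : ℕ) (E l : ℝ) :
    HasFDerivAt (fun p : ℝ × ℝ => (derivative (xq p.2 j)).eval p.1)
      (lin2 ((derivative (derivative (xq l j))).eval E) ((derivative (yq l j)).eval E)) (E, l) :=
  (jd_xq E l j).2

/-- chain rule along a curve `(e t, t)` -/
theorem hasDerivAt_along {f : ℝ × ℝ → ℝ} {a b l e' : ℝ} {e : ℝ → ℝ}
    (hf : HasFDerivAt f (lin2 a b) (e l, l)) (he : HasDerivAt e e' l) :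
    HasDerivAt (fun t => f (e t, t)) (a * e' + b) l := by
  have h1 : HasDerivAt (fun t => (e t, t)) (e', (1 : ℝ)) l := he.prodMk (hasDerivAt_id l)
  have h2 := HasFDerivAt.comp_hasDerivAt (f := fun t => (e t, t)) l hf h1
  rw [lin2_apply, mul_one] at h2
  exact h2

/-- the implicit function rule for a continuous branch of zeros -/
theorem implicit_deriv {f : ℝ × ℝ → ℝ} {a b l : ℝ} {e : ℝ → ℝ}
    (hf : HasFDerivAt f (lin2 a b) (e l, l)) (ha : a ≠ 0) (he : ContinuousAt e l)
    (h0 : ∀ᶠ t in 𝓝 l, f (e t, t) = 0) : HasDerivAt e (-b / a) l := by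
  have hl : f (e l, l) = 0 := h0.self_of_nhds
  have hcurve : Tendsto (fun t => (e t, t)) (𝓝 l) (𝓝 (e l, l)) :=
    (he.prodMk continuousAt_id)
  rw [hasFDerivAt_iff_isLittleO] at hf
  have h1 := hf.comp_tendsto hcurve
  -- 0 = a Δe + b Δt + o
  have h2 : (fun t => a * (e t - e l) + b * (t - l)) =o[𝓝 l]
      fun t => ((e t, t) - (e l, l) : ℝ × ℝ) := by
    refine (h1.neg_left).congr' ?_ ?_
    · filter_upwards [h0] with t ht
      simp only [Function.comp, ht, hl, Prod.mk_sub_mk, lin2_apply]
      ring
    · exact Filter.Eventually.of_forall fun t => rfl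
  -- Δe = O(Δt)
  have hA : 0 < |a| := abs_pos.2 ha
  have hO : (fun t => e t - e l) =O[𝓝 l] fun t => t - l := by
    have h3 := h2.bound (c := |a| / 2) (by positivity)
    refine IsBigO.of_bound ((2 * |b| + |a|) / |a|) ?_
    filter_upwards [h3] with t ht
    rw [Prod.mk_sub_mk, Prod.norm_mk, Real.norm_eq_abs, Real.norm_eq_abs, Real.norm_eq_abs] at ht
    rw [Real.norm_eq_abs, Real.norm_eq_abs, div_mul_eq_mul_div, le_div_iff₀ hA]
    have h4 : |a| * |e t - e l| ≤ |a * (e t - e l) + b * (t - l)| + |b| * |t - l| := by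
      rw [← abs_mul, ← abs_mul]
      have : a * (e t - e l) = (a * (e t - e l) + b * (t - l)) - b * (t - l) := by ring
      calc |a * (e t - e l)| = |(a * (e t - e l) + b * (t - l)) - b * (t - l)| := by rw [← this]
        _ ≤ _ := abs_sub _ _
    have h5 : max |e t - e l| |t - l| ≤ |e t - e l| + |t - l| :=
      max_le (by linarith [abs_nonneg (t - l)]) (by linarith [abs_nonneg (e t - e l)])
    nlinarith
  have hprod : (fun t => ((e t, t) - (e l, l) : ℝ × ℝ)) =O[𝓝 l] fun t => t - l := by
    have : (fun t => ((e t, t) - (e l, l) : ℝ × ℝ)) = fun t => (e t - e l, t - l) := rfl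
    rw [this]
    exact hO.prod_left (isBigO_refl _ _)
  have h6 := h2.trans_isBigO hprod
  rw [hasDerivAt_iff_isLittleO]
  refine (h6.const_mul_left a⁻¹).congr ?_ fun t => rfl
  intro t
  simp only [smul_eq_mul]
  field_simp
  ring

theorem natDegree_xq_le (l : ℝ) (j : ℕ) : (xq l j).natDegree ≤ Nat.fib j := by
  induction j using Nat.strong_induction_on with
  | _ j ih =>
    match j, ih with
    | 0, _ => simp [xq]
    | 1, _ =>
      simp only [xq]
      exact (natDegree_C_mul_le _ _).trans (by simp)
    | 2, _ =>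
      simp only [xq]
      exact (natDegree_C_mul_le _ _).trans (by simp)
    | (j + 3), ih =>
      have a := ih (j + 2) (by omega)
      have b := ih (j + 1) (by omega)
      have c := ih j (by omega)
      have h2 : (2 : ℝ[X]).natDegree = 0 := natDegree_ofNat 2
      have hf : Nat.fib (j + 3) = Nat.fib (j + 1) + Nat.fib (j + 2) := Nat.fib_add_two
      have hm : Nat.fib j ≤ Nat.fib (j + 3) := Nat.fib_mono (by omega)
      simp only [xq]
      refine (natDegree_sub_le _ _).trans (max_le ?_ (c.trans hm))
      refine natDegree_mul_le.trans ?_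
      have := natDegree_mul_le (p := (2 : ℝ[X])) (q := xq l (j + 2))
      omega

theorem natDegree_yq_le (l : ℝ) (j : ℕ) (hj : 1 ≤ j) :
    (yq l j).natDegree + 1 ≤ Nat.fib j := by
  induction j using Nat.strong_induction_on with
  | _ j ih =>
    match j, ih, hj with
    | 1, _, _ => simp [yq]
    | 2, _, _ =>
      simp only [yq, natDegree_C]
      decide
    | 3, _, _ =>
      have h2 : (2 : ℝ[X]).natDegree = 0 := natDegree_ofNat 2
      have h3 := natDegree_mul_le (p := (2 : ℝ[X])) (q := (yq l (0 + 2) * xq l (0 + 1) +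
        xq l (0 + 2) * yq l (0 + 1)))
      have h4 := natDegree_add_le (yq l (0 + 2) * xq l (0 + 1)) (xq l (0 + 2) * yq l (0 + 1))
      have h5 := natDegree_mul_le (p := yq l (0 + 2)) (q := xq l (0 + 1))
      have h6 : (yq l (0 + 2)).natDegree = 0 := by simp only [yq, natDegree_C]
      have h7 := natDegree_xq_le l (0 + 1)
      have h8 : (xq l (0 + 2) * yq l (0 + 1)).natDegree = 0 := by simp [yq]
      have h9 : Nat.fib (0 + 1) = 1 := rfl
      have h10 : (yq l 3).natDegree ≤ max ((2 : ℝ[X]) * (yq l (0 + 2) * xq l (0 + 1) +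
        xq l (0 + 2) * yq l (0 + 1))).natDegree (yq l 0).natDegree := natDegree_sub_le _ _
      have h11 : (yq l 0).natDegree = 0 := by simp [yq]
      have h12 : Nat.fib 3 = 2 := rfl
      rw [h8] at h4
      omega
    | (j + 4), ih, _ =>
      have a := ih (j + 3) (by omega) (by omega)
      have b := ih (j + 2) (by omega) (by omega)
      have c := ih (j + 1) (by omega) (by omega)
      have a' := natDegree_xq_le l (j + 3)
      have b' := natDegree_xq_le l (j + 2)
      have h2 : (2 : ℝ[X]).natDegree = 0 := natDegree_ofNat 2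
      have hf : Nat.fib (j + 4) = Nat.fib (j + 2) + Nat.fib (j + 3) := Nat.fib_add_two
      have hm : Nat.fib (j + 1) ≤ Nat.fib (j + 4) := Nat.fib_mono (by omega)
      have h3 := natDegree_mul_le (p := (2 : ℝ[X])) (q := (yq l (j + 3) * xq l (j + 2) +
        xq l (j + 3) * yq l (j + 2)))
      have h4 := natDegree_add_le (yq l (j + 3) * xq l (j + 2)) (xq l (j + 3) * yq l (j + 2))
      have h5 := natDegree_mul_le (p := yq l (j + 3)) (q := xq l (j + 2))
      have h6 := natDegree_mul_le (p := xq l (j + 3)) (q := yq l (j + 2))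
      have h10 : (yq l (j + 4)).natDegree ≤ max ((2 : ℝ[X]) * (yq l (j + 3) * xq l (j + 2) +
        xq l (j + 3) * yq l (j + 2))).natDegree (yq l (j + 1)).natDegree := natDegree_sub_le _ _
      omega

end Pool.Agent.H98.Fib
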