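import Pool.Agent.H98.Fib.Dos

/-! The zeros in increasing order. -/

open Matrix Polynomial Finset Filter Topology MeasureTheory

namespace Pool.Agent.H98.Fib

theorem card_zeros (l : ℝ) (j : ℕ) : (xq l j).roots.toFinset.card = Nat.fib j := by
  rw [Multiset.toFinset_card_of_nodup (roots_xq_nodup l j), card_roots_xq]

/-- the `i`-th zero of `xq l j` in increasing order (`i = 0, …, fib j - 1`) -/
noncomputable def ez (l : ℝ) (j i : ℕ) : ℝ :=
  if h : i < Nat.fib j then (xq l j).roots.toFinset.orderEmbOfFin (card_zeros l j) ⟨i, h⟩ else 0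

theorem ez_lt (l : ℝ) (j i i' : ℕ) (h : i < i') (h' : i' < Nat.fib j) : ez l j i < ez l j i' := by
  unfold ez
  rw [dif_pos (h.trans h'), dif_pos h']
  exact ((xq l j).roots.toFinset.orderEmbOfFin (card_zeros l j)).strictMono h

theorem ez_mem (l : ℝ) (j i : ℕ) (h : i < Nat.fib j) : ez l j i ∈ (xq l j).roots.toFinset := by
  unfold ez
  rw [dif_pos h]
  exact Finset.orderEmbOfFin_mem _ _ _

theorem ez_root (l : ℝ) (j i : ℕ) (h : i < Nat.fib j) : (xq l j).eval (ez l j i) = 0 := by
  have := ez_mem l j i h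
  rw [Multiset.mem_toFinset, mem_roots (xq_ne_zero l j)] at this
  exact this

theorem ez_surj (l : ℝ) (j : ℕ) {z : ℝ} (hz : z ∈ (xq l j).roots.toFinset) :
    ∃ i, i < Nat.fib j ∧ ez l j i = z := by
  have h := Finset.range_orderEmbOfFin (xq l j).roots.toFinset (card_zeros l j)
  have h2 : z ∈ Set.range ((xq l j).roots.toFinset.orderEmbOfFin (card_zeros l j)) := by
    rw [h]; exact hz
  obtain ⟨i, hi⟩ := h2
  refine ⟨i, i.2, ?_⟩
  unfold ez
  rw [dif_pos i.2]
  exact hi

theorem ez_inj (l : ℝ) (j : ℕ) : Set.InjOn (ez l j) (Set.Iio (Nat.fib j)) := by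
  intro i hi i' hi' h
  rcases lt_trichotomy i i' with h1 | h1 | h1
  · exact absurd h (ez_lt l j i i' h1 hi').ne
  · exact h1
  · exact absurd h (ez_lt l j i' i h1 hi).ne'

theorem image_ez (l : ℝ) (j : ℕ) :
    (range (Nat.fib j)).image (ez l j) = (xq l j).roots.toFinset := by
  ext z
  rw [Finset.mem_image]
  constructor
  · rintro ⟨i, hi, rfl⟩
    exact ez_mem l j i (Finset.mem_range.mp hi)
  · intro hz
    obtain ⟨i, hi, h⟩ := ez_surj l j hz
    exact ⟨i, Finset.mem_range.mpr hi, h⟩

theorem nz_eq_card (l : ℝ) (j : ℕ) (E : ℝ) :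
    nz l j E = ((xq l j).roots.toFinset.filter (· ≤ E)).card := by
  unfold nz
  rw [← Multiset.toFinset_filter, Multiset.toFinset_card_of_nodup]
  exact (roots_xq_nodup l j).filter _

theorem card_filter_ez (l : ℝ) (j : ℕ) (E : ℝ) :
    ((range (Nat.fib j)).filter (fun i => ez l j i ≤ E)).card = nz l j E := by
  rw [nz_eq_card, ← image_ez, Finset.filter_image, Finset.card_image_of_injOn]
  intro i hi i' hi' h
  rw [Finset.coe_filter] at hi hi'
  exact ez_inj l j (Finset.mem_range.mp hi.1) (Finset.mem_range.mp hi'.1) h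

theorem ez_le_iff (l : ℝ) (j i : ℕ) (h : i < Nat.fib j) (E : ℝ) :
    ez l j i ≤ E ↔ i < nz l j E := by
  rw [← card_filter_ez]
  constructor
  · intro hE
    have hsub : range (i+1) ⊆ (range (Nat.fib j)).filter (fun i => ez l j i ≤ E) := by
      intro k hk
      rw [Finset.mem_range] at hk
      rw [Finset.mem_filter, Finset.mem_range]
      refine ⟨by omega, ?_⟩
      rcases Nat.lt_or_ge k i with h1 | h1
      · exact (ez_lt l j k i h1 h).le.trans hE
      · have : k = i := by omega
        rw [this]; exact hE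
    have := Finset.card_le_card hsub
    rw [Finset.card_range] at this
    omega
  · intro hc
    by_contra hE
    rw [not_le] at hE
    have hsub : (range (Nat.fib j)).filter (fun i => ez l j i ≤ E) ⊆ range i := by
      intro k hk
      rw [Finset.mem_filter, Finset.mem_range] at hk
      rw [Finset.mem_range]
      by_contra h1
      rw [not_lt] at h1
      rcases Nat.lt_or_ge i k with h2 | h2
      · have := ez_lt l j i k h2 hk.1
        linarith [hk.2]
      · have : k = i := by omega
        rw [this] at hk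
        linarith [hk.2]
    have := Finset.card_le_card hsub
    rw [Finset.card_range] at this
    omega

theorem xq_prod (l : ℝ) (j : ℕ) (hj : 1 ≤ j) :
    xq l j = C (1/2) * ∏ i ∈ range (Nat.fib j), (X - C (ez l j i)) := by
  have h1 := C_leadingCoeff_mul_prod_multiset_X_sub_C (p := xq l j)
    (by rw [card_roots_xq, (natDegree_xq l j).1])
  rw [(natDegree_xq l j).2 hj] at h1
  rw [← h1]
  congr 1
  have h2 : ∏ z ∈ (xq l j).roots.toFinset, (X - C z) =
      ((xq l j).roots.map (fun a => X - C a)).prod := by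
    rw [Finset.prod, Multiset.toFinset_val, (roots_xq_nodup l j).dedup]
  rw [← h2, ← image_ez, Finset.prod_image]
  intro i hi i' hi' h
  exact ez_inj l j (Finset.mem_range.mp hi) (Finset.mem_range.mp hi') h

theorem deriv_ne_zero (l : ℝ) (j i : ℕ) (h : i < Nat.fib j) :
    (derivative (xq l j)).eval (ez l j i) ≠ 0 := by
  intro h0
  have h1 : 1 < (xq l j).rootMultiplicity (ez l j i) := by
    rw [one_lt_rootMultiplicity_iff_isRoot (xq_ne_zero l j)]
    exact ⟨ez_root l j i h, h0⟩
  have h2 := Multiset.nodup_iff_count_le_one.mp (roots_xq_nodup l j) (ez l j i)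
  rw [count_roots] at h2
  omega

/-- `1/|x'|` at the `i`-th zero -/
noncomputable def rz (l : ℝ) (j i : ℕ) : ℝ := 1 / |(derivative (xq l j)).eval (ez l j i)|

theorem rz_pos (l : ℝ) (j i : ℕ) (h : i < Nat.fib j) : 0 < rz l j i := by
  unfold rz
  have := abs_pos.mpr (deriv_ne_zero l j i h)
  positivity

theorem xq_tall (l : ℝ) (hl : l ≠ 0) (j i : ℕ) (h : i + 1 < Nat.fib j) :
    ∃ E, ez l j i < E ∧ E < ez l j (i+1) ∧ 1 ≤ |(xq l j).eval E| := by
  have hj : 3 ≤ j := by
    by_contra hc
    have : j ≤ 2 := by omega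
    interval_cases j <;> simp at h
  have hlt := ez_lt l j i (i+1) (by omega) h
  obtain ⟨E, hE, hd⟩ := exists_hasDerivAt_eq_zero (f := fun E => (xq l j).eval E)
    (f' := fun E => (derivative (xq l j)).eval E) hlt
    (xq l j).continuous.continuousOn
    (by
      show (xq l j).eval _ = (xq l j).eval _
      rw [ez_root l j i (by omega), ez_root l j (i+1) h])
    (fun x _ => (xq l j).hasDerivAt x)
  exact ⟨E, hE.1, hE.2, (one_lt_abs_of_crit l E hl j hj hd).le⟩

end Pool.Agent.H98.Fib
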