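import Pool.Agent.H98.Fib.MonoA
import Pool.Agent.H98.Fib.MonoB
import Pool.Agent.H98.Fib.MonoC2
import Pool.Agent.H98.Fib.Order

/-! Root tracking: the derivative at the `i`-th zero is monotone in the coupling. -/

open Matrix Polynomial Finset Filter Topology

namespace Pool.Agent.H98.Fib

theorem pot_mem (ω : ℝ) (n : ℕ) : 0 ≤ pot ω n ∧ pot ω n ≤ 1 := by
  unfold pot
  split_ifs <;> norm_num

theorem quad_shift (v v' : ℕ → ℝ) (n : ℕ) (c : ℂ) (δ : ℝ) (h : ∀ i < n, v' i - v i ≤ δ)
    (x : Fin n → ℂ) :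
    (star x ⬝ᵥ (Jc v' n c *ᵥ x)).re ≤ (star x ⬝ᵥ (Jc v n c *ᵥ x)).re + δ * (star x ⬝ᵥ x).re := by
  simp only [dotProduct, Complex.re_sum, Finset.mul_sum]
  rw [← Finset.sum_add_distrib]
  apply Finset.sum_le_sum
  intro i _
  rw [Jc_mulVec, Jc_mulVec, ext_succ]
  have h1 : (star x i * ((v' i : ℂ) * x i + ext n c x (i+2) + ext n c x i)).re
      - (star x i * ((v i : ℂ) * x i + ext n c x (i+2) + ext n c x i)).re
      = (v' i - v i) * (star x i * x i).re := by
    have : star x i * ((v' i : ℂ) * x i + ext n c x (i+2) + ext n c x i)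
      - star x i * ((v i : ℂ) * x i + ext n c x (i+2) + ext n c x i)
      = ((v' i - v i : ℝ) : ℂ) * (star x i * x i) := by push_cast; ring
    rw [← Complex.sub_re, this, Complex.re_ofReal_mul]
  have h2 : 0 ≤ (star x i * x i).re := by
    rw [Pi.star_apply, Complex.star_def, ← Complex.normSq_eq_conj_mul_self, Complex.ofReal_re]
    exact Complex.normSq_nonneg _
  have h3 := mul_le_mul_of_nonneg_right (h i i.2) h2
  linarith

theorem nz_le_shift (l l' : ℝ) (j : ℕ) (hj : 2 ≤ j) (E : ℝ) :
    nz l j E ≤ nz l' j (E + |l - l'|) := by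
  rw [nz_eq_cnt l j hj, nz_eq_cnt l' j hj]
  have := cnt_le_cnt_add (Jc_isHermitian (vw l 0) (Nat.fib j) Complex.I)
    (Jc_isHermitian (vw l' 0) (Nat.fib j) Complex.I) ⊤ 0 |l - l'| E (by simp) ?_
  · simpa using this
  · intro x _
    apply quad_shift
    intro i _
    unfold vw
    obtain ⟨h1, h2⟩ := pot_mem 0 (i+1)
    have h3 : l' * pot 0 (i+1) - l * pot 0 (i+1) = (l' - l) * pot 0 (i+1) := by ring
    rw [h3]
    calc (l' - l) * pot 0 (i+1) ≤ |l' - l| * pot 0 (i+1) :=
          mul_le_mul_of_nonneg_right (le_abs_self _) h1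
      _ ≤ |l' - l| * 1 := mul_le_mul_of_nonneg_left h2 (abs_nonneg _)
      _ = |l - l'| := by rw [mul_one, abs_sub_comm]

theorem ez_le_shift (l l' : ℝ) (j : ℕ) (hj : 2 ≤ j) (i : ℕ) (hi : i < Nat.fib j) :
    ez l' j i ≤ ez l j i + |l - l'| := by
  rw [ez_le_iff l' j i hi]
  exact lt_of_lt_of_le ((ez_le_iff l j i hi _).mp le_rfl) (nz_le_shift l l' j hj _)

theorem ez_continuous (j : ℕ) (hj : 2 ≤ j) (i : ℕ) (hi : i < Nat.fib j) :
    Continuous (fun l => ez l j i) := by
  rw [Metric.continuous_iff]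
  intro l ε hε
  refine ⟨ε, hε, fun l' h => ?_⟩
  rw [Real.dist_eq] at h ⊢
  have h1 := ez_le_shift l l' j hj i hi
  have h2 := ez_le_shift l' l j hj i hi
  rw [abs_sub_comm l l'] at h1
  rw [abs_lt]
  constructor <;> linarith

theorem ez_hasDerivAt (j : ℕ) (hj : 2 ≤ j) (i : ℕ) (hi : i < Nat.fib j) (l : ℝ) :
    HasDerivAt (fun l => ez l j i)
      (-((yq l j).eval (ez l j i)) / (derivative (xq l j)).eval (ez l j i)) l := by
  apply implicit_deriv (f := fun p : ℝ × ℝ => (xq p.2 j).eval p.1)
    (hasFDerivAt_xq j (ez l j i) l) (deriv_ne_zero l j i hi)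
    (ez_continuous j hj i hi).continuousAt
  exact Eventually.of_forall (fun t => ez_root t j i hi)

theorem deriv_mono (j i : ℕ) (hi : i < Nat.fib j) (l₁ l₂ : ℝ) (h0 : 0 < l₁) (h : l₁ ≤ l₂) :
    |(derivative (xq l₁ j)).eval (ez l₁ j i)| ≤ |(derivative (xq l₂ j)).eval (ez l₂ j i)| := by
  rcases Nat.lt_or_ge j 3 with hj | hj
  · interval_cases j
    · simp at hi
    · simp [xq]
    · simp [xq]
  · set g : ℝ → ℝ := fun l => ((derivative (xq l j)).eval (ez l j i)) ^ 2 with hg
    have hd : ∀ l, HasDerivAt (fun l => (derivative (xq l j)).eval (ez l j i))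
        ((derivative (derivative (xq l j))).eval (ez l j i) *
          (-((yq l j).eval (ez l j i)) / (derivative (xq l j)).eval (ez l j i)) +
          (derivative (yq l j)).eval (ez l j i)) l := by
      intro l
      exact hasDerivAt_along (hasFDerivAt_dxq j (ez l j i) l) (ez_hasDerivAt j (by omega) i hi l)
    have hg' : ∀ l, HasDerivAt g (2 * ((derivative (yq l j)).eval (ez l j i) *
        (derivative (xq l j)).eval (ez l j i) - (yq l j).eval (ez l j i) *
        (derivative (derivative (xq l j))).eval (ez l j i))) l := by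
      intro l
      have h1 : HasDerivAt g _ l := (hd l).pow 2
      have hne := deriv_ne_zero l j i hi
      refine h1.congr_deriv ?_
      simp only [Nat.cast_ofNat, Nat.add_one_sub_one, pow_one]
      field_simp
      ring
    have hnn : ∀ l, 0 < l → 0 ≤ 2 * ((derivative (yq l j)).eval (ez l j i) *
        (derivative (xq l j)).eval (ez l j i) - (yq l j).eval (ez l j i) *
        (derivative (derivative (xq l j))).eval (ez l j i)) := by
      intro l hl
      have := wronskian_nonneg (xq l j) (yq l j) (by rw [card_roots_xq, (natDegree_xq l j).1])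
        (roots_xq_nodup l j) (by rw [(natDegree_xq l j).1]; exact natDegree_yq_le l j (by omega))
        (fun c hc => (yq_sign l c hl j hj hc).le) (ez l j i)
      linarith
    have hmono : MonotoneOn g (Set.Icc l₁ l₂) := by
      apply monotoneOn_of_deriv_nonneg (convex_Icc _ _)
      · exact fun l _ => (hg' l).continuousAt.continuousWithinAt
      · exact fun l _ => (hg' l).differentiableAt.differentiableWithinAt
      · intro l hl
        rw [interior_Icc] at hl
        rw [(hg' l).deriv]
        exact hnn l (by linarith [hl.1])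
    have := hmono (Set.left_mem_Icc.mpr h) (Set.right_mem_Icc.mpr h) h
    simp only [hg] at this
    exact sq_le_sq.mp this

end Pool.Agent.H98.Fib
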