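import Pool.Agent.H98.Fib.Defs

/-! Combinatorics of the golden rotation. -/

open Finset

namespace Pool.Agent.H98.Fib

theorem al_sq : al ^ 2 = 1 - al := by
  unfold al
  have h : Real.sqrt 5 ^ 2 = 5 := Real.sq_sqrt (by norm_num)
  nlinarith [h]

theorem al_gt : 3 / 5 < al := by
  unfold al
  have h : (11 / 5 : ℝ) < Real.sqrt 5 := Real.lt_sqrt_of_sq_lt (by norm_num)
  linarith

theorem al_lt : al < 5 / 8 := by
  unfold al
  have h : Real.sqrt 5 < 9 / 4 := (Real.sqrt_lt' (by norm_num)).2 (by norm_num)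
  linarith

theorem al_pos : 0 < al := by linarith [al_gt]

theorem al_lt_one : al < 1 := by linarith [al_lt]

theorem al_irrational : Irrational al := by
  have h : al = -Real.goldenConj := by
    unfold al Real.goldenConj
    ring
  rw [h]
  exact Real.goldenConj_irrational.neg

theorem pot_add (ω : ℝ) (n a : ℕ) : pot ω (n + a) = pot (ω + a * al) n := by
  unfold pot
  have h : ((n + a : ℕ) : ℝ) * al + ω = (n : ℝ) * al + (ω + a * al) := by
    push_cast
    ring
  rw [h]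

theorem pot_zero_one : pot 0 1 = 1 := by
  unfold pot
  have h : Int.fract (((1 : ℕ) : ℝ) * al + 0) = al := by
    rw [Nat.cast_one, one_mul, add_zero]
    exact Int.fract_eq_self.2 ⟨al_pos.le, al_lt_one⟩
  rw [h, if_pos]
  linarith [al_gt]

theorem pot_zero_two : pot 0 2 = 0 := by
  unfold pot
  have h : Int.fract (((2 : ℕ) : ℝ) * al + 0) = 2 * al - 1 := by
    rw [Int.fract_eq_iff]
    refine ⟨by linarith [al_gt], by linarith [al_lt], 1, ?_⟩
    push_cast
    ring
  rw [h, if_neg]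
  linarith [al_lt]

/-- `pot` through floors -/
theorem pot_eq_floor (ω : ℝ) (n : ℕ) :
    pot ω n = (⌊((n : ℝ) + 1) * al + ω⌋ : ℝ) - (⌊(n : ℝ) * al + ω⌋ : ℝ) := by
  unfold pot
  set x := (n : ℝ) * al + ω with hx
  have h1 : ((n : ℝ) + 1) * al + ω = x + al := by rw [hx]; ring
  rw [h1]
  have h2 := Int.fract_add_floor x
  have h3 := Int.fract_nonneg x
  have h4 := Int.fract_lt_one x
  split_ifs with h
  · have h5 : ⌊x + al⌋ = ⌊x⌋ + 1 := by
      rw [Int.floor_eq_iff]
      push_cast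
      constructor
      · linarith
      · linarith [al_lt_one]
    rw [h5]
    push_cast
    ring
  · have h5 : ⌊x + al⌋ = ⌊x⌋ := by
      rw [Int.floor_eq_iff]
      constructor
      · linarith [al_pos]
      · push Not at h
        linarith
    rw [h5]
    ring

theorem theta (k : ℕ) : (Nat.fib (k + 1) : ℝ) * al - Nat.fib k = (-1) ^ k * al ^ (k + 1) := by
  induction k using Nat.twoStepInduction with
  | zero => simp
  | one =>
    have := al_sq
    norm_num
    linarith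
  | more k ih1 ih2 =>
    have h1 : (Nat.fib (k + 2 + 1) : ℝ) = Nat.fib (k + 1) + Nat.fib (k + 1 + 1) := by
      rw [Nat.fib_add_two (n := k + 1)]
      push_cast
      ring
    have h2 : (Nat.fib (k + 2) : ℝ) = Nat.fib k + Nat.fib (k + 1) := by
      rw [Nat.fib_add_two]
      push_cast
      ring
    rw [h1]
    have h3 : (Nat.fib (k + 1 + 1) : ℝ) = Nat.fib (k + 2) := rfl
    have h4 : ((-1 : ℝ)) ^ (k + 2) * al ^ (k + 2 + 1) = (-1) ^ k * al ^ (k + 1) * al ^ 2 := by ring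
    have h5 : ((-1 : ℝ)) ^ (k + 1) * al ^ (k + 1 + 1) = - ((-1) ^ k * al ^ (k + 1) * al) := by ring
    rw [h4, al_sq]
    rw [h5] at ih2
    rw [h3] at ih2 ⊢
    rw [h2] at ih2 ⊢
    linear_combination ih1 + ih2

theorem wid (j : ℕ) : (Nat.fib j : ℝ) * (1 + 2 * al) * al ^ j = 1 - (-1) ^ j * (al ^ j) ^ 2 := by
  induction j using Nat.twoStepInduction with
  | zero => simp
  | one =>
    have := al_sq
    norm_num
    nlinarith
  | more k ih1 ih2 =>
    have h2 : (Nat.fib (k + 2) : ℝ) = Nat.fib k + Nat.fib (k + 1) := by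
      rw [Nat.fib_add_two]
      push_cast
      ring
    rw [h2]
    have h3 : (-1 : ℝ) ^ (k + 2) * (al ^ (k + 2)) ^ 2 = (-1) ^ k * (al ^ k) ^ 2 * (al ^ 2) ^ 2 := by
      ring
    have h4 : (-1 : ℝ) ^ (k + 1) * (al ^ (k + 1)) ^ 2 = -((-1) ^ k * (al ^ k) ^ 2 * (al ^ 2)) := by
      ring
    rw [h3]
    rw [h4] at ih2
    have h5 : al ^ 2 + al = 1 := by rw [al_sq]; ring
    have h6 : ((Nat.fib k : ℝ) + Nat.fib (k + 1)) * (1 + 2 * al) * al ^ (k + 2) =
        al ^ 2 * ((Nat.fib k : ℝ) * (1 + 2 * al) * al ^ k) +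
        al * ((Nat.fib (k + 1) : ℝ) * (1 + 2 * al) * al ^ (k + 1)) := by ring
    rw [h6, ih1, ih2]
    linear_combination (1 + (-1) ^ k * (al ^ k) ^ 2 * al ^ 2) * h5

theorem fib_al_bounds (k : ℕ) : al ^ 2 ≤ (Nat.fib (k + 1) : ℝ) * al ^ (k + 1) ∧
    (Nat.fib (k + 1) : ℝ) * al ^ (k + 1) ≤ al := by
  have hp := al_pos
  have h5 := al_sq
  induction k using Nat.twoStepInduction with
  | zero =>
    norm_num
    nlinarith [al_lt_one]
  | one =>
    norm_num
    nlinarith [al_lt_one]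
  | more k ih1 ih2 =>
    have h2 : (Nat.fib (k + 2 + 1) : ℝ) = Nat.fib (k + 1) + Nat.fib (k + 1 + 1) := by
      rw [Nat.fib_add_two (n := k + 1)]
      push_cast
      ring
    have h6 : (Nat.fib (k + 2 + 1) : ℝ) * al ^ (k + 2 + 1) =
        al ^ 2 * ((Nat.fib (k + 1) : ℝ) * al ^ (k + 1)) +
        al * ((Nat.fib (k + 1 + 1) : ℝ) * al ^ (k + 1 + 1)) := by
      rw [h2]
      ring
    rw [h6]
    have h7 : al ^ 2 + al = 1 := by rw [al_sq]; ring
    have hsq : 0 < al ^ 2 := by positivity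
    constructor
    · nlinarith [mul_le_mul_of_nonneg_left ih1.1 hsq.le, mul_le_mul_of_nonneg_left ih2.1 hp.le]
    · nlinarith [mul_le_mul_of_nonneg_left ih1.2 hsq.le, mul_le_mul_of_nonneg_left ih2.2 hp.le]

theorem norm_form (n : ℕ) (m : ℤ) (hn : 1 ≤ n) :
    1 ≤ |(n : ℝ) * al - m| * |(n : ℝ) * (1 + al) + m| := by
  rw [← abs_mul]
  have h1 : ((n : ℝ) * al - m) * ((n : ℝ) * (1 + al) + m) =
      (((n : ℤ) ^ 2 - n * m - m ^ 2 : ℤ) : ℝ) := by
    push_cast
    linear_combination ((n : ℝ) ^ 2) * al_sq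
  rw [h1, ← Int.cast_abs]
  have h2 : ((n : ℤ) ^ 2 - n * m - m ^ 2 : ℤ) ≠ 0 := by
    intro h0
    rw [h0, Int.cast_zero] at h1
    have hn' : (n : ℤ) ≠ 0 := by omega
    rcases mul_eq_zero.1 h1 with h | h
    · have h3 : Irrational ((n : ℤ) * al) := al_irrational.intCast_mul hn'
      apply h3
      refine ⟨(m : ℚ), ?_⟩
      push_cast
      linarith
    · have h3 : Irrational ((n : ℤ) * al) := al_irrational.intCast_mul hn'
      apply h3
      refine ⟨(-m - n : ℚ), ?_⟩
      push_cast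
      linarith
  exact_mod_cast Int.one_le_abs h2

theorem al_pow_pos (j : ℕ) : 0 < al ^ j := pow_pos al_pos j

theorem al_pow_le (k : ℕ) : al ^ (k + 1) ≤ al := by
  have := pow_le_pow_of_le_one al_pos.le al_lt_one.le (Nat.le_add_left 1 k)
  simpa using this

theorem dist_gt (k n : ℕ) (m : ℤ) (h1 : 1 ≤ n) (h2 : n < Nat.fib (k + 1)) :
    al ^ (k + 1) < |(n : ℝ) * al - m| := by
  by_contra hcon
  push Not at hcon
  set ε := al ^ (k + 1) with hε
  have hε0 : 0 < ε := al_pow_pos _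
  have hεa : ε ≤ al := al_pow_le k
  have h3 := norm_form n m h1
  have h4 : |(n : ℝ) * (1 + al) + m| ≤ n * (1 + 2 * al) + ε := by
    have h5 : (n : ℝ) * (1 + al) + m = n * (1 + 2 * al) - ((n : ℝ) * al - m) := by ring
    rw [h5]
    refine (abs_sub _ _).trans ?_
    have h6 : |(n : ℝ) * (1 + 2 * al)| = n * (1 + 2 * al) := by
      apply abs_of_nonneg
      have := al_pos
      positivity
    rw [h6]
    linarith
  have h5 : (n : ℝ) ≤ Nat.fib (k + 1) - 1 := by
    have : n + 1 ≤ Nat.fib (k + 1) := h2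
    have : ((n + 1 : ℕ) : ℝ) ≤ (Nat.fib (k + 1) : ℝ) := by exact_mod_cast this
    push_cast at this
    linarith
  have h6 : |(n : ℝ) * al - m| * |(n : ℝ) * (1 + al) + m| ≤ ε * (n * (1 + 2 * al) + ε) := by
    apply mul_le_mul hcon h4 (abs_nonneg _) hε0.le
  have h7 := wid (k + 1)
  rw [← hε] at h7
  have h8 : (-1 : ℝ) ^ (k + 1) * ε ^ 2 ≥ - ε ^ 2 := by
    rcases neg_one_pow_eq_or ℝ (k + 1) with h | h <;> rw [h] <;> nlinarith
  have h9 : ε * (n * (1 + 2 * al) + ε) ≤ ε * ((Nat.fib (k + 1) - 1) * (1 + 2 * al) + ε) := by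
    apply mul_le_mul_of_nonneg_left _ hε0.le
    have := al_pos
    nlinarith
  nlinarith [al_pos]

theorem abs_theta (k : ℕ) : |(Nat.fib (k + 1) : ℝ) * al - Nat.fib k| = al ^ (k + 1) := by
  rw [theta, abs_mul, abs_pow, abs_neg, abs_one, one_pow, one_mul]
  exact abs_of_pos (al_pow_pos _)

theorem floor_add_fib (k n : ℕ) (hk : 1 ≤ k) (h1 : 1 ≤ n) (h2 : n ≤ Nat.fib (k + 1)) :
    ⌊((n : ℝ) + Nat.fib (k + 1)) * al⌋ = (Nat.fib k : ℤ) + ⌊(n : ℝ) * al⌋ := by
  have hth := abs_theta k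
  set θ := (Nat.fib (k + 1) : ℝ) * al - Nat.fib k with hθ
  have h3 : ((n : ℝ) + Nat.fib (k + 1)) * al = (n : ℝ) * al + θ + ((Nat.fib k : ℤ) : ℝ) := by
    rw [hθ]
    push_cast
    ring
  rw [h3, Int.floor_add_intCast]
  rw [add_comm]
  congr 1
  rcases lt_or_eq_of_le h2 with h4 | h4
  · have h5 := dist_gt k n ⌊(n : ℝ) * al⌋ h1 h4
    have h6 := dist_gt k n (⌊(n : ℝ) * al⌋ + 1) h1 h4
    have h7 := Int.floor_le ((n : ℝ) * al)
    have h8 := Int.lt_floor_add_one ((n : ℝ) * al)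
    rw [abs_of_nonneg (by linarith)] at h5
    rw [abs_of_nonpos (by push_cast; linarith)] at h6
    push_cast at h6
    rw [← hth] at h5 h6
    have h9 := abs_le.1 (le_refl |θ|)
    rw [Int.floor_eq_iff]
    constructor <;> linarith
  · have h5 : (n : ℝ) * al = θ + ((Nat.fib k : ℤ) : ℝ) := by
      rw [hθ, h4]
      push_cast
      ring
    rw [h5]
    have h6 : θ + ((Nat.fib k : ℤ) : ℝ) + θ = 2 * θ + ((Nat.fib k : ℤ) : ℝ) := by ring
    rw [h6, Int.floor_add_intCast, Int.floor_add_intCast]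
    congr 1
    have h7 : al ^ (k + 1) ≤ al ^ 2 :=
      pow_le_pow_of_le_one al_pos.le al_lt_one.le (by omega)
    have h8 : al ^ 2 < 1 / 2 := by rw [al_sq]; linarith [al_gt]
    have h9 := al_pow_pos (k + 1)
    rcases abs_choice θ with h | h
    · rw [h] at hth
      have e1 : ⌊2 * θ⌋ = 0 := by
        rw [Int.floor_eq_iff]
        push_cast
        constructor <;> linarith
      have e2 : ⌊θ⌋ = 0 := by
        rw [Int.floor_eq_iff]
        push_cast
        constructor <;> linarith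
      rw [e1, e2]
    · rw [h] at hth
      have e1 : ⌊2 * θ⌋ = -1 := by
        rw [Int.floor_eq_iff]
        push_cast
        constructor <;> linarith
      have e2 : ⌊θ⌋ = -1 := by
        rw [Int.floor_eq_iff]
        push_cast
        constructor <;> linarith
      rw [e1, e2]

theorem pot_add_fib (j n : ℕ) (hj : 2 ≤ j) (h1 : 1 ≤ n) (h2 : n + 1 ≤ Nat.fib j) :
    pot 0 (n + Nat.fib j) = pot 0 n := by
  obtain ⟨k, rfl⟩ : ∃ k, j = k + 1 := ⟨j - 1, by omega⟩
  have hk : 1 ≤ k := by omega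
  rw [pot_eq_floor, pot_eq_floor]
  have e1 := floor_add_fib k n hk h1 (by omega)
  have e2 := floor_add_fib k (n + 1) hk (by omega) h2
  have e3 : ((n + Nat.fib (k + 1) : ℕ) : ℝ) * al + 0 = ((n : ℝ) + Nat.fib (k + 1)) * al := by
    push_cast
    ring
  have e4 : (((n + Nat.fib (k + 1) : ℕ) : ℝ) + 1) * al + 0 =
      (((n + 1 : ℕ) : ℝ) + Nat.fib (k + 1)) * al := by
    push_cast
    ring
  have e5 : ((n : ℝ) + 1) * al + 0 = ((n + 1 : ℕ) : ℝ) * al := by
    push_cast
    ring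
  rw [e3, e4, e5, add_zero, e1, e2]
  push_cast
  ring

/-- few sites of a window are close to integers -/
theorem card_near (k : ℕ) (ω : ℝ) (S : Finset ℕ) (hS : ∀ n ∈ S, n < Nat.fib (k + 1) ∧
    ∃ M : ℤ, |(n : ℝ) * al + ω - M| ≤ 5 * al ^ (k + 1)) : S.card ≤ 11 := by
  classical
  set ε := al ^ (k + 1) with hε
  have hε0 : 0 < ε := al_pow_pos _
  choose! hlt M hM using hS
  have h1 : S.card ≤ (Finset.Icc (-5 : ℤ) 5).card := by
    refine Finset.card_le_card_of_injOn
      (fun n => ⌊((n : ℝ) * al + ω - M n) / ε⌋) ?_ ?_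
    · intro n hn
      have h2 := abs_le.1 (hM n hn)
      rw [Finset.coe_Icc, Set.mem_Icc]
      constructor
      · rw [Int.le_floor, le_div_iff₀ hε0]
        push_cast
        linarith
      · have : ((n : ℝ) * al + ω - M n) / ε ≤ 5 := by
          rw [div_le_iff₀ hε0]
          linarith
        have h3 := Int.floor_mono this
        simpa using h3
    · intro a ha b hb hab
      have key : ∀ a ∈ S, ∀ b ∈ S, a < b →
          ⌊((a : ℝ) * al + ω - M a) / ε⌋ = ⌊((b : ℝ) * al + ω - M b) / ε⌋ → False := by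
        intro a ha b hb hlt' hab
        have h2 := Int.abs_sub_lt_one_of_floor_eq_floor hab
        rw [← sub_div, abs_div, abs_of_pos hε0, div_lt_one hε0] at h2
        have h3 := dist_gt k (b - a) (M b - M a) (by omega) (by have := hlt b hb; omega)
        have h4 : ((b - a : ℕ) : ℝ) = (b : ℝ) - a := Nat.cast_sub hlt'.le
        rw [h4] at h3
        have h5 : |((b : ℝ) - a) * al - ((M b - M a : ℤ) : ℝ)| =
            |(a : ℝ) * al + ω - M a - ((b : ℝ) * al + ω - M b)| := by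
          rw [abs_sub_comm ((a : ℝ) * al + ω - M a)]
          congr 1
          push_cast
          ring
        rw [h5] at h3
        exact absurd h2 (not_lt.2 h3.le)
      rcases lt_trichotomy a b with h | h | h
      · exact (key a ha b hb h hab).elim
      · exact h
      · exact (key b hb a ha h hab.symm).elim
  simpa using h1

theorem floor_ne_near {x η ε : ℝ} (hη : |η| ≤ ε) (h : ⌊x + η⌋ ≠ ⌊x⌋) : ∃ M : ℤ, |x - M| ≤ ε := by
  have h2 := abs_le.1 hη
  rcases lt_or_gt_of_ne h with h3 | h3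
  · refine ⟨⌊x⌋, ?_⟩
    have h4 : x + η < ⌊x⌋ := Int.floor_lt.1 h3
    have h5 := Int.floor_le x
    rw [abs_le]
    constructor <;> linarith
  · refine ⟨⌊x⌋ + 1, ?_⟩
    have h4 : ((⌊x⌋ + 1 : ℤ) : ℝ) ≤ x + η := Int.le_floor.1 (by omega)
    have h5 := Int.lt_floor_add_one x
    push_cast at h4 ⊢
    rw [abs_le]
    constructor <;> linarith

/-- every window of length `fib j` of the sequence with any phase is a cyclic shift of the word
`pot 0 1, …, pot 0 (fib j)` up to boundedly many sites -/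
theorem exists_shift : ∃ K : ℕ, ∀ j : ℕ, 1 ≤ j → ∀ ω : ℝ, ∃ s : ℕ, s < Nat.fib j ∧
    ((range (Nat.fib j)).filter
      (fun n => pot ω (n + 1) ≠ pot 0 ((n + s) % Nat.fib j + 1))).card ≤ K := by
  classical
  refine ⟨22, fun j hj ω => ?_⟩
  obtain ⟨k, rfl⟩ : ∃ k, j = k + 1 := ⟨j - 1, by omega⟩
  set F := Nat.fib (k + 1) with hF
  set p := Nat.fib k with hp
  have hF0 : 0 < F := Nat.fib_pos.2 (by omega)
  have hFr : (0 : ℝ) < F := by exact_mod_cast hF0
  set ε := al ^ (k + 1) with hε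
  have hε0 : 0 < ε := al_pow_pos _
  obtain ⟨hb1, hb2⟩ := fib_al_bounds k
  rw [← hF, ← hε] at hb1 hb2
  have hth := abs_theta k
  rw [← hF, ← hε, ← hp] at hth
  have hinv : 1 ≤ 3 * ε * F := by
    have := al_sq
    nlinarith [al_lt]
  -- the shift
  set r := ⌊Int.fract ω * F⌋₊ with hr
  have hcop : Nat.Coprime p F := Nat.fib_coprime_fib_succ k
  obtain ⟨s, hs, hsr⟩ := Nat.exists_mul_mod_eq_of_coprime r hcop hF0.ne'
  have hfr0 := Int.fract_nonneg ω
  have hfr1 := Int.fract_lt_one ω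
  have hr1 : (r : ℝ) ≤ Int.fract ω * F := Nat.floor_le (by positivity)
  have hr2 : Int.fract ω * F < r + 1 := Nat.lt_floor_add_one _
  have hrF : r < F := by
    have : (r : ℝ) < F := by nlinarith
    exact_mod_cast this
  rw [Nat.mod_eq_of_lt hrF] at hsr
  have hsp : p * s = F * (p * s / F) + r := by
    have := Nat.div_add_mod (p * s) F
    rw [hsr] at this
    exact this.symm
  set t := p * s / F with ht
  have hspr : (p : ℝ) * s = F * t + r := by exact_mod_cast hsp
  refine ⟨s, hs, ?_⟩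
  -- s * al = m + ω + e
  obtain ⟨m, e, he, hse⟩ : ∃ (m : ℤ) (e : ℝ), |e| ≤ 4 * ε ∧ (s : ℝ) * al = m + ω + e := by
    refine ⟨(t : ℤ) - ⌊ω⌋, (s : ℝ) * al - (((t : ℤ) - ⌊ω⌋ : ℤ) : ℝ) - ω, ?_, by ring⟩
    set θ := (F : ℝ) * al - p with hθ
    have hθ2 := abs_le.1 (le_of_eq hth)
    have h1 : ((s : ℝ) * al - (((t : ℤ) - ⌊ω⌋ : ℤ) : ℝ) - ω) * F =
        (r - Int.fract ω * F) + s * θ := by
      push_cast
      have h2 := Int.fract_add_floor ω
      rw [hθ]
      linear_combination hspr + (F : ℝ) * h2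
    have hsF : (s : ℝ) ≤ F := by exact_mod_cast hs.le
    have hs0 : (0 : ℝ) ≤ s := Nat.cast_nonneg s
    have h3 : |((s : ℝ) * al - (((t : ℤ) - ⌊ω⌋ : ℤ) : ℝ) - ω) * F| ≤ 4 * ε * F := by
      rw [h1, abs_le]
      constructor
      · nlinarith
      · nlinarith
    rw [abs_mul, abs_of_pos hFr] at h3
    exact le_of_mul_le_mul_right h3 hFr
  have hsub : (range F).filter (fun n => pot ω (n + 1) ≠ pot 0 ((n + s) % F + 1)) ⊆
      (range F).filter (fun n => ∃ M : ℤ, |(n : ℝ) * al + (ω + al) - M| ≤ 5 * ε) ∪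
      (range F).filter (fun n => ∃ M : ℤ, |(n : ℝ) * al + (ω + 2 * al) - M| ≤ 5 * ε) := by
    intro n hn
    rw [Finset.mem_filter, Finset.mem_range] at hn
    obtain ⟨hnF, hne⟩ := hn
    rw [Finset.mem_union, Finset.mem_filter, Finset.mem_filter]
    by_contra hcon
    rw [not_or] at hcon
    have hc1 : ¬ ∃ M : ℤ, |(n : ℝ) * al + (ω + al) - M| ≤ 5 * ε := fun h =>
      hcon.1 ⟨Finset.mem_range.2 hnF, h⟩
    have hc2 : ¬ ∃ M : ℤ, |(n : ℝ) * al + (ω + 2 * al) - M| ≤ 5 * ε := fun h =>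
      hcon.2 ⟨Finset.mem_range.2 hnF, h⟩
    apply hne
    -- the index
    obtain ⟨m', η, hη, hi⟩ : ∃ (m' : ℤ) (η : ℝ), |η| ≤ 5 * ε ∧
        (((n + s) % F : ℕ) : ℝ) * al = n * al + ω + m' + η := by
      rcases lt_or_ge (n + s) F with h | h
      · refine ⟨m, e, by linarith, ?_⟩
        rw [Nat.mod_eq_of_lt h]
        push_cast
        linear_combination hse
      · have h2 : (n + s) % F = n + s - F := by
          rw [Nat.mod_eq_sub_mod h, Nat.mod_eq_of_lt (by omega)]
        refine ⟨m - p, e - ((F : ℝ) * al - p), ?_, ?_⟩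
        · refine (abs_sub _ _).trans ?_
          rw [hth]
          linarith
        · rw [h2, Nat.cast_sub h]
          push_cast
          linear_combination hse
    rw [pot_eq_floor, pot_eq_floor]
    have e1 : ((((n + s) % F + 1 : ℕ) : ℝ) + 1) * al + 0 =
        ((n : ℝ) * al + (ω + 2 * al) + η) + ((m' : ℤ) : ℝ) := by
      push_cast
      linear_combination hi
    have e2 : (((n + s) % F + 1 : ℕ) : ℝ) * al + 0 =
        ((n : ℝ) * al + (ω + al) + η) + ((m' : ℤ) : ℝ) := by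
      push_cast
      linear_combination hi
    have e3 : (((n + 1 : ℕ) : ℝ) + 1) * al + ω = (n : ℝ) * al + (ω + 2 * al) := by
      push_cast
      ring
    have e4 : ((n + 1 : ℕ) : ℝ) * al + ω = (n : ℝ) * al + (ω + al) := by
      push_cast
      ring
    rw [e1, e2, e3, e4, Int.floor_add_intCast, Int.floor_add_intCast]
    have f1 : ⌊(n : ℝ) * al + (ω + 2 * al) + η⌋ = ⌊(n : ℝ) * al + (ω + 2 * al)⌋ := by
      by_contra h
      exact hc2 (floor_ne_near hη h)
    have f2 : ⌊(n : ℝ) * al + (ω + al) + η⌋ = ⌊(n : ℝ) * al + (ω + al)⌋ := by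
      by_contra h
      exact hc1 (floor_ne_near hη h)
    rw [f1, f2]
    push_cast
    ring
  refine (Finset.card_le_card hsub).trans ((Finset.card_union_le _ _).trans ?_)
  have g1 := card_near k (ω + al) ((range F).filter
    (fun n => ∃ M : ℤ, |(n : ℝ) * al + (ω + al) - M| ≤ 5 * ε)) (by
      intro n hn
      rw [Finset.mem_filter, Finset.mem_range] at hn
      exact hn)
  have g2 := card_near k (ω + 2 * al) ((range F).filter
    (fun n => ∃ M : ℤ, |(n : ℝ) * al + (ω + 2 * al) - M| ≤ 5 * ε)) (by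
      intro n hn
      rw [Finset.mem_filter, Finset.mem_range] at hn
      exact hn)
  omega

end Pool.Agent.H98.Fib
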