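import Pool.Agent.H98.Fib.JacCnt
import Pool.Agent.H98.Fib.Rot
import Pool.Agent.H98.Fib.MonoAlg

/-! Zeros of the trace polynomials. -/

open Matrix Polynomial Finset

namespace Pool.Agent.H98.Fib

theorem TM_add (v : ℕ → ℝ) (E : ℝ) (a b : ℕ) :
    TM v E (a + b) = TM (fun i => v (i + a)) E b * TM v E a := by
  induction b with
  | zero => simp [TM]
  | succ b ih =>
    rw [← Nat.add_assoc, TM, TM, ih, Matrix.mul_assoc, add_comm b a]

theorem TM_congr (v v' : ℕ → ℝ) (E : ℝ) (n : ℕ) (h : ∀ i < n, v i = v' i) :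
    TM v E n = TM v' E n := by
  induction n with
  | zero => rfl
  | succ n ih =>
    rw [TM, TM, ih (fun i hi => h i (by omega)), h n (by omega)]

/-- the potential with phase `ω`, shifted so that index `i` is the site `i+1` -/
noncomputable def vw (l ω : ℝ) (i : ℕ) : ℝ := l * pot ω (i + 1)

theorem vw_shift (l ω : ℝ) (a : ℕ) : (fun i => vw l ω (i + a)) = vw l (ω + a * al) := by
  funext i
  unfold vw
  have : i + a + 1 = (i + 1) + a := by ring
  rw [this, pot_add]

theorem fib_lt_aux {j : ℕ} (hj : 3 ≤ j) : Nat.fib (j-1) + 1 ≤ Nat.fib j := by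
  obtain ⟨k, rfl⟩ := Nat.exists_eq_add_of_le hj
  have h1 : 3 + k - 1 = k + 2 := by omega
  have h2 : 3 + k = (k + 1) + 2 := by ring
  rw [h1, h2, Nat.fib_add_two (n := k + 1)]
  have : 0 < Nat.fib (k+1) := Nat.fib_pos.mpr (by omega)
  have h3 : k + 1 + 1 = k + 2 := by ring
  rw [h3]
  omega

theorem vw_add_fib (l : ℝ) (j i : ℕ) (hj : 3 ≤ j) (hi : i < Nat.fib (j-1)) :
    vw l 0 (i + Nat.fib j) = vw l 0 i := by
  unfold vw
  have : i + Nat.fib j + 1 = (i + 1) + Nat.fib j := by ring
  rw [this, pot_add_fib j (i+1) (by omega) (by omega)]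
  have := fib_lt_aux hj
  omega

theorem Mf_eq_TM (l E : ℝ) (j : ℕ) (hj : 2 ≤ j) : Mf l E j = TM (vw l 0) E (Nat.fib j) := by
  induction j using Nat.strong_induction_on with
  | _ j ih =>
    have hv0 : vw l 0 0 = l := by
      unfold vw
      rw [zero_add, pot_zero_one]; ring
    have hv1 : vw l 0 1 = 0 := by
      unfold vw
      have : (1 + 1 : ℕ) = 2 := rfl
      rw [this, pot_zero_two]; ring
    have h2 : Mf l E 2 = TM (vw l 0) E (Nat.fib 2) := by
      have : Nat.fib 2 = 1 := rfl
      rw [this]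
      simp only [Mf, TM, hv0]
      ext a b
      fin_cases a <;> fin_cases b <;> simp [Matrix.mul_apply, Fin.sum_univ_two] <;> ring
    rcases Nat.lt_or_ge j 3 with h | h
    · have : j = 2 := by omega
      subst this; exact h2
    · rcases Nat.lt_or_ge j 4 with h' | h'
      · have : j = 3 := by omega
        subst this
        have e : Nat.fib 3 = 2 := rfl
        rw [e]
        show Mf l E 1 * Mf l E 2 = _
        rw [h2]
        have : Nat.fib 2 = 1 := rfl
        rw [this]
        simp only [Mf, TM, hv1, sub_zero]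
      · obtain ⟨k, rfl⟩ := Nat.exists_eq_add_of_le h'
        have e1 : 4 + k = (k + 2) + 2 := by ring
        rw [e1]
        show Mf l E (k+2) * Mf l E (k+3) = _
        rw [ih (k+2) (by omega) (by omega), ih (k+3) (by omega) (by omega)]
        have e2 : Nat.fib (k + 2 + 2) = Nat.fib (k+3) + Nat.fib (k+2) := by
          rw [Nat.fib_add_two, add_comm]
        rw [e2, TM_add]
        congr 1
        apply TM_congr
        intro i hi
        exact (vw_add_fib l (k+3) i (by omega) hi).symm

/-! degrees -/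

theorem natDegree_xq (l : ℝ) (j : ℕ) :
    (xq l j).natDegree = Nat.fib j ∧ (1 ≤ j → (xq l j).leadingCoeff = 1/2) := by
  induction j using Nat.strong_induction_on with
  | _ j ih =>
    rcases j with _ | _ | _ | j
    · simp [xq]
    · have h2 : (C (1/2) * X : ℝ[X]).natDegree = 1 := by
        rw [natDegree_C_mul (by norm_num), natDegree_X]
      refine ⟨h2, fun _ => ?_⟩
      show (C (1/2) * X : ℝ[X]).leadingCoeff = 1/2
      rw [leadingCoeff_mul, leadingCoeff_C, leadingCoeff_X, mul_one]
    · have h2 : (C (1/2) * (X - C l) : ℝ[X]).natDegree = 1 := by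
        rw [natDegree_C_mul (by norm_num), natDegree_X_sub_C]
      refine ⟨h2, fun _ => ?_⟩
      show (C (1/2) * (X - C l) : ℝ[X]).leadingCoeff = 1/2
      rw [leadingCoeff_mul, leadingCoeff_C, leadingCoeff_X_sub_C, mul_one]
    · obtain ⟨d0, l0⟩ := ih j (by omega)
      obtain ⟨d1, l1⟩ := ih (j+1) (by omega)
      obtain ⟨d2, l2⟩ := ih (j+2) (by omega)
      have l1' := l1 (by omega)
      have l2' := l2 (by omega)
      have hne1 : xq l (j+1) ≠ 0 := by
        intro h; rw [h] at l1'; simp at l1'
      have hne2 : xq l (j+2) ≠ 0 := by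
        intro h; rw [h] at l2'; simp at l2'
      have e2 : (2 : ℝ[X]) = C 2 := rfl
      have dP : (2 * xq l (j+2) * xq l (j+1)).natDegree = Nat.fib (j+3) := by
        rw [e2, mul_assoc, natDegree_C_mul (by norm_num), natDegree_mul hne2 hne1, d1, d2,
          Nat.fib_add_two (n := j + 1), add_comm]
      have lP : (2 * xq l (j+2) * xq l (j+1)).leadingCoeff = 1/2 := by
        rw [e2, leadingCoeff_mul, leadingCoeff_mul, leadingCoeff_C, l1', l2']; norm_num
      have hlt : Nat.fib j < Nat.fib (j+3) := by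
        have h3 : Nat.fib (j+3) = Nat.fib (j+1) + Nat.fib (j+2) := Nat.fib_add_two
        have h2 : Nat.fib (j+2) = Nat.fib j + Nat.fib (j+1) := Nat.fib_add_two
        have : 0 < Nat.fib (j+1) := Nat.fib_pos.mpr (by omega)
        omega
      have hdeg : (xq l j).degree < (2 * xq l (j+2) * xq l (j+1)).degree := by
        apply degree_lt_degree
        rw [d0, dP]; exact hlt
      constructor
      · show (2 * xq l (j+2) * xq l (j+1) - xq l j).natDegree = _
        rw [natDegree_sub_eq_left_of_natDegree_lt (by rw [d0, dP]; exact hlt), dP]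
      · intro _
        show (2 * xq l (j+2) * xq l (j+1) - xq l j).leadingCoeff = _
        rw [leadingCoeff_sub_of_degree_lt hdeg, lP]

theorem xq_ne_zero (l : ℝ) (j : ℕ) : xq l j ≠ 0 := by
  rcases Nat.eq_zero_or_pos j with h | h
  · subst h; simp [xq]
  · intro h0
    have := (natDegree_xq l j).2 h
    rw [h0] at this; simp at this


/-! cyclic shifts -/

theorem trace_cyclic (v : ℕ → ℝ) (E : ℝ) (q s : ℕ) (hs : s < q) :
    (TM (fun n => v ((n + s) % q)) E q).trace = (TM v E q).trace := by
  have e1 : TM (fun n => v ((n + s) % q)) E q = TM v E s * TM (fun i => v (i + s)) E (q - s) := by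
    have hq : q = (q - s) + s := by omega
    conv_lhs => rw [hq]
    rw [TM_add]
    have h1 : (q - s) + s = q := by omega
    rw [h1]
    congr 1
    · apply TM_congr
      intro i hi
      have : i + (q - s) + s = i + q := by omega
      rw [this, Nat.add_mod_right, Nat.mod_eq_of_lt (by omega)]
    · apply TM_congr
      intro i hi
      rw [Nat.mod_eq_of_lt (by omega)]
  have e2 : TM v E q = TM (fun i => v (i + s)) E (q - s) * TM v E s := by
    conv_lhs => rw [show q = s + (q - s) by omega]
    rw [TM_add]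
  rw [e1, e2, Matrix.trace_mul_comm]

theorem map_ne_I (v : ℕ → ℝ) (E : ℝ) (n : ℕ) :
    (TM v E n).map (algebraMap ℝ ℂ) ≠ Complex.I • (1 : Matrix (Fin 2) (Fin 2) ℂ) := by
  intro h
  have := congrFun (congrFun h 0) 0
  have h2 := congrArg Complex.im this
  simp at h2

/-- number of zeros of `xq l j` that are at most `E` -/
noncomputable def nz (l : ℝ) (j : ℕ) (E : ℝ) : ℕ := ((xq l j).roots.filter (· ≤ E)).card

/-- all cyclic shifts of the periodic matrices with `c = I` have the zeros of `xq l j` as eigenvalues -/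
theorem zeros_of_word (l : ℝ) (j : ℕ) (hj : 2 ≤ j) (v : ℕ → ℝ)
    (hv : ∀ E, (TM v E (Nat.fib j)).trace = 2 * (xq l j).eval E) :
    (xq l j).roots.Nodup ∧ Multiset.card (xq l j).roots = Nat.fib j ∧
      ∀ E, nz l j E = cnt (Jc v (Nat.fib j) Complex.I) E := by
  have hn : 0 < Nat.fib j := Nat.fib_pos.mpr (by omega)
  have hc : Complex.I * star Complex.I = 1 := by simp
  have hH := Jc_isHermitian v (Nat.fib j) Complex.I
  have hinj : Function.Injective hH.eigenvalues := by
    apply eigenvalues_injective hH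
    intro E x y hx hy hx0
    exact eig_simple hn hc (map_ne_I v E _) hx hy hx0
  have hroot : ∀ i, (xq l j).eval (hH.eigenvalues i) = 0 := by
    intro i
    obtain ⟨x, hx0, hx⟩ := exists_eigenvector hH i
    have := trace_of_eig hn hc hx hx0
    rw [hv] at this
    simp at this
    exact this
  have := roots_of_injective hH hinj (xq l j) (xq_ne_zero l j)
    (by rw [(natDegree_xq l j).1, Fintype.card_fin]) hroot
  refine ⟨this.2.1, ?_, this.2.2⟩
  rw [this.1]; simp

theorem trace_vw (l E : ℝ) (j : ℕ) (hj : 2 ≤ j) :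
    (TM (vw l 0) E (Nat.fib j)).trace = 2 * (xq l j).eval E := by
  rw [eval_xq, Mf_eq_TM l E j hj]; ring

theorem roots_xq_nodup (l : ℝ) (j : ℕ) : (xq l j).roots.Nodup := by
  rcases Nat.lt_or_ge j 2 with h | h
  · interval_cases j
    · simp [xq]
    · simp only [xq]
      rw [roots_C_mul _ (by norm_num), roots_X]; simp
  · exact (zeros_of_word l j h _ (fun E => trace_vw l E j h)).1

theorem card_roots_xq (l : ℝ) (j : ℕ) : Multiset.card (xq l j).roots = Nat.fib j := by
  rcases Nat.lt_or_ge j 2 with h | h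
  · interval_cases j
    · simp [xq]
    · simp only [xq]
      rw [roots_C_mul _ (by norm_num), roots_X]; simp
  · exact (zeros_of_word l j h _ (fun E => trace_vw l E j h)).2.1

theorem nz_eq_cnt (l : ℝ) (j : ℕ) (hj : 2 ≤ j) (E : ℝ) :
    nz l j E = cnt (Jc (vw l 0) (Nat.fib j) Complex.I) E :=
  (zeros_of_word l j hj _ (fun E => trace_vw l E j hj)).2.2 E

/-- window estimate: the Dirichlet count over any window of length `fib j` -/
theorem window_count : ∃ K : ℕ, ∀ (l : ℝ) (j : ℕ), 2 ≤ j → ∀ (ω E : ℝ),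
    cnt (Jc (vw l ω) (Nat.fib j) 0) E ≤ nz l j E + K ∧
    nz l j E ≤ cnt (Jc (vw l ω) (Nat.fib j) 0) E + K := by
  obtain ⟨K, hK⟩ := exists_shift
  refine ⟨K + 1, fun l j hj ω E => ?_⟩
  obtain ⟨s, hs, hcard⟩ := hK j (by omega) ω
  set q := Nat.fib j with hq
  let v' : ℕ → ℝ := fun n => vw l 0 ((n + s) % q)
  have hnz : nz l j E = cnt (Jc v' q Complex.I) E :=
    (zeros_of_word l j hj v' (fun E => by
      rw [← trace_vw l E j hj]; exact trace_cyclic (vw l 0) E q s hs)).2.2 E
  have hcard' : ((range q).filter (fun i => vw l ω i ≠ v' i)).card ≤ K := by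
    refine (Finset.card_le_card ?_).trans hcard
    intro n hn
    rw [Finset.mem_filter] at hn ⊢
    refine ⟨hn.1, fun h => hn.2 ?_⟩
    show l * pot ω (n+1) = l * pot 0 ((n + s) % q + 1)
    rw [h]
  have hcard'' : ((range q).filter (fun i => v' i ≠ vw l ω i)).card ≤ K := by
    refine le_trans (le_of_eq ?_) hcard'
    congr 1
    ext n; simp only [Finset.mem_filter, ne_comm]
  have h1 := cnt_potential (vw l ω) v' q 0 E
  have h2 := cnt_potential v' (vw l ω) q 0 E
  have h3 := cnt_corner v' q 0 Complex.I E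
  have h4 := cnt_corner v' q Complex.I 0 E
  constructor <;> omega

end Pool.Agent.H98.Fib
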